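import Mathlib

/-!
# Posets with three layers: definitions and the statements of the modules
-/

namespace Pool.Agent.Lib.MP_5bc52d_co.AA

/-- `A`, `B`, `C` are the three layers of the poset: all relations go from `A` to `B`, from `B` to
`C` or from `A` to `C`, and all pairs of `A` and `C` are related. -/
structure Lay {V : Type*} [PartialOrder V] (A B C : Finset V) : Prop where
  cover : ∀ x, x ∈ A ∨ x ∈ B ∨ x ∈ C
  dAB : Disjoint A B
  dBC : Disjoint B C
  dAC : Disjoint A C
  rel : ∀ x y, x < y → (x ∈ A ∧ y ∈ B) ∨ (x ∈ B ∧ y ∈ C) ∨ (x ∈ A ∧ y ∈ C)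
  full : ∀ a ∈ A, ∀ c ∈ C, a < c

open Classical in
/-- All degrees between neighbouring layers are at least `d`. -/
structure Deg {V : Type*} (lt : V → V → Prop) (A B C : Finset V) (d : ℝ) : Prop where
  ab : ∀ a ∈ A, d ≤ ((B.filter fun b => lt a b).card : ℝ)
  ba : ∀ b ∈ B, d ≤ ((A.filter fun a => lt a b).card : ℝ)
  bc : ∀ b ∈ B, d ≤ ((C.filter fun c => lt b c).card : ℝ)
  cb : ∀ c ∈ C, d ≤ ((B.filter fun b => lt b c).card : ℝ)

open Classical in
/-- Any at most `K` elements of `B` have `L` common upper neighbours in `C`, and any at most `K`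
elements of `C` have `L` common lower neighbours in `B`. -/
structure Com {V : Type*} (lt : V → V → Prop) (B C : Finset V) (K L : ℕ) : Prop where
  up : ∀ S ⊆ B, S.card ≤ K → L ≤ (C.filter fun c => ∀ b ∈ S, lt b c).card
  dn : ∀ S ⊆ C, S.card ≤ K → L ≤ (B.filter fun b => ∀ c ∈ S, lt b c).card

/-! ### M4: random labels -/

open Classical in
/-- the elements of `S` with at most `k` smaller elements in `N x` -/
noncomputable def few {n : ℕ} (σ : Equiv.Perm (Fin n)) (S : Finset (Fin n))
    (N : Fin n → Finset (Fin n)) (k : ℕ) : Finset (Fin n) :=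
  S.filter fun x => ((N x).filter fun y => σ y < σ x).card ≤ k

open Classical in
/-- the elements of `S` with no larger element in `N x` -/
noncomputable def tops {n : ℕ} (σ : Equiv.Perm (Fin n)) (S : Finset (Fin n))
    (N : Fin n → Finset (Fin n)) : Finset (Fin n) :=
  S.filter fun x => ∀ y ∈ N x, σ y < σ x

open Classical in
/-- Markov bound: few permutations have `K` elements with at most `k` smaller neighbours. -/
def FewBound : Prop :=
  ∀ (n : ℕ) (S : Finset (Fin n)) (N : Fin n → Finset (Fin n)) (d k K : ℕ),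
    (∀ x ∈ S, x ∉ N x) → (∀ x ∈ S, d ≤ (N x).card) →
    ((Finset.univ : Finset (Equiv.Perm (Fin n))).filter
        fun σ => K ≤ (few σ S N k).card).card * (K * (d + 1)) ≤ S.card * (k + 1) * n.factorial

open Classical in
def TopsBound : Prop :=
  ∀ (n : ℕ) (S : Finset (Fin n)) (N : Fin n → Finset (Fin n)) (d K : ℕ),
    (∀ x ∈ S, x ∉ N x) → (∀ x ∈ S, d ≤ (N x).card) →
    ((Finset.univ : Finset (Equiv.Perm (Fin n))).filter
        fun σ => K ≤ (tops σ S N).card).card * (K * (d + 1)) ≤ S.card * n.factorial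

open Classical in
/-- For a fixed element `x` below some and above some elements: the permutations for which `x` is
larger than all `y` in `M` and smaller than all `y` in `N`. -/
def MidBound : Prop :=
  ∀ (n : ℕ) (x : Fin n) (M N : Finset (Fin n)), x ∉ M → x ∉ N → Disjoint M N →
    ((Finset.univ : Finset (Equiv.Perm (Fin n))).filter
        fun σ => (∀ y ∈ M, σ y < σ x) ∧ ∀ y ∈ N, σ x < σ y).card * (M.card * N.card) ≤
      n.factorial

open Classical in
/-- The permutations for which `x` is smaller than all of `M` and some given `y ∈ M` is smaller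
than all of `N`. -/
def LowBound : Prop :=
  ∀ (n : ℕ) (x y : Fin n) (M N : Finset (Fin n)), x ∉ M → y ∈ M → x ∉ N → y ∉ N →
    Disjoint M N →
    ((Finset.univ : Finset (Equiv.Perm (Fin n))).filter
        fun σ => (∀ z ∈ M, σ x < σ z) ∧ ∀ z ∈ N, σ y < σ z).card * ((M.card - 1) * N.card) ≤
      n.factorial

open Classical in
/-- The dual of `LowBound`: `x` is larger than all of `M` and `y ∈ M` is larger than all of
`N`. -/
def HighBound : Prop :=
  ∀ (n : ℕ) (x y : Fin n) (M N : Finset (Fin n)), x ∉ M → y ∈ M → x ∉ N → y ∉ N →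
    Disjoint M N →
    ((Finset.univ : Finset (Equiv.Perm (Fin n))).filter
        fun σ => (∀ z ∈ M, σ z < σ x) ∧ ∀ z ∈ N, σ z < σ y).card * ((M.card - 1) * N.card) ≤
      n.factorial

/-! ### M5: random bipartite graphs -/

/-- the relation given by two bipartite graphs -/
def ltE {V : Type*} (A B C : Finset V) (E : Finset (V × V) × Finset (V × V)) (x y : V) : Prop :=
  (x ∈ A ∧ y ∈ B ∧ (x, y) ∈ E.1) ∨ (x ∈ B ∧ y ∈ C ∧ (x, y) ∈ E.2) ∨ (x ∈ A ∧ y ∈ C)

open Classical in
/-- Almost all pairs of bipartite graphs have large degrees and common neighbourhoods. -/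
def GraphBound : Prop :=
  ∀ (δ ε : ℝ) (K L : ℕ), 0 < δ → 0 < ε → ∃ N : ℕ, ∀ n ≥ N, ∀ A B C : Finset (Fin n),
    Disjoint A B → Disjoint B C → Disjoint A C →
    δ * n ≤ A.card → δ * n ≤ B.card → δ * n ≤ C.card →
    ((((A ×ˢ B).powerset ×ˢ (B ×ˢ C).powerset).filter
        fun E => ¬ (Deg (ltE A B C E) A B C (δ / 4 * n) ∧ Com (ltE A B C E) B C K L)).card : ℝ) ≤
      ε * (2 ^ (A.card * B.card) * 2 ^ (B.card * C.card))

end Pool.Agent.Lib.MP_5bc52d_co.AA
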