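import Mathlib
import Pool.Agent.Lib.MP_5bc52d_co.AA.Defs

/-!
# The final count for posets with three layers
-/

namespace Pool.Agent.Lib.MP_5bc52d_co.AA

open Finset

/-- a triple of disjoint sets of size at least `δ n` covering `Fin n` -/
def Trip (δ : ℝ) (n : ℕ) (T : Finset (Fin n) × Finset (Fin n) × Finset (Fin n)) : Prop :=
  (∀ x, x ∈ T.1 ∨ x ∈ T.2.1 ∨ x ∈ T.2.2) ∧ Disjoint T.1 T.2.1 ∧ Disjoint T.2.1 T.2.2 ∧
    Disjoint T.1 T.2.2 ∧ δ * n ≤ T.1.card ∧ δ * n ≤ T.2.1.card ∧ δ * n ≤ T.2.2.card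

/-- the relation `r` has three layers of size at least `δ n`, the lowest one completely below the
highest one -/
def Layered (δ : ℝ) (n : ℕ) (r : Fin n → Fin n → Prop) : Prop :=
  ∃ A B C : Finset (Fin n), Trip δ n (A, B, C) ∧
    (∀ x y, r x y → (x ∈ A ∧ y ∈ B) ∨ (x ∈ B ∧ y ∈ C) ∨ (x ∈ A ∧ y ∈ C)) ∧
    ∀ a ∈ A, ∀ c ∈ C, r a c

/-- the layers can be chosen with large degrees and common neighbourhoods -/
def GoodRel (δ d : ℝ) (K L n : ℕ) (r : Fin n → Fin n → Prop) : Prop :=
  ∃ A B C : Finset (Fin n), Trip δ n (A, B, C) ∧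
    (∀ x y, r x y → (x ∈ A ∧ y ∈ B) ∨ (x ∈ B ∧ y ∈ C) ∨ (x ∈ A ∧ y ∈ C)) ∧
    (∀ a ∈ A, ∀ c ∈ C, r a c) ∧ Deg r A B C (d * n) ∧ Com r B C K L

theorem GoodRel.layered {δ d : ℝ} {K L n : ℕ} {r : Fin n → Fin n → Prop}
    (h : GoodRel δ d K L n r) : Layered δ n r := by
  obtain ⟨A, B, C, h1, h2, h3, -, -⟩ := h
  exact ⟨A, B, C, h1, h2, h3⟩

/-- relabelling -/
def rel {n : ℕ} (σ : Equiv.Perm (Fin n)) (r : Fin n → Fin n → Prop) : Fin n → Fin n → Prop :=
  fun x y => r (σ x) (σ y)

theorem card_filter_map {n : ℕ} (σ : Equiv.Perm (Fin n)) (B : Finset (Fin n))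
    (p : Fin n → Prop) [DecidablePred p] [DecidablePred fun x => p (σ x)] :
    ((B.map σ.symm.toEmbedding).filter fun x => p (σ x)).card = (B.filter p).card := by
  classical
  rw [← Finset.card_map σ.symm.toEmbedding (s := B.filter p)]
  congr 1
  ext x
  simp only [Finset.mem_filter, Finset.mem_map, Equiv.coe_toEmbedding]
  constructor
  · rintro ⟨⟨y, hy, rfl⟩, h⟩
    rw [Equiv.apply_symm_apply] at h
    exact ⟨y, ⟨hy, h⟩, rfl⟩
  · rintro ⟨y, ⟨hy, h⟩, rfl⟩
    exact ⟨⟨y, hy, rfl⟩, by rwa [Equiv.apply_symm_apply]⟩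

theorem mem_map_symm {n : ℕ} (σ : Equiv.Perm (Fin n)) (B : Finset (Fin n)) (x : Fin n) :
    x ∈ B.map σ.symm.toEmbedding ↔ σ x ∈ B := by
  rw [Finset.mem_map]
  constructor
  · rintro ⟨y, hy, rfl⟩
    simpa using hy
  · intro h
    exact ⟨σ x, h, by simp⟩

theorem GoodRel.rel {δ d : ℝ} {K L n : ℕ} {r : Fin n → Fin n → Prop}
    (h : GoodRel δ d K L n r) (σ : Equiv.Perm (Fin n)) : GoodRel δ d K L n (rel σ r) := by
  classical
  obtain ⟨A, B, C, ⟨h1, h2, h3, h4, h5, h6, h7⟩, hr, hf, hd, hc⟩ := h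
  have hm := fun (S : Finset (Fin n)) (x : Fin n) => mem_map_symm σ S x
  have hdis : ∀ S T : Finset (Fin n), Disjoint S T →
      Disjoint (S.map σ.symm.toEmbedding) (T.map σ.symm.toEmbedding) := by
    intro S T h
    rwa [Finset.disjoint_map]
  refine ⟨A.map σ.symm.toEmbedding, B.map σ.symm.toEmbedding, C.map σ.symm.toEmbedding,
    ⟨fun x => ?_, hdis _ _ h2, hdis _ _ h3, hdis _ _ h4, ?_, ?_, ?_⟩, ?_, ?_, ?_, ?_⟩
  · simp only [hm]
    exact h1 (σ x)
  · rw [Finset.card_map]; exact h5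
  · rw [Finset.card_map]; exact h6
  · rw [Finset.card_map]; exact h7
  · intro x y hxy
    simp only [hm]
    exact hr _ _ hxy
  · intro a ha c hc
    rw [hm] at ha hc
    exact hf _ ha _ hc
  · have e1 : ∀ (S : Finset (Fin n)) (p : Fin n → Prop),
        ((S.map σ.symm.toEmbedding).filter fun x => p (σ x)).card = (S.filter p).card :=
      fun S p => card_filter_map σ S p
    refine ⟨fun a ha => ?_, fun b hb => ?_, fun b hb => ?_, fun c hc => ?_⟩
    · rw [hm] at ha
      have := hd.ab _ ha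
      rw [← e1 B (fun b => r (σ a) b)] at this
      exact this
    · rw [hm] at hb
      have := hd.ba _ hb
      rw [← e1 A (fun a => r a (σ b))] at this
      exact this
    · rw [hm] at hb
      have := hd.bc _ hb
      rw [← e1 C (fun c => r (σ b) c)] at this
      exact this
    · rw [hm] at hc
      have := hd.cb _ hc
      rw [← e1 B (fun b => r b (σ c))] at this
      exact this
  · have e1 : ∀ (S : Finset (Fin n)) (p : Fin n → Prop),
        ((S.map σ.symm.toEmbedding).filter fun x => p (σ x)).card = (S.filter p).card :=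
      fun S p => card_filter_map σ S p
    have key : ∀ (S T : Finset (Fin n)),
        S ⊆ T.map σ.symm.toEmbedding → S.map σ.toEmbedding ⊆ T := by
      intro S T h x hx
      rw [Finset.mem_map] at hx
      obtain ⟨y, hy, rfl⟩ := hx
      exact (hm T y).mp (h hy)
    refine ⟨fun S hS hk => ?_, fun S hS hk => ?_⟩
    · have h8 := hc.up (S.map σ.toEmbedding) (key S B hS) (by rwa [Finset.card_map])
      have h9 := e1 C (fun c => ∀ b ∈ S.map σ.toEmbedding, r b c)
      refine (h8.trans (le_of_eq (by convert h9.symm))).trans (Finset.card_le_card ?_)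
      intro x hx
      simp only [Finset.mem_filter] at hx ⊢
      exact ⟨hx.1, fun b hb => hx.2 (σ b) (Finset.mem_map.mpr ⟨b, hb, rfl⟩)⟩
    · have h8 := hc.dn (S.map σ.toEmbedding) (key S C hS) (by rwa [Finset.card_map])
      have h9 := e1 B (fun b => ∀ c ∈ S.map σ.toEmbedding, r b c)
      refine (h8.trans (le_of_eq (by convert h9.symm))).trans (Finset.card_le_card ?_)
      intro x hx
      simp only [Finset.mem_filter] at hx ⊢
      exact ⟨hx.1, fun b hb => hx.2 (σ b) (Finset.mem_map.mpr ⟨b, hb, rfl⟩)⟩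

theorem rel_rel_symm {n : ℕ} (σ : Equiv.Perm (Fin n)) (r : Fin n → Fin n → Prop) :
    AA.rel σ (AA.rel σ.symm r) = r := by
  funext x y
  simp [AA.rel]

theorem rel_symm_rel {n : ℕ} (σ : Equiv.Perm (Fin n)) (r : Fin n → Fin n → Prop) :
    AA.rel σ.symm (AA.rel σ r) = r := by
  funext x y
  simp [AA.rel]

open Classical in
/-- double counting over the relabellings -/
theorem avg {n : ℕ} (G Bad : (Fin n → Fin n → Prop) → Prop) (ε : ℝ)
    (hG : ∀ r, G r → ∀ σ : Equiv.Perm (Fin n), G (rel σ r))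
    (hB : ∀ r, G r → (((Finset.univ : Finset (Equiv.Perm (Fin n))).filter
      fun σ => Bad (rel σ r)).card : ℝ) ≤ ε * n.factorial) :
    ((Finset.univ.filter fun r : Fin n → Fin n → Prop => G r ∧ Bad r).card : ℝ) ≤
      ε * (Finset.univ.filter fun r : Fin n → Fin n → Prop => G r).card := by
  set S := Finset.univ.filter fun r : Fin n → Fin n → Prop => G r with hS
  have h1 : ∀ σ : Equiv.Perm (Fin n), (S.filter fun r => Bad (rel σ r)).card =
      (Finset.univ.filter fun r : Fin n → Fin n → Prop => G r ∧ Bad r).card := by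
    intro σ
    refine Finset.card_bij' (fun r _ => rel σ r) (fun r _ => rel σ.symm r) ?_ ?_ ?_ ?_
    · intro r hr
      rw [Finset.mem_filter, hS, Finset.mem_filter] at hr
      rw [Finset.mem_filter]
      exact ⟨Finset.mem_univ _, hG r hr.1.2 σ, hr.2⟩
    · intro r hr
      rw [Finset.mem_filter] at hr
      rw [Finset.mem_filter, hS, Finset.mem_filter, rel_rel_symm]
      exact ⟨⟨Finset.mem_univ _, hG r hr.2.1 σ.symm⟩, hr.2.2⟩
    · intro r _
      exact rel_symm_rel σ r
    · intro r _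
      exact rel_rel_symm σ r
  have h2 : (∑ σ : Equiv.Perm (Fin n), (S.filter fun r => Bad (rel σ r)).card) =
      ∑ r ∈ S, ((Finset.univ : Finset (Equiv.Perm (Fin n))).filter
        fun σ => Bad (rel σ r)).card := by
    simp only [Finset.card_filter]
    exact Finset.sum_comm
  rw [Finset.sum_congr rfl (fun σ _ => h1 σ), Finset.sum_const, Finset.card_univ,
    Fintype.card_perm, Fintype.card_fin, smul_eq_mul] at h2
  have h3 : ((n.factorial * (Finset.univ.filter fun r : Fin n → Fin n → Prop =>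
      G r ∧ Bad r).card : ℕ) : ℝ) ≤ S.card * (ε * n.factorial) := by
    rw [h2, Nat.cast_sum]
    calc _ ≤ ∑ r ∈ S, ε * (n.factorial : ℝ) := by
          apply Finset.sum_le_sum
          intro r hr
          rw [hS, Finset.mem_filter] at hr
          exact hB r hr.2
      _ = _ := by rw [Finset.sum_const, nsmul_eq_mul]
  have h4 : (0 : ℝ) < n.factorial := by exact_mod_cast Nat.factorial_pos n
  push_cast at h3
  have h5 : (n.factorial : ℝ) * ((Finset.univ.filter fun r : Fin n → Fin n → Prop =>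
      G r ∧ Bad r).card : ℝ) ≤ (n.factorial : ℝ) * (ε * S.card) := by
    calc _ ≤ (S.card : ℝ) * (ε * n.factorial) := h3
      _ = _ := by ring
  exact le_of_mul_le_mul_left h5 h4

end Pool.Agent.Lib.MP_5bc52d_co.AA
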