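import Mathlib
import Pool.Agent.Lib.MP_5bc52d_co.AA.Count

/-!
# Almost all layered orders are good

All layered orders come from a triple of layers and a pair of bipartite graphs, in a unique way
if the degrees are positive.
-/

namespace Pool.Agent.Lib.MP_5bc52d_co.AA

/-- `Lay` for a relation. -/
structure LayR {V : Type*} (lt : V → V → Prop) (A B C : Finset V) : Prop where
  cover : ∀ x, x ∈ A ∨ x ∈ B ∨ x ∈ C
  dAB : Disjoint A B
  dBC : Disjoint B C
  dAC : Disjoint A C
  rel : ∀ x y, lt x y → (x ∈ A ∧ y ∈ B) ∨ (x ∈ B ∧ y ∈ C) ∨ (x ∈ A ∧ y ∈ C)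
  full : ∀ a ∈ A, ∀ c ∈ C, lt a c

section Tri

variable {n : ℕ}

theorem layR_ltE {δ : ℝ} {t : Finset (Fin n) × Finset (Fin n) × Finset (Fin n)}
    (ht : Trip δ n t) (E : Finset (Fin n × Fin n) × Finset (Fin n × Fin n)) :
    LayR (ltE t.1 t.2.1 t.2.2 E) t.1 t.2.1 t.2.2 := by
  obtain ⟨h1, h2, h3, h4, -⟩ := ht
  refine ⟨h1, h2, h3, h4, fun x y hxy => ?_, fun a ha c hc => Or.inr (Or.inr ⟨ha, hc⟩)⟩
  rcases hxy with h | h | h
  · exact Or.inl ⟨h.1, h.2.1⟩
  · exact Or.inr (Or.inl ⟨h.1, h.2.1⟩)
  · exact Or.inr (Or.inr h)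

open Classical in
/-- the pairs of graphs -/
noncomputable def gr (t : Finset (Fin n) × Finset (Fin n) × Finset (Fin n)) :
    Finset (Finset (Fin n × Fin n) × Finset (Fin n × Fin n)) :=
  (t.1 ×ˢ t.2.1).powerset ×ˢ (t.2.1 ×ˢ t.2.2).powerset

theorem card_gr (t : Finset (Fin n) × Finset (Fin n) × Finset (Fin n)) :
    (gr t).card = 2 ^ (t.1.card * t.2.1.card) * 2 ^ (t.2.1.card * t.2.2.card) := by
  rw [gr, Finset.card_product, Finset.card_powerset, Finset.card_powerset, Finset.card_product,
    Finset.card_product]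

/-- a relation with three layers comes from two graphs -/
theorem exists_graph {δ : ℝ} {r : Fin n → Fin n → Prop} (h : Layered δ n r) :
    ∃ t : Finset (Fin n) × Finset (Fin n) × Finset (Fin n), Trip δ n t ∧
      ∃ E ∈ gr t, ltE t.1 t.2.1 t.2.2 E = r := by
  classical
  obtain ⟨A, B, C, hT, hr, hf⟩ := h
  have hl : LayR r A B C := ⟨hT.1, hT.2.1, hT.2.2.1, hT.2.2.2.1, hr, hf⟩
  refine ⟨(A, B, C), hT,
    ((A ×ˢ B).filter fun p => r p.1 p.2, (B ×ˢ C).filter fun p => r p.1 p.2), ?_, ?_⟩
  · rw [gr, Finset.mem_product, Finset.mem_powerset, Finset.mem_powerset]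
    exact ⟨Finset.filter_subset _ _, Finset.filter_subset _ _⟩
  · funext x y
    apply propext
    constructor
    · rintro (h | h | h)
      · exact (Finset.mem_filter.mp h.2.2).2
      · exact (Finset.mem_filter.mp h.2.2).2
      · exact hl.full x h.1 y h.2
    · intro hxy
      rcases hl.rel x y hxy with h | h | h
      · exact Or.inl ⟨h.1, h.2, Finset.mem_filter.mpr ⟨Finset.mem_product.mpr h, hxy⟩⟩
      · exact Or.inr (Or.inl ⟨h.1, h.2, Finset.mem_filter.mpr ⟨Finset.mem_product.mpr h, hxy⟩⟩)
      · exact Or.inr (Or.inr h)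

/-- For positive degrees the layers are determined. -/
theorem layers_eq {lt : Fin n → Fin n → Prop} {A B C A' B' C' : Finset (Fin n)}
    (h : LayR lt A B C) (h' : LayR lt A' B' C') {d d' : ℝ} (hd : 0 < d) (hd' : 0 < d')
    (hD : Deg lt A B C d) (hD' : Deg lt A' B' C' d') (hne : A.Nonempty) (hne' : A'.Nonempty) :
    A = A' ∧ B = B' ∧ C = C' := by
  classical
  have key : ∀ {A B C : Finset (Fin n)}, LayR lt A B C → ∀ {d : ℝ}, 0 < d →
      Deg lt A B C d → A.Nonempty → (∀ x, x ∈ A ↔ ∀ y, ¬ lt y x) ∧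
        (∀ x, x ∈ C ↔ ∀ y, ¬ lt x y) := by
    intro A B C h d hd hD hne
    constructor
    · intro x
      constructor
      · intro hx y hyx
        rcases h.rel y x hyx with h1 | h1 | h1
        · exact Finset.disjoint_left.mp h.dAB hx h1.2
        · exact Finset.disjoint_left.mp h.dAC hx h1.2
        · exact Finset.disjoint_left.mp h.dAC hx h1.2
      · intro hx
        rcases h.cover x with h1 | h1 | h1
        · exact h1
        · exfalso
          have h2 := hD.ba x h1
          have h3 : (A.filter fun a => lt a x) = ∅ := by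
            rw [Finset.filter_eq_empty_iff]
            intro a _
            exact hx a
          rw [h3, Finset.card_empty] at h2
          norm_num at h2
          linarith
        · exfalso
          obtain ⟨a, ha⟩ := hne
          exact hx a (h.full a ha x h1)
    · intro x
      constructor
      · intro hx y hxy
        rcases h.rel x y hxy with h1 | h1 | h1
        · exact Finset.disjoint_left.mp h.dAC h1.1 hx
        · exact Finset.disjoint_left.mp h.dBC h1.1 hx
        · exact Finset.disjoint_left.mp h.dAC h1.1 hx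
      · intro hx
        rcases h.cover x with h1 | h1 | h1
        · exfalso
          have h2 := hD.ab x h1
          have h3 : (B.filter fun b => lt x b) = ∅ := by
            rw [Finset.filter_eq_empty_iff]
            intro a _
            exact hx a
          rw [h3, Finset.card_empty] at h2
          norm_num at h2
          linarith
        · exfalso
          have h2 := hD.bc x h1
          have h3 : (C.filter fun c => lt x c) = ∅ := by
            rw [Finset.filter_eq_empty_iff]
            intro a _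
            exact hx a
          rw [h3, Finset.card_empty] at h2
          norm_num at h2
          linarith
        · exact h1
  obtain ⟨k1, k2⟩ := key h hd hD hne
  obtain ⟨k1', k2'⟩ := key h' hd' hD' hne'
  have hA : A = A' := by
    ext x
    rw [k1, k1']
  have hC : C = C' := by
    ext x
    rw [k2, k2']
  refine ⟨hA, ?_, hC⟩
  have hB : ∀ {A B C : Finset (Fin n)}, LayR lt A B C → ∀ x, x ∈ B ↔ x ∉ A ∧ x ∉ C := by
    intro A B C h x
    constructor
    · intro hx
      exact ⟨fun h1 => Finset.disjoint_left.mp h.dAB h1 hx,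
        fun h1 => Finset.disjoint_left.mp h.dBC hx h1⟩
    · rintro ⟨h1, h2⟩
      rcases h.cover x with h3 | h3 | h3
      · exact absurd h3 h1
      · exact h3
      · exact absurd h3 h2
  ext x
  rw [hB h, hB h', hA, hC]

/-- The graphs are determined by the relation. -/
theorem graph_eq {A B C : Finset (Fin n)} (hAB : Disjoint A B) (hBC : Disjoint B C)
    {E E' : Finset (Fin n × Fin n) × Finset (Fin n × Fin n)}
    (hE : E ∈ gr (A, B, C)) (hE' : E' ∈ gr (A, B, C)) (h : ltE A B C E = ltE A B C E') :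
    E = E' := by
  classical
  rw [gr, Finset.mem_product, Finset.mem_powerset, Finset.mem_powerset] at hE hE'
  have key1 : ∀ {E : Finset (Fin n × Fin n) × Finset (Fin n × Fin n)} (x y : Fin n),
      x ∈ A → y ∈ B → (ltE A B C E x y ↔ (x, y) ∈ E.1) := by
    intro E x y hx hy
    constructor
    · rintro (h | h | h)
      · exact h.2.2
      · exact absurd h.1 (Finset.disjoint_left.mp hAB hx)
      · exact absurd h.2 (Finset.disjoint_left.mp hBC hy)
    · intro h
      exact Or.inl ⟨hx, hy, h⟩
  have key2 : ∀ {E : Finset (Fin n × Fin n) × Finset (Fin n × Fin n)} (x y : Fin n),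
      x ∈ B → y ∈ C → (ltE A B C E x y ↔ (x, y) ∈ E.2) := by
    intro E x y hx hy
    constructor
    · rintro (h | h | h)
      · exact absurd hx (Finset.disjoint_left.mp hAB h.1)
      · exact h.2.2
      · exact absurd hx (Finset.disjoint_left.mp hAB h.1)
    · intro h
      exact Or.inr (Or.inl ⟨hx, hy, h⟩)
  apply Prod.ext
  · ext ⟨x, y⟩
    constructor
    · intro hp
      have hxy := Finset.mem_product.mp (hE.1 hp)
      rw [← key1 x y hxy.1 hxy.2] at hp ⊢
      rwa [← h]
    · intro hp
      have hxy := Finset.mem_product.mp (hE'.1 hp)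
      rw [← key1 x y hxy.1 hxy.2] at hp ⊢
      rwa [h]
  · ext ⟨x, y⟩
    constructor
    · intro hp
      have hxy := Finset.mem_product.mp (hE.2 hp)
      rw [← key2 x y hxy.1 hxy.2] at hp ⊢
      rwa [← h]
    · intro hp
      have hxy := Finset.mem_product.mp (hE'.2 hp)
      rw [← key2 x y hxy.1 hxy.2] at hp ⊢
      rwa [h]

end Tri

open Classical in
/-- Almost all layered orders have layers with large degrees and common neighbourhoods. -/
theorem bad_count (hg : GraphBound) (δ ε : ℝ) (hδ : 0 < δ) (hε : 0 < ε) (K L : ℕ) :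
    ∃ N : ℕ, ∀ n ≥ N,
      ((Finset.univ.filter fun r : Fin n → Fin n → Prop =>
        Layered δ n r ∧ ¬ GoodRel δ (δ / 4) K L n r).card : ℝ) ≤
        ε * (Finset.univ.filter fun r : Fin n → Fin n → Prop => Layered δ n r).card := by
  set η : ℝ := min (1 / 2) (ε / 2) with hη
  have hη0 : 0 < η := lt_min (by norm_num) (by positivity)
  have hη1 : η ≤ 1 / 2 := min_le_left _ _
  have hη2 : η ≤ ε / 2 := min_le_right _ _
  obtain ⟨N2, h2⟩ := hg δ η K L hδ hη0
  refine ⟨max N2 1, fun n hn => ?_⟩
  have hn2 : N2 ≤ n := le_trans (le_max_left _ _) hn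
  have hn3 : 1 ≤ n := le_trans (le_max_right _ _) hn
  have hnpos : (0 : ℝ) < n := by exact_mod_cast hn3
  -- the sets
  set I : Finset (Finset (Fin n) × Finset (Fin n) × Finset (Fin n)) :=
    Finset.univ.filter fun t => Trip δ n t with hI
  set isG : (Finset (Fin n) × Finset (Fin n) × Finset (Fin n)) →
      (Finset (Fin n × Fin n) × Finset (Fin n × Fin n)) → Prop := fun t E =>
    Deg (ltE t.1 t.2.1 t.2.2 E) t.1 t.2.1 t.2.2 (δ / 4 * n) ∧
      Com (ltE t.1 t.2.1 t.2.2 E) t.2.1 t.2.2 K L with hisG
  set G := I.sigma fun t => (gr t).filter fun E => isG t E with hG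
  set H := I.sigma fun t => (gr t).filter fun E => ¬ isG t E with hH
  set Φ : (Σ _ : Finset (Fin n) × Finset (Fin n) × Finset (Fin n),
      (Finset (Fin n × Fin n) × Finset (Fin n × Fin n))) → (Fin n → Fin n → Prop) :=
    fun p => ltE p.1.1 p.1.2.1 p.1.2.2 p.2 with hΦ
  set R : Finset (Fin n → Fin n → Prop) := Finset.univ.filter fun r => Layered δ n r with hR
  -- bad triples are rare
  have hbad : (H.card : ℝ) ≤ η * ((G.card : ℝ) + H.card) := by
    have e1 : (G.card : ℝ) + H.card = ∑ t ∈ I, ((gr t).card : ℝ) := by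
      rw [hG, hH, Finset.card_sigma, Finset.card_sigma]
      push_cast
      rw [← Finset.sum_add_distrib]
      apply Finset.sum_congr rfl
      intro t _
      rw [← Finset.card_filter_add_card_filter_not (s := gr t) (fun E => isG t E)]
      push_cast
      rfl
    rw [e1, Finset.mul_sum, hH, Finset.card_sigma]
    push_cast
    apply Finset.sum_le_sum
    intro t ht
    rw [hI, Finset.mem_filter] at ht
    obtain ⟨-, -, q1, q2, q3, q4, q5, q6⟩ := ht
    have := h2 n hn2 t.1 t.2.1 t.2.2 q1 q2 q3 q4 q5 q6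
    rw [card_gr]
    push_cast
    refine le_trans (le_of_eq ?_) this
    rfl
  have hinj : Set.InjOn Φ (G : Set _) := by
    rintro ⟨t, E⟩ hp ⟨t', E'⟩ hp' heq
    rw [Finset.mem_coe, hG, Finset.mem_sigma] at hp hp'
    obtain ⟨ht, hE⟩ := hp
    obtain ⟨ht', hE'⟩ := hp'
    simp only at ht hE ht' hE'
    rw [Finset.mem_filter] at hE hE' ht ht'
    have ht := ht.2
    have ht' := ht'.2
    obtain ⟨hEg, hED, -⟩ := hE
    obtain ⟨hEg', hED', -⟩ := hE'
    have heq' : ltE t.1 t.2.1 t.2.2 E = ltE t'.1 t'.2.1 t'.2.2 E' := heq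
    have hd : 0 < δ / 4 * n := by positivity
    have hne : t.1.Nonempty := by
      rw [← Finset.card_pos]
      have : (0 : ℝ) < t.1.card := lt_of_lt_of_le (by positivity) ht.2.2.2.2.1
      exact_mod_cast this
    have hne' : t'.1.Nonempty := by
      rw [← Finset.card_pos]
      have : (0 : ℝ) < t'.1.card := lt_of_lt_of_le (by positivity) ht'.2.2.2.2.1
      exact_mod_cast this
    have hl' := layR_ltE ht' E'
    rw [← heq'] at hl' hED'
    obtain ⟨a1, a2, a3⟩ := layers_eq (layR_ltE ht E) hl' hd hd hED hED' hne hne'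
    have htt : t = t' := Prod.ext a1 (Prod.ext a2 a3)
    subst htt
    have hEE : E = E' := graph_eq ht.2.1 ht.2.2.1 hEg hEg' heq'
    rw [hEE]
  have himR : ∀ p, p ∈ G → Φ p ∈ R := by
    intro p hp
    rw [hG, Finset.mem_sigma, hI, Finset.mem_filter] at hp
    rw [hR, Finset.mem_filter]
    have hl := layR_ltE hp.1.2 p.2
    exact ⟨Finset.mem_univ _, p.1.1, p.1.2.1, p.1.2.2, hp.1.2, hl.rel, hl.full⟩
  have hGR : (G.card : ℝ) ≤ R.card := by
    have := Finset.card_le_card_of_injOn Φ (fun p hp => himR p hp) hinj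
    exact_mod_cast this
  have hHR : (H.card : ℝ) ≤ 2 * η * R.card := by
    have h3 : (H.card : ℝ) ≤ 2 * η * G.card := by
      have h4 : η * (H.card : ℝ) ≤ 1 / 2 * H.card :=
        mul_le_mul_of_nonneg_right hη1 (Nat.cast_nonneg _)
      nlinarith
    refine h3.trans (mul_le_mul_of_nonneg_left hGR (by positivity))
  have hle : (Finset.univ.filter fun r : Fin n → Fin n → Prop =>
        Layered δ n r ∧ ¬ GoodRel δ (δ / 4) K L n r).card ≤ H.card := by
    refine le_trans (Finset.card_le_card ?_) (Finset.card_image_le (f := Φ))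
    intro r hr
    rw [Finset.mem_filter] at hr
    obtain ⟨t, ht, E, hE, hEr⟩ := exists_graph hr.2.1
    rw [Finset.mem_image]
    refine ⟨⟨t, E⟩, ?_, hEr⟩
    rw [hH, Finset.mem_sigma, hI, Finset.mem_filter, Finset.mem_filter]
    refine ⟨⟨Finset.mem_univ _, ht⟩, hE, fun hg => hr.2.2 ?_⟩
    have hl := layR_ltE ht E
    rw [← hEr]
    exact ⟨t.1, t.2.1, t.2.2, ht, hl.rel, hl.full, hg.1, hg.2⟩
  calc _ ≤ (H.card : ℝ) := by exact_mod_cast hle
    _ ≤ 2 * η * R.card := hHR
    _ ≤ ε * R.card := mul_le_mul_of_nonneg_right (by linarith) (Nat.cast_nonneg _)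

end Pool.Agent.Lib.MP_5bc52d_co.AA
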