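import Mathlib

/-!
Random bipartite graphs: almost every set of edges between two vertex sets gives every
small set of vertices of the first side many common neighbours on the second side.

A graph is a finset E of pairs, a subset of A x B.
-/

namespace Pool.MP5bc52d.AA

open Finset

variable {V : Type*} [DecidableEq V]

/-- The number of subsets of size at most K is at most (n+1)^K. -/
theorem card_small_subsets (A : Finset V) (K : ℕ) :
    (A.powerset.filter (fun S => S.card ≤ K)).card ≤ (A.card + 1) ^ K := by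
  have h1 : A.powerset.filter (fun S => S.card ≤ K)
      = (range (K + 1)).biUnion (fun k => A.powersetCard k) := by
    ext S
    simp only [mem_filter, mem_powerset, mem_biUnion, mem_range, mem_powersetCard]
    constructor
    · rintro ⟨h, h'⟩
      exact ⟨S.card, by omega, h, rfl⟩
    · rintro ⟨k, hk, h, rfl⟩
      exact ⟨h, by omega⟩
  rw [h1]
  refine card_biUnion_le.trans ?_
  have h2 : ∀ k ∈ range (K + 1), (A.powersetCard k).card ≤ A.card ^ k * 1 ^ (K - k) * K.choose k := by
    intro k hk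
    rw [card_powersetCard, one_pow, mul_one]
    have hk' : k ≤ K := by
      have := mem_range.1 hk
      omega
    have : 1 ≤ K.choose k := Nat.choose_pos hk'
    calc A.card.choose k ≤ A.card ^ k := Nat.choose_le_pow _ _
      _ = A.card ^ k * 1 := (mul_one _).symm
      _ ≤ A.card ^ k * K.choose k := Nat.mul_le_mul_left _ this
  refine (sum_le_sum h2).trans (le_of_eq ?_)
  rw [add_pow]
  simp

/-- Subsets of A that do not contain S. -/
theorem card_not_superset (A S : Finset V) (hS : S ⊆ A) :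
    (A.powerset.filter (fun T => ¬ S ⊆ T)).card = 2 ^ A.card - 2 ^ (A.card - S.card) := by
  have h1 : (A.powerset.filter (fun T => S ⊆ T)) = Icc S A := by
    ext T
    simp only [mem_filter, mem_powerset, mem_Icc]
    tauto
  have h2 := Finset.card_filter_add_card_filter_not (s := A.powerset) (fun T => S ⊆ T)
  rw [h1, card_Icc_finset hS, card_powerset] at h2
  omega

/-- The edge sets for which no vertex of D is joined to all of S. -/
theorem card_no_common (A B S D : Finset V) (hS : S ⊆ A) (hD : D ⊆ B) :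
    ((A ×ˢ B).powerset.filter (fun E => ∀ y ∈ D, ¬ ∀ x ∈ S, (x, y) ∈ E)).card
      ≤ (2 ^ A.card - 2 ^ (A.card - S.card)) ^ D.card * (2 ^ A.card) ^ (B.card - D.card) := by
  classical
  let t : B → Finset (Finset V) := fun y =>
    if (y : V) ∈ D then A.powerset.filter (fun T => ¬ S ⊆ T) else A.powerset
  have hcard : (Fintype.piFinset t).card
      = (2 ^ A.card - 2 ^ (A.card - S.card)) ^ D.card * (2 ^ A.card) ^ (B.card - D.card) := by
    rw [Fintype.card_piFinset]
    have h1 : ∀ y : B, (t y).card = (fun z : V => if z ∈ D then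
        (2 ^ A.card - 2 ^ (A.card - S.card)) else 2 ^ A.card) y := by
      intro y
      by_cases hy : (y : V) ∈ D
      · simp only [t, hy, if_true]
        exact card_not_superset A S hS
      · simp only [t, hy, if_false]
        exact card_powerset A
    rw [prod_congr rfl (fun y _ => h1 y)]
    rw [prod_coe_sort B (fun z : V => if z ∈ D then
        (2 ^ A.card - 2 ^ (A.card - S.card)) else 2 ^ A.card)]
    rw [prod_ite, prod_const, prod_const]
    have h2 : B.filter (fun z => z ∈ D) = D := by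
      ext z
      simp only [mem_filter]
      exact ⟨fun h => h.2, fun h => ⟨hD h, h⟩⟩
    have h3 : (B.filter (fun z => z ∉ D)).card = B.card - D.card := by
      have := Finset.card_filter_add_card_filter_not (s := B) (fun z => z ∈ D)
      rw [h2] at this
      omega
    rw [h2, h3]
  rw [← hcard]
  refine card_le_card_of_injOn (fun E => fun y : B => A.filter (fun x => (x, (y : V)) ∈ E)) ?_ ?_
  · intro E hE
    rw [mem_coe, mem_filter, mem_powerset] at hE
    rw [mem_coe, Fintype.mem_piFinset]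
    intro y
    by_cases hy : (y : V) ∈ D
    · simp only [t, hy, if_true, mem_filter, mem_powerset]
      refine ⟨filter_subset _ _, fun h => hE.2 y hy ?_⟩
      intro x hx
      exact (mem_filter.1 (h hx)).2
    · simp only [t, hy, if_false, mem_powerset]
      exact filter_subset _ _
  · intro E hE E' hE' h
    rw [mem_coe, mem_filter, mem_powerset] at hE hE'
    ext ⟨x, y⟩
    constructor
    · intro hxy
      have hm := mem_product.1 (hE.1 hxy)
      have h' := congrFun h ⟨y, hm.2⟩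
      have : x ∈ A.filter (fun x => (x, y) ∈ E) := mem_filter.2 ⟨hm.1, hxy⟩
      have h'' : A.filter (fun x => (x, y) ∈ E) = A.filter (fun x => (x, y) ∈ E') := h'
      rw [h''] at this
      exact (mem_filter.1 this).2
    · intro hxy
      have hm := mem_product.1 (hE'.1 hxy)
      have h' := congrFun h ⟨y, hm.2⟩
      have : x ∈ A.filter (fun x => (x, y) ∈ E') := mem_filter.2 ⟨hm.1, hxy⟩
      have h'' : A.filter (fun x => (x, y) ∈ E) = A.filter (fun x => (x, y) ∈ E') := h'
      rw [← h''] at this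
      exact (mem_filter.1 this).2

/-- The same bound in real form. -/
theorem card_no_common_real (A B S D : Finset V) (hS : S ⊆ A) (hD : D ⊆ B) :
    (((A ×ˢ B).powerset.filter (fun E => ∀ y ∈ D, ¬ ∀ x ∈ S, (x, y) ∈ E)).card : ℝ)
      ≤ (1 - (1 / 2 : ℝ) ^ S.card) ^ D.card * 2 ^ (A.card * B.card) := by
  have h := card_no_common A B S D hS hD
  have h' : (((A ×ˢ B).powerset.filter (fun E => ∀ y ∈ D, ¬ ∀ x ∈ S, (x, y) ∈ E)).card : ℝ)
      ≤ (((2 ^ A.card - 2 ^ (A.card - S.card)) ^ D.card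
        * (2 ^ A.card) ^ (B.card - D.card) : ℕ) : ℝ) := by
    exact_mod_cast h
  refine h'.trans (le_of_eq ?_)
  have hle : 2 ^ (A.card - S.card) ≤ 2 ^ A.card := Nat.pow_le_pow_right (by norm_num) (by omega)
  have hSA : S.card ≤ A.card := card_le_card hS
  have hDB : D.card ≤ B.card := card_le_card hD
  push_cast [Nat.cast_sub hle]
  have h2 : ((2 : ℝ) ^ A.card - 2 ^ (A.card - S.card)) = (1 - (1 / 2 : ℝ) ^ S.card) * 2 ^ A.card := by
    have : (2 : ℝ) ^ A.card = 2 ^ (A.card - S.card) * 2 ^ S.card := by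
      rw [← pow_add]
      congr 1
      omega
    have h3 : (1 / 2 : ℝ) ^ S.card * 2 ^ S.card = 1 := by
      rw [← mul_pow]
      norm_num
    rw [sub_mul, one_mul]
    congr 1
    rw [this]
    calc (2 : ℝ) ^ (A.card - S.card) = ((1 / 2 : ℝ) ^ S.card * 2 ^ S.card) * 2 ^ (A.card - S.card) := by
          rw [h3, one_mul]
      _ = _ := by ring
  rw [h2, mul_pow]
  have h4 : ((2 : ℝ) ^ A.card) ^ D.card * (2 ^ A.card) ^ (B.card - D.card) = 2 ^ (A.card * B.card) := by
    rw [← pow_add, ← pow_mul]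
    congr 2
    omega
  rw [mul_assoc, h4]

/-- The number of edge sets for which some set of at most K vertices of A has fewer than L
common neighbours in B. -/
theorem card_few_common (A B : Finset V) (K L : ℕ) :
    (((A ×ˢ B).powerset.filter (fun E => ∃ S ⊆ A, S.card ≤ K ∧
        (B.filter (fun y => ∀ x ∈ S, (x, y) ∈ E)).card < L)).card : ℝ)
      ≤ (A.card + 1 : ℝ) ^ K * (B.card + 1 : ℝ) ^ L
        * (1 - (1 / 2 : ℝ) ^ (K + 1)) ^ (B.card - L) * 2 ^ (A.card * B.card) := by
  classical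
  set q : ℝ := 1 - (1 / 2 : ℝ) ^ (K + 1) with hq
  have hq0 : 0 ≤ q := by
    rw [hq]
    have : (1 / 2 : ℝ) ^ (K + 1) ≤ 1 := pow_le_one₀ (by norm_num) (by norm_num)
    linarith
  have hq1 : q ≤ 1 := by
    rw [hq]
    have : (0 : ℝ) ≤ (1 / 2 : ℝ) ^ (K + 1) := by positivity
    linarith
  let SS := A.powerset.filter (fun S => S.card ≤ K)
  let ZZ := B.powerset.filter (fun S => S.card ≤ L)
  have hsub : (A ×ˢ B).powerset.filter (fun E => ∃ S ⊆ A, S.card ≤ K ∧
        (B.filter (fun y => ∀ x ∈ S, (x, y) ∈ E)).card < L)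
      ⊆ (SS ×ˢ ZZ).biUnion (fun p => (A ×ˢ B).powerset.filter
        (fun E => ∀ y ∈ B \ p.2, ¬ ∀ x ∈ p.1, (x, y) ∈ E)) := by
    intro E hE
    rw [mem_filter] at hE
    obtain ⟨hE, S, hSA, hSK, hL⟩ := hE
    rw [mem_biUnion]
    refine ⟨(S, B.filter (fun y => ∀ x ∈ S, (x, y) ∈ E)), ?_, ?_⟩
    · rw [mem_product]
      exact ⟨mem_filter.2 ⟨mem_powerset.2 hSA, hSK⟩,
        mem_filter.2 ⟨mem_powerset.2 (filter_subset _ _), hL.le⟩⟩
    · rw [mem_filter]
      refine ⟨hE, ?_⟩
      intro y hy h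
      rw [mem_sdiff] at hy
      exact hy.2 (mem_filter.2 ⟨hy.1, h⟩)
  have h1 := (card_le_card hsub).trans card_biUnion_le
  have h2 : (((A ×ˢ B).powerset.filter (fun E => ∃ S ⊆ A, S.card ≤ K ∧
        (B.filter (fun y => ∀ x ∈ S, (x, y) ∈ E)).card < L)).card : ℝ)
      ≤ ∑ p ∈ SS ×ˢ ZZ, (((A ×ˢ B).powerset.filter
        (fun E => ∀ y ∈ B \ p.2, ¬ ∀ x ∈ p.1, (x, y) ∈ E)).card : ℝ) := by
    exact_mod_cast h1
  refine h2.trans ?_
  have h3 : ∀ p ∈ SS ×ˢ ZZ, (((A ×ˢ B).powerset.filter
        (fun E => ∀ y ∈ B \ p.2, ¬ ∀ x ∈ p.1, (x, y) ∈ E)).card : ℝ)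
      ≤ q ^ (B.card - L) * 2 ^ (A.card * B.card) := by
    rintro ⟨S, Z⟩ hp
    rw [mem_product] at hp
    obtain ⟨hS, hZ⟩ := hp
    rw [mem_filter, mem_powerset] at hS hZ
    refine (card_no_common_real A B S (B \ Z) hS.1 sdiff_subset).trans ?_
    refine mul_le_mul_of_nonneg_right ?_ (by positivity)
    have hD : B.card - L ≤ (B \ Z).card := by
      rw [card_sdiff_of_subset hZ.1]
      have := hZ.2
      simp only at this
      omega
    have hb : 1 - (1 / 2 : ℝ) ^ S.card ≤ q := by
      rw [hq]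
      have h5 : (1 / 2 : ℝ) ^ (K + 1) ≤ (1 / 2 : ℝ) ^ S.card := by
        refine pow_le_pow_of_le_one (by norm_num) (by norm_num) ?_
        have := hS.2
        simp only at this
        omega
      linarith
    have hb0 : 0 ≤ 1 - (1 / 2 : ℝ) ^ S.card := by
      have : (1 / 2 : ℝ) ^ S.card ≤ 1 := pow_le_one₀ (by norm_num) (by norm_num)
      linarith
    calc (1 - (1 / 2 : ℝ) ^ S.card) ^ (B \ Z).card ≤ q ^ (B \ Z).card :=
          pow_le_pow_left₀ hb0 hb _
      _ ≤ q ^ (B.card - L) := pow_le_pow_of_le_one hq0 hq1 hD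
  refine (sum_le_sum h3).trans ?_
  rw [sum_const, nsmul_eq_mul, card_product]
  have h4 : ((SS.card * ZZ.card : ℕ) : ℝ) ≤ (A.card + 1 : ℝ) ^ K * (B.card + 1 : ℝ) ^ L := by
    have := Nat.mul_le_mul (card_small_subsets A K) (card_small_subsets B L)
    exact_mod_cast this
  calc ((SS.card * ZZ.card : ℕ) : ℝ) * (q ^ (B.card - L) * 2 ^ (A.card * B.card))
      ≤ ((A.card + 1 : ℝ) ^ K * (B.card + 1 : ℝ) ^ L) * (q ^ (B.card - L) * 2 ^ (A.card * B.card)) :=
        mul_le_mul_of_nonneg_right h4 (by positivity)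
    _ = _ := by ring

/-- Exponential decay beats a power. -/
theorem eventually_small (C ε q : ℝ) (hε : 0 < ε) (hq0 : 0 ≤ q) (hq1 : q < 1) (k : ℕ) :
    ∃ N : ℕ, ∀ m : ℕ, N ≤ m → C * ((m + 1 : ℝ) ^ k * q ^ (m + 1)) ≤ ε := by
  have h1 : Filter.Tendsto (fun n : ℕ => (n : ℝ) ^ k * q ^ n) Filter.atTop (nhds 0) :=
    tendsto_pow_const_mul_const_pow_of_abs_lt_one k (by rw [abs_of_nonneg hq0]; exact hq1)
  have h2 : Filter.Tendsto (fun n : ℕ => C * (((n + 1 : ℕ) : ℝ) ^ k * q ^ (n + 1)))
      Filter.atTop (nhds (C * 0)) :=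
    (h1.comp (Filter.tendsto_add_atTop_nat 1)).const_mul C
  rw [mul_zero] at h2
  have h3 := (h2.eventually (Iic_mem_nhds hε)).exists_forall_of_atTop
  obtain ⟨N, hN⟩ := h3
  refine ⟨N, fun m hm => ?_⟩
  have h4 := hN m hm
  push_cast at h4
  exact h4

/-- Almost every bipartite graph gives every small set of vertices of A many common neighbours
in B, uniformly in the two sides. -/
theorem few_common_rare (δ ε : ℝ) (hδ : 0 < δ) (hε : 0 < ε) (K L : ℕ) :
    ∃ N : ℕ, ∀ n : ℕ, N ≤ n → ∀ (V : Type) [DecidableEq V] (A B : Finset V),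
      A.card ≤ n → B.card ≤ n → δ * n ≤ B.card →
      (((A ×ˢ B).powerset.filter (fun E => ∃ S ⊆ A, S.card ≤ K ∧
        (B.filter (fun y => ∀ x ∈ S, (x, y) ∈ E)).card < L)).card : ℝ)
      ≤ ε * 2 ^ (A.card * B.card) := by
  set q : ℝ := 1 - (1 / 2 : ℝ) ^ (K + 1) with hq
  have hq0 : 0 < q := by
    rw [hq]
    have : (1 / 2 : ℝ) ^ (K + 1) < 1 := pow_lt_one₀ (by norm_num) (by norm_num) (by omega)
    linarith
  have hq1 : q < 1 := by
    rw [hq]
    have : (0 : ℝ) < (1 / 2 : ℝ) ^ (K + 1) := by positivity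
    linarith
  obtain ⟨M, hM⟩ := exists_nat_gt (1 / δ)
  have hM0 : (0 : ℝ) < M := lt_trans (by positivity) hM
  have hM0' : 0 < M := by exact_mod_cast hM0
  obtain ⟨N, hN⟩ := eventually_small ((M : ℝ) ^ (K + L) * (q ^ (L + 1))⁻¹) ε q hε hq0.le hq1 (K + L)
  refine ⟨M * N, ?_⟩
  intro n hn V _ A B hA hB hδB
  refine (card_few_common A B K L).trans ?_
  rw [← hq]
  refine mul_le_mul_of_nonneg_right ?_ (by positivity)
  set m := n / M with hm
  have hmN : N ≤ m := by
    rw [hm, Nat.le_div_iff_mul_le hM0', mul_comm]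
    exact hn
  have hmn : (n + 1 : ℝ) ≤ M * (m + 1) := by
    have : n + 1 ≤ M * (m + 1) := by
      have := Nat.lt_mul_div_succ n hM0'
      rw [← hm] at this
      exact this
    exact_mod_cast this
  have hmB : m ≤ B.card := by
    have h1 : (m : ℝ) ≤ B.card := by
      have h2 : (m : ℝ) ≤ (n : ℝ) / M := by
        rw [hm]
        exact Nat.cast_div_le
      have h3 : (n : ℝ) / M ≤ δ * n := by
        rw [div_le_iff₀ hM0]
        have h4 : 1 ≤ δ * M := by
          have := (div_lt_iff₀ hδ).1 hM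
          linarith
        have h5 : (0 : ℝ) ≤ n := Nat.cast_nonneg n
        nlinarith
      linarith
    exact_mod_cast h1
  have hA' : (A.card + 1 : ℝ) ≤ M * (m + 1) := by
    have : (A.card : ℝ) ≤ n := by exact_mod_cast hA
    linarith
  have hB' : (B.card + 1 : ℝ) ≤ M * (m + 1) := by
    have : (B.card : ℝ) ≤ n := by exact_mod_cast hB
    linarith
  have h1 : (A.card + 1 : ℝ) ^ K * (B.card + 1 : ℝ) ^ L ≤ (M * (m + 1 : ℝ)) ^ (K + L) := by
    rw [pow_add]
    exact mul_le_mul (pow_le_pow_left₀ (by positivity) hA' _)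
      (pow_le_pow_left₀ (by positivity) hB' _) (by positivity) (by positivity)
  have h2 : q ^ (B.card - L) ≤ q ^ (m + 1) * (q ^ (L + 1))⁻¹ := by
    rw [← div_eq_mul_inv, le_div_iff₀ (by positivity), ← pow_add]
    exact pow_le_pow_of_le_one hq0.le hq1.le (by omega)
  calc (A.card + 1 : ℝ) ^ K * (B.card + 1 : ℝ) ^ L * q ^ (B.card - L)
      ≤ (M * (m + 1 : ℝ)) ^ (K + L) * (q ^ (m + 1) * (q ^ (L + 1))⁻¹) :=
        mul_le_mul h1 h2 (by positivity) (by positivity)
    _ = ((M : ℝ) ^ (K + L) * (q ^ (L + 1))⁻¹) * ((m + 1 : ℝ) ^ (K + L) * q ^ (m + 1)) := by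
        rw [mul_pow]
        ring
    _ ≤ ε := hN m hmN

/-- Exchanging the two sides. -/
theorem card_few_common_swap (A B : Finset V) (K L : ℕ) :
    ((A ×ˢ B).powerset.filter (fun E => ∃ S ⊆ B, S.card ≤ K ∧
        (A.filter (fun x => ∀ y ∈ S, (x, y) ∈ E)).card < L)).card
      ≤ ((B ×ˢ A).powerset.filter (fun E => ∃ S ⊆ B, S.card ≤ K ∧
        (A.filter (fun x => ∀ y ∈ S, (y, x) ∈ E)).card < L)).card := by
  classical
  refine card_le_card_of_injOn (fun E => E.map (Equiv.prodComm V V).toEmbedding) ?_ ?_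
  · intro E hE
    rw [mem_coe, mem_filter, mem_powerset] at hE
    rw [mem_coe, mem_filter, mem_powerset]
    obtain ⟨hE, S, hSB, hSK, hL⟩ := hE
    refine ⟨?_, S, hSB, hSK, ?_⟩
    · intro p hp
      rw [mem_map] at hp
      obtain ⟨r, hr, rfl⟩ := hp
      have := mem_product.1 (hE hr)
      exact mem_product.2 ⟨this.2, this.1⟩
    · have : A.filter (fun x => ∀ y ∈ S, (y, x) ∈ E.map (Equiv.prodComm V V).toEmbedding)
          = A.filter (fun x => ∀ y ∈ S, (x, y) ∈ E) := by
        refine filter_congr ?_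
        intro x _
        have h1 : ∀ y, ((y, x) ∈ E.map (Equiv.prodComm V V).toEmbedding ↔ (x, y) ∈ E) := by
          intro y
          rw [mem_map_equiv]
          rfl
        constructor
        · intro h y hy
          exact (h1 y).1 (h y hy)
        · intro h y hy
          exact (h1 y).2 (h y hy)
      rw [this]
      exact hL
  · intro E _ E' _ h
    exact map_injective _ h

/-- Almost every bipartite graph gives every small set of vertices of B many common neighbours
in A, uniformly in the two sides. -/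
theorem few_common_rare_swap (δ ε : ℝ) (hδ : 0 < δ) (hε : 0 < ε) (K L : ℕ) :
    ∃ N : ℕ, ∀ n : ℕ, N ≤ n → ∀ (V : Type) [DecidableEq V] (A B : Finset V),
      A.card ≤ n → B.card ≤ n → δ * n ≤ A.card →
      (((A ×ˢ B).powerset.filter (fun E => ∃ S ⊆ B, S.card ≤ K ∧
        (A.filter (fun x => ∀ y ∈ S, (x, y) ∈ E)).card < L)).card : ℝ)
      ≤ ε * 2 ^ (A.card * B.card) := by
  obtain ⟨N, hN⟩ := few_common_rare δ ε hδ hε K L
  refine ⟨N, ?_⟩
  intro n hn V _ A B hA hB hδA
  have h1 := hN n hn V B A hB hA hδA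
  have h2 : (((A ×ˢ B).powerset.filter (fun E => ∃ S ⊆ B, S.card ≤ K ∧
        (A.filter (fun x => ∀ y ∈ S, (x, y) ∈ E)).card < L)).card : ℝ)
      ≤ (((B ×ˢ A).powerset.filter (fun E => ∃ S ⊆ B, S.card ≤ K ∧
        (A.filter (fun x => ∀ y ∈ S, (y, x) ∈ E)).card < L)).card : ℝ) := by
    exact_mod_cast card_few_common_swap A B K L
  rw [mul_comm A.card B.card]
  exact h2.trans h1

end Pool.MP5bc52d.AA
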