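import Pool.Agent.Lib.MP_5bc52d_co.AA.Mid
import Pool.Agent.Lib.MP_5bc52d_co.Cut.Base

/-!
# Random labellings: the corner is almost always empty

For a poset with three layers and large degrees, few labellings have an element `x` such that the
labels increase on everything below `x` and on everything above `x`.
-/

namespace Pool.Agent.Lib.MP_5bc52d_co.AA

open Cut

/-- the labels increase below `x` and above `x` -/
def CornerAt {V : Type*} [PartialOrder V] (ω : V → ℕ) (x : V) : Prop :=
  (∀ a b, a < b → b ≤ x → ω a < ω b) ∧ ∀ a b, x ≤ a → a < b → ω a < ω b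

theorem not_mem_map {n : ℕ} {V : Type*} (f : V ≃ Fin n) {S : Finset V} {x : V} (h : x ∉ S) :
    f x ∉ S.map f.toEmbedding := by
  intro h'
  obtain ⟨y, hy, hyx⟩ := Finset.mem_map.mp h'
  exact h (f.injective hyx ▸ hy)

open Classical in
theorem corner_at_bound {n : ℕ} {V : Type*} [Fintype V] [DecidableEq V] [PartialOrder V]
    (f : V ≃ Fin n) (A B C : Finset V) (hL : Lay A B C) (d : ℝ) (hd : 1 < d)
    (hD : Deg (fun x y : V => x < y) A B C d) (x : V) :
    (((Finset.univ : Finset (Equiv.Perm (Fin n))).filter
      fun s => CornerAt (fun v : V => ((s (f v) : Fin n) : ℕ)) x).card : ℝ) * ((d - 1) * d) ≤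
      (n.factorial : ℝ) := by
  set S := (Finset.univ : Finset (Equiv.Perm (Fin n))).filter
    fun s => CornerAt (fun v : V => ((s (f v) : Fin n) : ℕ)) x with hS
  have hcorner : ∀ s ∈ S, CornerAt (fun v : V => ((s (f v) : Fin n) : ℕ)) x := by
    intro s hs
    exact (Finset.mem_filter.mp hs).2
  rcases hL.cover x with hx | hx | hx
  · -- `x` in the bottom layer
    set Nb := B.filter fun b => x < b with hNb
    have h1 : d ≤ (Nb.card : ℝ) := by
      have h := hD.ab x hx
      convert h using 2
    have hne : Nb.Nonempty := by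
      rw [← Finset.card_pos]
      have h0 : (0 : ℝ) < Nb.card := by linarith
      exact_mod_cast h0
    obtain ⟨b0, hb0⟩ := hne
    obtain ⟨hb0B, hb0x⟩ := Finset.mem_filter.mp hb0
    set Nc := C.filter fun c => b0 < c with hNc
    have h2 : d ≤ (Nc.card : ℝ) := by
      have h := hD.bc b0 hb0B
      convert h using 2
    have hxB : x ∉ B := fun h => Finset.disjoint_left.mp hL.dAB hx h
    have hxC : x ∉ C := fun h => Finset.disjoint_left.mp hL.dAC hx h
    have hbC : b0 ∉ C := fun h => Finset.disjoint_left.mp hL.dBC hb0B h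
    have hl := low_bound n (f x) (f b0) (Nb.map f.toEmbedding) (Nc.map f.toEmbedding)
      (not_mem_map f fun h => hxB (Finset.filter_subset _ _ h))
      (Finset.mem_map_of_mem f.toEmbedding hb0)
      (not_mem_map f fun h => hxC (Finset.filter_subset _ _ h))
      (not_mem_map f fun h => hbC (Finset.filter_subset _ _ h))
      (by
        rw [Finset.disjoint_map]
        exact Finset.disjoint_left.mpr fun y hy hy' =>
          Finset.disjoint_left.mp hL.dBC (Finset.mem_filter.mp hy).1 (Finset.mem_filter.mp hy').1)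
    have hsub : S ⊆ (Finset.univ : Finset (Equiv.Perm (Fin n))).filter
        fun σ => (∀ z ∈ Nb.map f.toEmbedding, σ (f x) < σ z) ∧
          ∀ z ∈ Nc.map f.toEmbedding, σ (f b0) < σ z := by
      intro s hs
      have hc := hcorner s hs
      refine Finset.mem_filter.mpr ⟨Finset.mem_univ _, ?_, ?_⟩
      · intro z hz
        obtain ⟨y, hy, rfl⟩ := Finset.mem_map.mp hz
        exact hc.2 x y le_rfl (Finset.mem_filter.mp hy).2
      · intro z hz
        obtain ⟨y, hy, rfl⟩ := Finset.mem_map.mp hz
        exact hc.2 b0 y hb0x.le (Finset.mem_filter.mp hy).2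
    have h3 : S.card * ((Nb.card - 1) * Nc.card) ≤ n.factorial := by
      refine le_trans (Nat.mul_le_mul_right _ (Finset.card_le_card hsub)) ?_
      simpa only [Finset.card_map] using hl
    have h4 : (S.card : ℝ) * (((Nb.card - 1 : ℕ) : ℝ) * Nc.card) ≤ (n.factorial : ℝ) := by
      exact_mod_cast h3
    have h5 : d - 1 ≤ ((Nb.card - 1 : ℕ) : ℝ) := by
      rw [Nat.cast_sub (Finset.card_pos.mpr ⟨b0, hb0⟩)]
      push_cast
      linarith
    refine le_trans (mul_le_mul_of_nonneg_left ?_ (Nat.cast_nonneg _)) h4
    exact mul_le_mul h5 h2 (by linarith) (Nat.cast_nonneg _)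
  · -- `x` in the middle layer
    set Na := A.filter fun a => a < x with hNa
    set Nc := C.filter fun c => x < c with hNc
    have h1 : d ≤ (Na.card : ℝ) := by
      have h := hD.ba x hx
      convert h using 2
    have h2 : d ≤ (Nc.card : ℝ) := by
      have h := hD.bc x hx
      convert h using 2
    have hxA : x ∉ A := fun h => Finset.disjoint_left.mp hL.dAB h hx
    have hxC : x ∉ C := fun h => Finset.disjoint_left.mp hL.dBC hx h
    have hl := mid_bound n (f x) (Na.map f.toEmbedding) (Nc.map f.toEmbedding)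
      (not_mem_map f fun h => hxA (Finset.filter_subset _ _ h))
      (not_mem_map f fun h => hxC (Finset.filter_subset _ _ h))
      (by
        rw [Finset.disjoint_map]
        exact Finset.disjoint_left.mpr fun y hy hy' =>
          Finset.disjoint_left.mp hL.dAC (Finset.mem_filter.mp hy).1 (Finset.mem_filter.mp hy').1)
    have hsub : S ⊆ (Finset.univ : Finset (Equiv.Perm (Fin n))).filter
        fun σ => (∀ z ∈ Na.map f.toEmbedding, σ z < σ (f x)) ∧
          ∀ z ∈ Nc.map f.toEmbedding, σ (f x) < σ z := by
      intro s hs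
      have hc := hcorner s hs
      refine Finset.mem_filter.mpr ⟨Finset.mem_univ _, ?_, ?_⟩
      · intro z hz
        obtain ⟨y, hy, rfl⟩ := Finset.mem_map.mp hz
        exact hc.1 y x (Finset.mem_filter.mp hy).2 le_rfl
      · intro z hz
        obtain ⟨y, hy, rfl⟩ := Finset.mem_map.mp hz
        exact hc.2 x y le_rfl (Finset.mem_filter.mp hy).2
    have h3 : S.card * (Na.card * Nc.card) ≤ n.factorial := by
      refine le_trans (Nat.mul_le_mul_right _ (Finset.card_le_card hsub)) ?_
      simpa only [Finset.card_map] using hl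
    have h4 : (S.card : ℝ) * ((Na.card : ℝ) * Nc.card) ≤ (n.factorial : ℝ) := by
      exact_mod_cast h3
    refine le_trans (mul_le_mul_of_nonneg_left ?_ (Nat.cast_nonneg _)) h4
    exact mul_le_mul (by linarith) h2 (by linarith) (Nat.cast_nonneg _)
  · -- `x` in the top layer
    set Nb := B.filter fun b => b < x with hNb
    have h1 : d ≤ (Nb.card : ℝ) := by
      have h := hD.cb x hx
      convert h using 2
    have hne : Nb.Nonempty := by
      rw [← Finset.card_pos]
      have h0 : (0 : ℝ) < Nb.card := by linarith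
      exact_mod_cast h0
    obtain ⟨b0, hb0⟩ := hne
    obtain ⟨hb0B, hb0x⟩ := Finset.mem_filter.mp hb0
    set Na := A.filter fun a => a < b0 with hNa
    have h2 : d ≤ (Na.card : ℝ) := by
      have h := hD.ba b0 hb0B
      convert h using 2
    have hxB : x ∉ B := fun h => Finset.disjoint_left.mp hL.dBC h hx
    have hxA : x ∉ A := fun h => Finset.disjoint_left.mp hL.dAC h hx
    have hbA : b0 ∉ A := fun h => Finset.disjoint_left.mp hL.dAB h hb0B
    have hl := high_bound n (f x) (f b0) (Nb.map f.toEmbedding) (Na.map f.toEmbedding)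
      (not_mem_map f fun h => hxB (Finset.filter_subset _ _ h))
      (Finset.mem_map_of_mem f.toEmbedding hb0)
      (not_mem_map f fun h => hxA (Finset.filter_subset _ _ h))
      (not_mem_map f fun h => hbA (Finset.filter_subset _ _ h))
      (by
        rw [Finset.disjoint_map]
        exact Finset.disjoint_left.mpr fun y hy hy' =>
          Finset.disjoint_left.mp hL.dAB (Finset.mem_filter.mp hy').1 (Finset.mem_filter.mp hy).1)
    have hsub : S ⊆ (Finset.univ : Finset (Equiv.Perm (Fin n))).filter
        fun σ => (∀ z ∈ Nb.map f.toEmbedding, σ z < σ (f x)) ∧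
          ∀ z ∈ Na.map f.toEmbedding, σ z < σ (f b0) := by
      intro s hs
      have hc := hcorner s hs
      refine Finset.mem_filter.mpr ⟨Finset.mem_univ _, ?_, ?_⟩
      · intro z hz
        obtain ⟨y, hy, rfl⟩ := Finset.mem_map.mp hz
        exact hc.1 y x (Finset.mem_filter.mp hy).2 le_rfl
      · intro z hz
        obtain ⟨y, hy, rfl⟩ := Finset.mem_map.mp hz
        exact hc.1 y b0 (Finset.mem_filter.mp hy).2 hb0x.le
    have h3 : S.card * ((Nb.card - 1) * Na.card) ≤ n.factorial := by
      refine le_trans (Nat.mul_le_mul_right _ (Finset.card_le_card hsub)) ?_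
      simpa only [Finset.card_map] using hl
    have h4 : (S.card : ℝ) * (((Nb.card - 1 : ℕ) : ℝ) * Na.card) ≤ (n.factorial : ℝ) := by
      exact_mod_cast h3
    have h5 : d - 1 ≤ ((Nb.card - 1 : ℕ) : ℝ) := by
      rw [Nat.cast_sub (Finset.card_pos.mpr ⟨b0, hb0⟩)]
      push_cast
      linarith
    refine le_trans (mul_le_mul_of_nonneg_left ?_ (Nat.cast_nonneg _)) h4
    exact mul_le_mul h5 h2 (by linarith) (Nat.cast_nonneg _)

open Classical in
/-- Few labellings have a corner. -/
theorem corner_bound {n : ℕ} {V : Type*} [Fintype V] [DecidableEq V] [PartialOrder V]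
    (f : V ≃ Fin n) (A B C : Finset V) (hL : Lay A B C) (d : ℝ) (hd : 1 < d)
    (hD : Deg (fun x y : V => x < y) A B C d) :
    (((Finset.univ : Finset (Equiv.Perm (Fin n))).filter
      fun s => ∃ x, CornerAt (fun v : V => ((s (f v) : Fin n) : ℕ)) x).card : ℝ) *
        ((d - 1) * d) ≤ n * n.factorial := by
  have hdd : 0 ≤ (d - 1) * d := mul_nonneg (by linarith) (by linarith)
  have h1 : ((Finset.univ : Finset (Equiv.Perm (Fin n))).filter
      fun s => ∃ x, CornerAt (fun v : V => ((s (f v) : Fin n) : ℕ)) x).card ≤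
      ∑ x : V, ((Finset.univ : Finset (Equiv.Perm (Fin n))).filter
        fun s => CornerAt (fun v : V => ((s (f v) : Fin n) : ℕ)) x).card := by
    refine le_trans (Finset.card_le_card ?_) Finset.card_biUnion_le
    intro s hs
    obtain ⟨x, hx⟩ := (Finset.mem_filter.mp hs).2
    exact Finset.mem_biUnion.mpr ⟨x, Finset.mem_univ _,
      Finset.mem_filter.mpr ⟨Finset.mem_univ _, hx⟩⟩
  have h2 : (((Finset.univ : Finset (Equiv.Perm (Fin n))).filter
      fun s => ∃ x, CornerAt (fun v : V => ((s (f v) : Fin n) : ℕ)) x).card : ℝ) ≤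
      ∑ x : V, (((Finset.univ : Finset (Equiv.Perm (Fin n))).filter
        fun s => CornerAt (fun v : V => ((s (f v) : Fin n) : ℕ)) x).card : ℝ) := by
    exact_mod_cast h1
  refine le_trans (mul_le_mul_of_nonneg_right h2 hdd) ?_
  rw [Finset.sum_mul]
  refine le_trans (Finset.sum_le_sum fun x _ => corner_at_bound f A B C hL d hd hD x) ?_
  rw [Finset.sum_const, Finset.card_univ, Fintype.card_congr f, Fintype.card_fin, nsmul_eq_mul]

/-- Without a corner the two peels are disjoint. -/
theorem disjoint_of_not_corner {V : Type*} [Fintype V] [DecidableEq V] [PartialOrder V]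
    {ω : V → ℕ} (h : ¬ ∃ x, CornerAt ω x) :
    Disjoint (AL (fun a b : V => a < b) (wt ω true) Finset.univ)
      (AL (fun a b : V => b < a) (wt ω (!true)) Finset.univ) := by
  rw [Finset.disjoint_left]
  intro x hx hx'
  apply h
  refine ⟨x, ?_, ?_⟩
  · intro a b hab hbx
    have h1 := (mem_AL.mp hx).2 a (Finset.mem_univ _) b (Finset.mem_univ _) hab
      (hbx.eq_or_lt)
    simpa using (wt_lt ω true a b).mp h1
  · intro a b hxa hab
    have h1 := (mem_AL.mp hx').2 b (Finset.mem_univ _) a (Finset.mem_univ _) hab
      (hxa.eq_or_lt.imp Eq.symm id)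
    simpa using (wt_lt ω (!true) b a).mp h1

open Classical in
/-- Few labellings have peels that meet. -/
theorem corner_bound' {n : ℕ} {V : Type*} [Fintype V] [DecidableEq V] [PartialOrder V]
    (f : V ≃ Fin n) (A B C : Finset V) (hL : Lay A B C) (d : ℝ) (hd : 1 < d)
    (hD : Deg (fun x y : V => x < y) A B C d) :
    (((Finset.univ : Finset (Equiv.Perm (Fin n))).filter
      fun s => ¬ Disjoint
        (AL (fun a b : V => a < b) (wt (fun v : V => ((s (f v) : Fin n) : ℕ)) true) Finset.univ)
        (AL (fun a b : V => b < a) (wt (fun v : V => ((s (f v) : Fin n) : ℕ)) (!true))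
          Finset.univ)).card : ℝ) *
        ((d - 1) * d) ≤ n * n.factorial := by
  refine le_trans (mul_le_mul_of_nonneg_right ?_
    (mul_nonneg (by linarith) (by linarith))) (corner_bound f A B C hL d hd hD)
  have hsub : ((Finset.univ : Finset (Equiv.Perm (Fin n))).filter
      fun s => ¬ Disjoint
        (AL (fun a b : V => a < b) (wt (fun v : V => ((s (f v) : Fin n) : ℕ)) true) Finset.univ)
        (AL (fun a b : V => b < a) (wt (fun v : V => ((s (f v) : Fin n) : ℕ)) (!true))
          Finset.univ)) ⊆ (Finset.univ : Finset (Equiv.Perm (Fin n))).filter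
      fun s => ∃ x, CornerAt (fun v : V => ((s (f v) : Fin n) : ℕ)) x := by
    intro s hs
    refine Finset.mem_filter.mpr ⟨Finset.mem_univ _, ?_⟩
    by_contra hc
    exact (Finset.mem_filter.mp hs).2 (disjoint_of_not_corner hc)
  exact_mod_cast Finset.card_le_card hsub

end Pool.Agent.Lib.MP_5bc52d_co.AA
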