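import Pool.Agent.Lib.MP_5bc52d_co.AA.Graph

/-!
Random bipartite graphs: almost every set of edges between two vertex sets gives every vertex
a large degree.
-/

namespace Pool.Agent.Lib.MP_5bc52d_co.AA

open Finset

theorem card_powerset_low {W : Type*} [DecidableEq W] (S : Finset W) (m : ℕ) :
    ((S.powerset.filter (fun T => T.card ≤ m)).card : ℝ) ≤ (4 / 3) ^ S.card * 3 ^ m := by
  have h1 : ((S.powerset.filter (fun T => T.card ≤ m)).card : ℝ)
      ≤ ∑ T ∈ S.powerset.filter (fun T => T.card ≤ m), ((1 / 3 : ℝ) ^ T.card * 3 ^ m) := by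
    rw [card_eq_sum_ones]
    push_cast
    refine sum_le_sum ?_
    intro T hT
    have hm := (mem_filter.1 hT).2
    have : (3 : ℝ) ^ m = 3 ^ T.card * 3 ^ (m - T.card) := by
      rw [← pow_add]
      congr 1
      omega
    rw [this, ← mul_assoc, ← mul_pow]
    norm_num
    exact one_le_pow₀ (by norm_num)
  refine h1.trans ?_
  have h2 : ∑ T ∈ S.powerset.filter (fun T => T.card ≤ m), ((1 / 3 : ℝ) ^ T.card * 3 ^ m)
      ≤ ∑ T ∈ S.powerset, ((1 / 3 : ℝ) ^ T.card * 3 ^ m) :=
    sum_le_sum_of_subset_of_nonneg (filter_subset _ _) (fun _ _ _ => by positivity)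
  refine h2.trans (le_of_eq ?_)
  rw [← sum_mul]
  congr 1
  have h3 := Finset.sum_pow_mul_eq_add_pow (1 / 3 : ℝ) 1 S
  simp only [one_pow, mul_one] at h3
  rw [h3]
  norm_num

theorem card_low_degree {V : Type*} [DecidableEq V] (A B : Finset V) (x : V) (hx : x ∈ A) (m : ℕ) :
    (((A ×ˢ B).powerset.filter (fun E => (B.filter (fun y => (x, y) ∈ E)).card ≤ m)).card : ℝ)
      ≤ (4 / 3) ^ B.card * 3 ^ m * 2 ^ ((A.card - 1) * B.card) := by
  have h1 : ((A ×ˢ B).powerset.filter (fun E => (B.filter (fun y => (x, y) ∈ E)).card ≤ m)).card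
      ≤ ((B.powerset.filter (fun T => T.card ≤ m)) ×ˢ ((A.erase x) ×ˢ B).powerset).card := by
    refine card_le_card_of_injOn
      (fun E => (B.filter (fun y => (x, y) ∈ E), E.filter (fun p => p.1 ≠ x))) ?_ ?_
    · intro E hE
      rw [mem_coe, mem_filter, mem_powerset] at hE
      rw [mem_coe, mem_product]
      refine ⟨mem_filter.2 ⟨mem_powerset.2 (filter_subset _ _), hE.2⟩, ?_⟩
      rw [mem_powerset]
      intro p hp
      have hp' := mem_filter.1 hp
      have := mem_product.1 (hE.1 hp'.1)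
      exact mem_product.2 ⟨mem_erase.2 ⟨hp'.2, this.1⟩, this.2⟩
    · intro E hE E' hE' h
      rw [mem_coe, mem_filter, mem_powerset] at hE hE'
      have ha := congrArg Prod.fst h
      have hb := congrArg Prod.snd h
      simp only at ha hb
      ext ⟨a, b⟩
      by_cases hax : a = x
      · subst hax
        constructor
        · intro hm
          have hB := (mem_product.1 (hE.1 hm)).2
          have : b ∈ B.filter (fun y => (a, y) ∈ E) := mem_filter.2 ⟨hB, hm⟩
          rw [ha] at this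
          exact (mem_filter.1 this).2
        · intro hm
          have hB := (mem_product.1 (hE'.1 hm)).2
          have : b ∈ B.filter (fun y => (a, y) ∈ E') := mem_filter.2 ⟨hB, hm⟩
          rw [← ha] at this
          exact (mem_filter.1 this).2
      · constructor
        · intro hm
          have : (a, b) ∈ E.filter (fun p => p.1 ≠ x) := mem_filter.2 ⟨hm, hax⟩
          rw [hb] at this
          exact (mem_filter.1 this).1
        · intro hm
          have : (a, b) ∈ E'.filter (fun p => p.1 ≠ x) := mem_filter.2 ⟨hm, hax⟩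
          rw [← hb] at this
          exact (mem_filter.1 this).1
  have h2 : (((A ×ˢ B).powerset.filter
      (fun E => (B.filter (fun y => (x, y) ∈ E)).card ≤ m)).card : ℝ)
      ≤ ((B.powerset.filter (fun T => T.card ≤ m)).card : ℝ)
        * ((((A.erase x) ×ˢ B).powerset).card : ℝ) := by
    rw [card_product] at h1
    exact_mod_cast h1
  refine h2.trans ?_
  have h3 : ((((A.erase x) ×ˢ B).powerset).card : ℝ) = 2 ^ ((A.card - 1) * B.card) := by
    rw [card_powerset, card_product, card_erase_of_mem hx]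
    push_cast
    rfl
  rw [h3]
  exact mul_le_mul_of_nonneg_right (card_powerset_low B m) (by positivity)

/-- The fraction of graphs in which `x` has degree at most a quarter of `|B|`. -/
theorem card_low_degree_quarter {V : Type*} [DecidableEq V] (A B : Finset V) (x : V)
    (hx : x ∈ A) :
    (((A ×ˢ B).powerset.filter
        (fun E => (B.filter (fun y => (x, y) ∈ E)).card ≤ B.card / 4)).card : ℝ)
      ≤ (16 / 27) ^ (B.card / 4) * 2 ^ (A.card * B.card) := by
  refine (card_low_degree A B x hx (B.card / 4)).trans ?_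
  have hA : 1 ≤ A.card := card_pos.2 ⟨x, hx⟩
  have h1 : (2 : ℝ) ^ (A.card * B.card) = 2 ^ B.card * 2 ^ ((A.card - 1) * B.card) := by
    rw [← pow_add]
    congr 1
    obtain ⟨a, ha⟩ := Nat.exists_eq_add_of_le hA
    rw [ha]
    simp only [Nat.add_sub_cancel_left]
    ring
  rw [h1, ← mul_assoc]
  refine mul_le_mul_of_nonneg_right ?_ (by positivity)
  set b := B.card with hb
  set m := b / 4 with hm
  obtain ⟨r, hr⟩ : ∃ r, b = 4 * m + r := ⟨b - 4 * m, by omega⟩
  have h2 : (4 / 3 : ℝ) ^ b = (4 / 3) ^ (4 * m) * (4 / 3) ^ r := by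
    rw [← pow_add, ← hr]
  have h3 : (2 : ℝ) ^ b = 2 ^ (4 * m) * 2 ^ r := by
    rw [← pow_add, ← hr]
  rw [h2, h3, pow_mul, pow_mul]
  have h4 : ((4 / 3 : ℝ) ^ 4) ^ m * 3 ^ m = (16 / 27) ^ m * ((2 : ℝ) ^ 4) ^ m := by
    rw [← mul_pow, ← mul_pow]
    norm_num
  have h5 : (4 / 3 : ℝ) ^ r ≤ 2 ^ r := pow_le_pow_left₀ (by norm_num) (by norm_num) r
  calc ((4 / 3 : ℝ) ^ 4) ^ m * (4 / 3) ^ r * 3 ^ m
      = (((4 / 3 : ℝ) ^ 4) ^ m * 3 ^ m) * (4 / 3) ^ r := by ring
    _ = ((16 / 27) ^ m * ((2 : ℝ) ^ 4) ^ m) * (4 / 3) ^ r := by rw [h4]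
    _ ≤ ((16 / 27) ^ m * ((2 : ℝ) ^ 4) ^ m) * 2 ^ r :=
        mul_le_mul_of_nonneg_left h5 (by positivity)
    _ = (16 / 27) ^ m * (((2 : ℝ) ^ 4) ^ m * 2 ^ r) := by ring

theorem card_low_degree_union {V : Type*} [DecidableEq V] (A B : Finset V) (t : ℝ)
    (ht : 4 * t ≤ B.card) :
    (((A ×ˢ B).powerset.filter (fun E => ∃ x ∈ A,
        ((B.filter (fun y => (x, y) ∈ E)).card : ℝ) < t)).card : ℝ)
      ≤ A.card * ((16 / 27) ^ (B.card / 4) * 2 ^ (A.card * B.card)) := by
  classical
  have hsub : (A ×ˢ B).powerset.filter (fun E => ∃ x ∈ A,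
        ((B.filter (fun y => (x, y) ∈ E)).card : ℝ) < t)
      ⊆ A.biUnion (fun x => (A ×ˢ B).powerset.filter
        (fun E => (B.filter (fun y => (x, y) ∈ E)).card ≤ B.card / 4)) := by
    intro E hE
    rw [mem_filter] at hE
    obtain ⟨hE, x, hx, hlt⟩ := hE
    rw [mem_biUnion]
    refine ⟨x, hx, mem_filter.2 ⟨hE, ?_⟩⟩
    rw [Nat.le_div_iff_mul_le (by norm_num)]
    have : ((B.filter (fun y => (x, y) ∈ E)).card : ℝ) * 4 ≤ B.card := by linarith
    exact_mod_cast this
  have h1 := (card_le_card hsub).trans card_biUnion_le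
  have h2 : (((A ×ˢ B).powerset.filter (fun E => ∃ x ∈ A,
        ((B.filter (fun y => (x, y) ∈ E)).card : ℝ) < t)).card : ℝ)
      ≤ ∑ x ∈ A, (((A ×ˢ B).powerset.filter
        (fun E => (B.filter (fun y => (x, y) ∈ E)).card ≤ B.card / 4)).card : ℝ) := by
    exact_mod_cast h1
  refine h2.trans ?_
  refine (sum_le_sum (fun x hx => card_low_degree_quarter A B x hx)).trans ?_
  rw [sum_const, nsmul_eq_mul]

theorem deg_rare : DegRare := by
  intro δ ε hδ hε
  obtain ⟨M, hM⟩ := exists_nat_gt (4 / δ)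
  have hM0 : (0 : ℝ) < M := lt_trans (by positivity) hM
  have hM0' : 0 < M := by exact_mod_cast hM0
  obtain ⟨N, hN⟩ := Pool.MP5bc52d.AA.eventually_small ((M : ℝ) * (27 / 16)) ε (16 / 27) hε
    (by norm_num) (by norm_num) 1
  refine ⟨M * N, ?_⟩
  intro n hn V _ A B hA hB hδB
  refine (card_low_degree_union A B (δ / 4 * n) (by linarith)).trans ?_
  rw [← mul_assoc]
  refine mul_le_mul_of_nonneg_right ?_ (by positivity)
  set m := n / M with hm
  have hmN : N ≤ m := by
    rw [hm, Nat.le_div_iff_mul_le hM0', mul_comm]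
    exact hn
  have hmn : (n + 1 : ℝ) ≤ M * (m + 1) := by
    have : n + 1 ≤ M * (m + 1) := by
      have := Nat.lt_mul_div_succ n hM0'
      rw [← hm] at this
      exact this
    exact_mod_cast this
  have hmB : m ≤ B.card / 4 := by
    rw [Nat.le_div_iff_mul_le (by norm_num)]
    have h1 : ((m * 4 : ℕ) : ℝ) ≤ B.card := by
      push_cast
      have h2 : (m : ℝ) ≤ (n : ℝ) / M := by
        rw [hm]
        exact Nat.cast_div_le
      have h3 : (n : ℝ) / M * 4 ≤ δ * n := by
        rw [div_mul_eq_mul_div, div_le_iff₀ hM0]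
        have h4 : 4 ≤ δ * M := by
          have := (div_lt_iff₀ hδ).1 hM
          linarith
        have h5 : (0 : ℝ) ≤ n := Nat.cast_nonneg n
        nlinarith
      linarith
    exact_mod_cast h1
  have hA' : (A.card : ℝ) ≤ M * (m + 1) := by
    have : (A.card : ℝ) ≤ n := by exact_mod_cast hA
    linarith
  have hq : (16 / 27 : ℝ) ^ (B.card / 4) ≤ (16 / 27) ^ m :=
    pow_le_pow_of_le_one (by norm_num) (by norm_num) hmB
  calc (A.card : ℝ) * (16 / 27) ^ (B.card / 4) ≤ (M * (m + 1)) * (16 / 27) ^ m :=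
        mul_le_mul hA' hq (by positivity) (by positivity)
    _ = (M : ℝ) * (27 / 16) * ((m + 1 : ℝ) ^ 1 * (16 / 27) ^ (m + 1)) := by
        rw [pow_succ]
        ring
    _ ≤ ε := hN m hmN

/-- Exchanging the two sides. -/
theorem card_deg_swap {V : Type*} [DecidableEq V] (A B : Finset V) (t : ℝ) :
    ((A ×ˢ B).powerset.filter (fun E => ∃ y ∈ B,
        ((A.filter (fun x => (x, y) ∈ E)).card : ℝ) < t)).card
      ≤ ((B ×ˢ A).powerset.filter (fun E => ∃ y ∈ B,
        ((A.filter (fun x => (y, x) ∈ E)).card : ℝ) < t)).card := by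
  classical
  refine card_le_card_of_injOn (fun E => E.map (Equiv.prodComm V V).toEmbedding) ?_ ?_
  · intro E hE
    rw [mem_coe, mem_filter, mem_powerset] at hE
    rw [mem_coe, mem_filter, mem_powerset]
    obtain ⟨hE, y, hy, hL⟩ := hE
    refine ⟨?_, y, hy, ?_⟩
    · intro p hp
      rw [mem_map] at hp
      obtain ⟨r, hr, rfl⟩ := hp
      have := mem_product.1 (hE hr)
      exact mem_product.2 ⟨this.2, this.1⟩
    · have : A.filter (fun x => (y, x) ∈ E.map (Equiv.prodComm V V).toEmbedding)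
          = A.filter (fun x => (x, y) ∈ E) := by
        refine filter_congr ?_
        intro x _
        rw [mem_map_equiv]
        rfl
      rw [this]
      exact hL
  · intro E _ E' _ h
    exact map_injective _ h

theorem deg_rare_swap : DegRareSwap := by
  intro δ ε hδ hε
  obtain ⟨N, hN⟩ := deg_rare δ ε hδ hε
  refine ⟨N, ?_⟩
  intro n hn V _ A B hA hB hδA
  have h1 := hN n hn V B A hB hA hδA
  have h2 : (((A ×ˢ B).powerset.filter (fun E => ∃ y ∈ B,
        ((A.filter (fun x => (x, y) ∈ E)).card : ℝ) < δ / 4 * n)).card : ℝ)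
      ≤ (((B ×ˢ A).powerset.filter (fun E => ∃ y ∈ B,
        ((A.filter (fun x => (y, x) ∈ E)).card : ℝ) < δ / 4 * n)).card : ℝ) := by
    exact_mod_cast card_deg_swap A B (δ / 4 * n)
  rw [mul_comm A.card B.card]
  exact h2.trans h1

theorem graph_bound : GraphBound := graph_bound_of deg_rare deg_rare_swap

end Pool.Agent.Lib.MP_5bc52d_co.AA
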