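import Mathlib
import Pool.Agent.Lib.MP_5bc52d_co.Key.Word

/-!
# Dominating elements of labelled posets of height at most two
-/

open Finset Polynomial

set_option linter.unusedSectionVars false

namespace Pool.Agent.Lib.MP_5bc52d_co.AA

open Splitting Cyc Cut

variable {P : Type*} [Fintype P] [DecidableEq P]

open Classical in
/-- the elements of `W` with smaller label than all the elements of `W` comparable with them -/
noncomputable def Src (r : P → P → Prop) (u : P → ℤ) (W : Finset P) : Finset P :=
  W.filter (fun x => ∀ y ∈ W, (r x y ∨ r y x) → u x < u y)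

theorem mem_Src {r : P → P → Prop} {u : P → ℤ} {W : Finset P} {x : P} :
    x ∈ Src r u W ↔ x ∈ W ∧ ∀ y ∈ W, (r x y ∨ r y x) → u x < u y := by
  classical
  rw [Src, Finset.mem_filter]

theorem Src_subset {r : P → P → Prop} {u : P → ℤ} {W : Finset P} : Src r u W ⊆ W :=
  fun _ hx => (mem_Src.mp hx).1

/-- `v` is comparable with all other sources of `W` -/
def Dom (r : P → P → Prop) (u : P → ℤ) (W : Finset P) (v : P) : Prop :=
  ∀ x ∈ Src r u W, x ≠ v → (r x v ∨ r v x)

/-- the relations inside `W` go from `X` to the complement of `X` -/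
def Flat2 (r : P → P → Prop) (X W : Finset P) : Prop :=
  ∀ a ∈ W, ∀ b ∈ W, r a b → a ∈ X ∧ b ∉ X

/-- the initial parts `I` counted for the element `v` -/
def Sv (r : P → P → Prop) (u : P → ℤ) (W : Finset P) (v : P) (I : Finset P) : Prop :=
  Wk r (-u) W I ∧ v ∉ I ∧ (∀ a ∈ W, r a v → a ∈ I) ∧
    ∀ a ∈ W, ∀ b ∈ W, a ∉ I → b ∉ I → a ≠ v → b ≠ v → r a b → u a < u b

section
variable {r : P → P → Prop} {u : P → ℤ} {X W : Finset P} {v : P}

theorem Sv_dom (hi : ∀ x, ¬ r x x) (hu : Function.Injective u) (hX : Flat2 r X W) (hv : v ∈ W)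
    (hd : Dom r u W v) {I : Finset P} : Sv r u W v I ↔ I = (W ∩ X).erase v := by
  constructor
  · rintro ⟨h1, h2, h3, h4⟩
    apply Finset.Subset.antisymm
    · intro y hy
      have hyW := h1.1 hy
      have hyv : y ≠ v := fun h => h2 (h ▸ hy)
      rw [Finset.mem_erase, Finset.mem_inter]
      refine ⟨hyv, hyW, ?_⟩
      by_contra hyX
      by_cases hs : y ∈ Src r u W
      · rcases hd y hs hyv with h | h
        · exact hyX (hX y hyW v hv h).1
        · exact h2 (h1.2 v hv y hy h).1
      · rw [mem_Src, not_and] at hs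
        have hs' := hs hyW
        push Not at hs'
        obtain ⟨z, hz, hzy, hle⟩ := hs'
        have hne : z ≠ y := by
          rintro rfl
          rcases hzy with h | h
          · exact hi _ h
          · exact hi _ h
        rcases hzy with h | h
        · exact hyX (hX y hyW z hz h).1
        · have h5 := (h1.2 z hz y hy h).2
          simp only [Pi.neg_apply] at h5
          have h6 : u z ≠ u y := fun h => hne (hu h)
          omega
    · intro x hx
      rw [Finset.mem_erase, Finset.mem_inter] at hx
      obtain ⟨hxv, hxW, hxX⟩ := hx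
      by_contra hxI
      by_cases hs : x ∈ Src r u W
      · rcases hd x hs hxv with h | h
        · exact hxI (h3 x hxW h)
        · exact (hX v hv x hxW h).2 hxX
      · rw [mem_Src, not_and] at hs
        have hs' := hs hxW
        push Not at hs'
        obtain ⟨z, hz, hzx, hle⟩ := hs'
        rcases hzx with h | h
        · have hzv : z ≠ v := by
            rintro rfl
            exact hxI (h3 x hxW h)
          have hzI : z ∉ I := fun h5 => hxI (h1.2 x hxW z h5 h).1
          have := h4 x hxW z hz hxI hzI hxv hzv h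
          omega
        · exact (hX z hz x hxW h).2 hxX
  · rintro rfl
    refine ⟨⟨?_, ?_⟩, ?_, ?_, ?_⟩
    · intro x hx
      exact (Finset.mem_inter.mp (Finset.mem_of_mem_erase hx)).1
    · intro a ha b hb hab
      exfalso
      rw [Finset.mem_erase, Finset.mem_inter] at hb
      exact (hX a ha b hb.2.1 hab).2 hb.2.2
    · exact Finset.notMem_erase v _
    · intro a ha hav
      rw [Finset.mem_erase, Finset.mem_inter]
      exact ⟨fun h => hi v (by rw [h] at hav; exact hav), ha, (hX a ha v hv hav).1⟩
    · intro a ha b hb haI hbI hav hbv hab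
      exfalso
      apply haI
      rw [Finset.mem_erase, Finset.mem_inter]
      exact ⟨hav, ha, (hX a ha b hb hab).1⟩

/-- adding a free source -/
theorem Sv_insert {x : P} (hx : x ∈ Src r u W)
    (hxv : x ≠ v) (h1 : ¬ r x v) (h2 : ¬ r v x) {I : Finset P} (hI : Sv r u W v I)
    (hxI : x ∉ I) : Sv r u W v (insert x I) := by
  obtain ⟨hxW, hxs⟩ := mem_Src.mp hx
  obtain ⟨g1, g2, g3, g4⟩ := hI
  refine ⟨⟨?_, ?_⟩, ?_, ?_, ?_⟩
  · intro y hy
    rcases Finset.mem_insert.mp hy with h | h
    · exact h ▸ hxW
    · exact g1.1 h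
  · intro a ha b hb hab
    rcases Finset.mem_insert.mp hb with h | h
    · subst h
      have h3 := hxs a ha (Or.inr hab)
      have haI : a ∈ I := by
        by_contra haI
        have hav : a ≠ v := by
          rintro rfl
          exact h2 hab
        have := g4 a ha b hxW haI hxI hav hxv hab
        omega
      refine ⟨Finset.mem_insert_of_mem haI, ?_⟩
      simp only [Pi.neg_apply]
      omega
    · exact ⟨Finset.mem_insert_of_mem (g1.2 a ha b h hab).1, (g1.2 a ha b h hab).2⟩
  · intro h
    rcases Finset.mem_insert.mp h with h | h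
    · exact hxv h.symm
    · exact g2 h
  · intro a ha hav
    exact Finset.mem_insert_of_mem (g3 a ha hav)
  · intro a ha b hb haI hbI hav hbv hab
    exact g4 a ha b hb (fun h => haI (Finset.mem_insert_of_mem h))
      (fun h => hbI (Finset.mem_insert_of_mem h)) hav hbv hab

/-- removing a free source -/
theorem Sv_erase {x : P} (hx : x ∈ Src r u W)
    (hxv : x ≠ v) (h1 : ¬ r x v) (h2 : ¬ r v x) {I : Finset P} (hI : Sv r u W v I)
    (hxI : x ∈ I) : Sv r u W v (I.erase x) := by
  obtain ⟨hxW, hxs⟩ := mem_Src.mp hx
  obtain ⟨g1, g2, g3, g4⟩ := hI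
  have hno : ∀ b ∈ I, ¬ r x b := by
    intro b hb hxb
    have h3 := (g1.2 x hxW b hb hxb).2
    have h4 := hxs b (g1.1 hb) (Or.inl hxb)
    simp only [Pi.neg_apply] at h3
    omega
  refine ⟨⟨?_, ?_⟩, ?_, ?_, ?_⟩
  · intro y hy
    exact g1.1 (Finset.mem_of_mem_erase hy)
  · intro a ha b hb hab
    have hbI := Finset.mem_of_mem_erase hb
    have h3 := g1.2 a ha b hbI hab
    refine ⟨?_, h3.2⟩
    rw [Finset.mem_erase]
    refine ⟨?_, h3.1⟩
    rintro rfl
    exact hno b hbI hab
  · exact fun h => g2 (Finset.mem_of_mem_erase h)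
  · intro a ha hav
    rw [Finset.mem_erase]
    refine ⟨?_, g3 a ha hav⟩
    rintro rfl
    exact h1 hav
  · intro a ha b hb haI hbI hav hbv hab
    by_cases hax : a = x
    · subst hax
      exact hxs b hb (Or.inl hab)
    · have haI' : a ∉ I := fun h => haI (Finset.mem_erase.mpr ⟨hax, h⟩)
      by_cases hbx : b = x
      · subst hbx
        exact absurd (g1.2 a ha b hxI hab).1 haI'
      · have hbI' : b ∉ I := fun h => hbI (Finset.mem_erase.mpr ⟨hbx, h⟩)
        exact g4 a ha b hb haI' hbI' hav hbv hab

open Classical in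
/-- the signed count for one element -/
theorem sum_Sv (hi : ∀ x, ¬ r x x) (hu : Function.Injective u) (hX : Flat2 r X W)
    (hv : v ∈ W) :
    ∑ I ∈ W.powerset.filter (Sv r u W v), (-1 : ℚ) ^ I.card =
      if Dom r u W v then (-1) ^ ((W ∩ X).erase v).card else 0 := by
  split_ifs with hd
  · have h1 : W.powerset.filter (Sv r u W v) = {(W ∩ X).erase v} := by
      ext I
      rw [Finset.mem_filter, Finset.mem_singleton, Finset.mem_powerset]
      constructor
      · rintro ⟨-, h⟩
        exact (Sv_dom hi hu hX hv hd).mp h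
      · intro h
        have h2 := (Sv_dom hi hu hX hv hd).mpr h
        exact ⟨h2.1.1, h2⟩
    rw [h1, Finset.sum_singleton]
  · rw [Dom] at hd
    push Not at hd
    obtain ⟨x, hx, hxv, h1, h2⟩ := hd
    refine Finset.sum_involution (fun I _ => if x ∈ I then I.erase x else insert x I)
      ?_ ?_ ?_ ?_
    · intro I _
      by_cases h : x ∈ I
      · have h3 := Finset.card_erase_add_one h
        simp only [if_pos h]
        rw [← h3, pow_succ]
        ring
      · simp only [if_neg h]
        rw [Finset.card_insert_of_notMem h, pow_succ]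
        ring
    · intro I _ _ h
      by_cases h3 : x ∈ I
      · simp only [if_pos h3] at h
        exact Finset.notMem_erase x I (h.symm ▸ h3)
      · simp only [if_neg h3] at h
        exact h3 (h ▸ Finset.mem_insert_self x I)
    · intro I hI
      rw [Finset.mem_filter, Finset.mem_powerset] at hI
      by_cases h : x ∈ I
      · have h3 := Sv_erase hx hxv h1 h2 hI.2 h
        simp only [if_pos h]
        rw [Finset.mem_filter, Finset.mem_powerset]
        exact ⟨h3.1.1, h3⟩
      · have h3 := Sv_insert hx hxv h1 h2 hI.2 h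
        simp only [if_neg h]
        rw [Finset.mem_filter, Finset.mem_powerset]
        exact ⟨h3.1.1, h3⟩
    · intro I _
      by_cases h : x ∈ I
      · simp only [if_pos h, if_neg (Finset.notMem_erase x I)]
        exact Finset.insert_erase h
      · simp only [if_neg h, if_pos (Finset.mem_insert_self x I)]
        exact Finset.erase_insert h

end

end Pool.Agent.Lib.MP_5bc52d_co.AA
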