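import Mathlib
import Pool.Agent.Lib.MP_5bc52d_co.Key.PsiG
import Pool.Agent.Lib.MP_5bc52d_co.AA.Der

/-!
# The derivation counting dominating elements
-/

open Finset Polynomial

set_option linter.unusedSectionVars false

namespace Pool.Agent.Lib.MP_5bc52d_co.AA

open Splitting Cyc Cut Key

section abs
variable {A : Type*} [CommRing A]

/-- the coefficient of `e` in `f (c(1)⁻¹ d(e) d(1))`, where `φ` and `ψ` are the letters -/
noncomputable def dd (cc : A →+* ℚ) (φ ψ : A →+* A[X]) (f : A) : ℚ :=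
  cc ((ψ ((ψ ((φ f).eval 1)).coeff 1)).eval 1)

variable {cc : A →+* ℚ} {φ ψ : A →+* A[X]}

theorem dd_add (f g : A) : dd cc φ ψ (f + g) = dd cc φ ψ f + dd cc φ ψ g := by
  simp only [dd, map_add, eval_add, coeff_add]

theorem dd_zero : dd cc φ ψ 0 = 0 := by
  simp [dd]

theorem dd_neg (f : A) : dd cc φ ψ (-f) = - dd cc φ ψ f := by
  simp only [dd, map_neg, eval_neg, coeff_neg]

theorem dd_sum {ι : Type*} (s : Finset ι) (f : ι → A) :
    dd cc φ ψ (∑ i ∈ s, f i) = ∑ i ∈ s, dd cc φ ψ (f i) := by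
  classical
  induction s using Finset.induction_on with
  | empty => simp [dd_zero]
  | insert a s ha ih => rw [Finset.sum_insert ha, Finset.sum_insert ha, dd_add, ih]

theorem dd_mul (hinv : ∀ f, (ψ ((φ f).eval 1)).eval 1 = f) (h0 : ∀ f, (ψ f).coeff 0 = f)
    (f g : A) : dd cc φ ψ (f * g) = cc f * dd cc φ ψ g + cc g * dd cc φ ψ f := by
  have h1 : ((ψ ((φ f).eval 1 * (φ g).eval 1)).coeff 1) =
      (φ f).eval 1 * (ψ ((φ g).eval 1)).coeff 1 + (ψ ((φ f).eval 1)).coeff 1 * (φ g).eval 1 := by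
    rw [map_mul, coeff_mul]
    have : antidiagonal 1 = {((0 : ℕ), (1 : ℕ)), ((1 : ℕ), (0 : ℕ))} := by decide
    rw [this, Finset.sum_pair (by decide)]
    simp only [h0]
  rw [dd, map_mul, eval_mul, h1, map_add, map_mul, map_mul, eval_add, eval_mul, eval_mul,
    hinv, hinv, map_add, map_mul, map_mul, dd, dd]
  ring

end abs

section value
variable {P : Type*} [Fintype P] [DecidableEq P] {A : Type*} [CommRing A]
  {Γ : Finset P → A} {ε : A} (hε : ε = 1 ∨ ε = -1) {r : P → P → Prop} (hi : ∀ x, ¬ r x x)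
  {u : P → ℤ} (hu : Function.Injective u) {φ ψ : A →+* A[X]}
  (hφ : PeelE Γ (-ε) r (-u) φ) (hψ : PeelE Γ ε r u ψ)
  {cc : A →+* ℚ} (hcc : ∀ U, cc (Γ U) = if U = ∅ then 1 else 0)

include hψ hcc in
theorem cc_eval (R : Finset P) [Decidable (∀ a ∈ R, ∀ b ∈ R, r a b → u a < u b)] :
    cc ((ψ (Γ R)).eval 1) =
      if (∀ a ∈ R, ∀ b ∈ R, r a b → u a < u b) then (cc ε) ^ R.card else 0 := by
  rw [hψ, eval_finsetSum, map_sum]
  have h1 : ∀ J ∈ wks r u R, cc ((C (ε ^ J.card * Γ (R \ J)) * X ^ J.card : A[X]).eval 1) =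
      if J = R then (cc ε) ^ R.card else 0 := by
    intro J hJ
    rw [mem_wks] at hJ
    rw [eval_mul, eval_C, eval_pow, eval_X, one_pow, mul_one, map_mul, map_pow, hcc]
    by_cases h : J = R
    · rw [if_pos h, if_pos (by rw [h, Finset.sdiff_self]), h, mul_one]
    · rw [if_neg h, if_neg, mul_zero]
      intro h2
      exact h (Finset.Subset.antisymm hJ.1 (Finset.sdiff_eq_empty_iff_subset.mp h2))
  rw [Finset.sum_congr rfl h1, Finset.sum_ite_eq']
  by_cases h : R ∈ wks r u R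
  · rw [if_pos h, if_pos]
    rw [mem_wks] at h
    exact fun a ha b hb hab => (h.2 a ha b hb hab).2
  · rw [if_neg h, if_neg]
    intro h2
    apply h
    rw [mem_wks]
    exact ⟨Finset.Subset.refl _, fun a ha b hb hab => ⟨ha, h2 a ha b hb hab⟩⟩

include hi in
open Classical in
theorem wks_one (V : Finset P) : (wks r u V).filter (fun J => J.card = 1) =
    (V.filter (fun v => ∀ a ∈ V, ¬ r a v)).image (fun v => ({v} : Finset P)) := by
  ext J
  rw [Finset.mem_filter, mem_wks, Finset.mem_image, Finset.card_eq_one]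
  constructor
  · rintro ⟨h1, v, rfl⟩
    refine ⟨v, ?_, rfl⟩
    rw [Finset.mem_filter]
    refine ⟨h1.1 (Finset.mem_singleton_self v), fun a ha hav => ?_⟩
    have h2 := (h1.2 a ha v (Finset.mem_singleton_self v) hav).1
    rw [Finset.mem_singleton] at h2
    subst h2
    exact hi _ hav
  · rintro ⟨v, hv, rfl⟩
    rw [Finset.mem_filter] at hv
    refine ⟨⟨Finset.singleton_subset_iff.mpr hv.1, fun a ha b hb hab => ?_⟩, v, rfl⟩
    rw [Finset.mem_singleton] at hb
    subst hb
    exact absurd hab (hv.2 a ha)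

include hε hi hφ hψ hcc in
open Classical in
theorem dd_Gam (W : Finset P) : dd cc φ ψ (Γ W) = (cc ε) ^ W.card *
    ∑ v ∈ W, ∑ I ∈ W.powerset.filter (Sv r u W v), (-1 : ℚ) ^ I.card := by
  have hsq : ε * ε = 1 := by
    rcases hε with h | h <;> rw [h] <;> ring
  have hψε : ∀ k : ℕ, ψ ((-ε) ^ k) = C ((-ε) ^ k) := by
    intro k
    rw [map_pow, C_pow]
    congr 1
    rcases hε with h | h
    · rw [h, map_neg, map_one, C_neg, C_1]
    · rw [h, neg_neg, map_one, C_1]
  have hψε' : ∀ k : ℕ, ψ (ε ^ k) = C (ε ^ k) := by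
    intro k
    rw [map_pow, C_pow]
    congr 1
    rcases hε with h | h
    · rw [h, map_one, C_1]
    · rw [h, map_neg, map_one, C_neg, C_1]
  -- the first letter
  have h1 : (φ (Γ W)).eval 1 = ∑ I ∈ wks r (-u) W, (-ε) ^ I.card * Γ (W \ I) := by
    rw [hφ, eval_finsetSum]
    apply Finset.sum_congr rfl
    intro I _
    rw [eval_mul, eval_C, eval_pow, eval_X, one_pow, mul_one]
  -- the second letter
  have h2 : ∀ V, (ψ (Γ V)).coeff 1 = ∑ v ∈ V.filter (fun v => ∀ a ∈ V, ¬ r a v),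
      ε * Γ (V \ {v}) := by
    intro V
    rw [hψ, finsetSum_coeff]
    have h3 : ∀ J ∈ wks r u V, (C (ε ^ J.card * Γ (V \ J)) * X ^ J.card : A[X]).coeff 1 =
        if J.card = 1 then ε * Γ (V \ J) else 0 := by
      intro J _
      rw [coeff_C_mul_X_pow]
      by_cases h : J.card = 1
      · rw [if_pos h, if_pos h.symm, h, pow_one]
      · rw [if_neg h, if_neg (fun h' => h h'.symm)]
    rw [Finset.sum_congr rfl h3, ← Finset.sum_filter, wks_one hi, Finset.sum_image]
    intro x _ y _ hxy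
    exact Finset.singleton_injective hxy
  rw [dd, h1, map_sum, finsetSum_coeff, map_sum, eval_finsetSum, map_sum]
  have h4 : ∀ I ∈ wks r (-u) W,
      cc ((ψ ((ψ ((-ε) ^ I.card * Γ (W \ I))).coeff 1)).eval 1) =
      ∑ v ∈ W, if Sv r u W v I then (cc ε) ^ W.card * (-1 : ℚ) ^ I.card else 0 := by
    intro I hI
    rw [mem_wks] at hI
    rw [map_mul, hψε, coeff_C_mul, h2, map_mul, hψε, eval_mul, eval_C, map_mul, map_sum,
      eval_finsetSum, map_sum, Finset.mul_sum, ← Finset.sum_filter]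
    have h5 : W.filter (fun v => Sv r u W v I) =
        ((W \ I).filter (fun v => ∀ a ∈ W \ I, ¬ r a v)).filter
          (fun v => ∀ a ∈ (W \ I) \ {v}, ∀ b ∈ (W \ I) \ {v}, r a b → u a < u b) := by
      ext v
      simp only [Finset.mem_filter, Finset.mem_sdiff, Finset.mem_singleton]
      constructor
      · rintro ⟨hv, g1, g2, g3, g4⟩
        exact ⟨⟨⟨hv, g2⟩, fun a ha hav => ha.2 (g3 a ha.1 hav)⟩,
          fun a ha b hb hab => g4 a ha.1.1 b hb.1.1 ha.1.2 hb.1.2 ha.2 hb.2 hab⟩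
      · rintro ⟨⟨⟨hv, g2⟩, g3⟩, g4⟩
        refine ⟨hv, hI, g2, fun a ha hav => ?_, fun a ha b hb haI hbI hav hbv hab =>
          g4 a ⟨⟨ha, haI⟩, hav⟩ b ⟨⟨hb, hbI⟩, hbv⟩ hab⟩
        by_contra haI
        exact g3 a ⟨ha, haI⟩ hav
    conv_rhs => rw [h5, Finset.sum_filter]
    apply Finset.sum_congr rfl
    intro v hv
    rw [Finset.mem_filter] at hv
    rw [map_mul, show ψ ε = C ε by simpa using hψε' 1, eval_mul, eval_C, map_mul,
      cc_eval hψ hcc]
    have h6 : W.card = I.card + (1 + ((W \ I) \ {v}).card) := by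
      have h7 := Finset.card_sdiff_add_card_eq_card hI.1
      have h8 := Finset.card_sdiff_add_card_eq_card (Finset.singleton_subset_iff.mpr hv.1)
      rw [Finset.card_singleton] at h8
      omega
    split_ifs with h
    · rw [map_pow, map_neg, h6, pow_add, pow_add, pow_one]
      have h9 : (-(cc ε)) ^ I.card = (cc ε) ^ I.card * (-1) ^ I.card := by
        rw [neg_eq_neg_one_mul, mul_pow, mul_comm]
      rw [h9]
      ring
    · ring
  rw [Finset.sum_congr rfl h4, Finset.sum_comm, Finset.mul_sum]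
  apply Finset.sum_congr rfl
  intro v _
  rw [Finset.mul_sum, ← Finset.sum_filter]
  apply Finset.sum_congr
  · ext I
    rw [Finset.mem_filter, Finset.mem_filter, mem_wks, Finset.mem_powerset]
    constructor
    · rintro ⟨h, h'⟩
      exact ⟨h.1, h'⟩
    · rintro ⟨h, h'⟩
      exact ⟨h'.1, h'⟩
  · intro I _
    rfl

include hε hi hu hφ hψ hcc in
open Classical in
/-- the value for a set of height at most two -/
theorem dd_flat {X W : Finset P} (hX : Flat2 r X W) : dd cc φ ψ (Γ W) = (cc ε) ^ W.card *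
    ∑ v ∈ W, if Dom r u W v then (-1 : ℚ) ^ ((W ∩ X).erase v).card else 0 := by
  rw [dd_Gam hε hi hφ hψ hcc]
  congr 1
  apply Finset.sum_congr rfl
  intro v hv
  rw [← sum_Sv hi hu hX hv]

include hε hi hu hφ hψ hcc in
theorem dd_zero_of {X W : Finset P} (hX : Flat2 r X W) (h : ∀ v ∈ W, ¬ Dom r u W v) :
    dd cc φ ψ (Γ W) = 0 := by
  classical
  rw [dd_flat hε hi hu hφ hψ hcc hX, Finset.sum_eq_zero, mul_zero]
  intro v hv
  rw [if_neg (h v hv)]

include hε hi hu hφ hψ hcc in
/-- all sources are in `X`, and two elements outside `X` are comparable with all sources -/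
theorem dd_ne_zero {X W : Finset P} (hX : Flat2 r X W) (hS : Src r u W ⊆ X)
    {y₁ y₂ : P} (h₁ : y₁ ∈ W) (h₂ : y₂ ∈ W) (hne : y₁ ≠ y₂) (hy₁ : y₁ ∉ X) (hy₂ : y₂ ∉ X)
    (hd₁ : Dom r u W y₁) (hd₂ : Dom r u W y₂) : dd cc φ ψ (Γ W) ≠ 0 := by
  classical
  have he : (cc ε) ^ W.card ≠ 0 := by
    apply pow_ne_zero
    rcases hε with h | h
    · rw [h, map_one]; exact one_ne_zero
    · rw [h, map_neg, map_one]; norm_num
  rw [dd_flat hε hi hu hφ hψ hcc hX]
  refine mul_ne_zero he ?_
  set N := (W ∩ X).card with hN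
  -- the source
  obtain ⟨s, hs, hsmin⟩ := Finset.exists_min_image W u ⟨y₁, h₁⟩
  have hsS : s ∈ Src r u W := by
    rw [mem_Src]
    refine ⟨hs, fun y hy hsy => ?_⟩
    have h3 := hsmin y hy
    have h4 : u s ≠ u y := by
      intro h5
      have := hu h5
      subst this
      rcases hsy with h | h <;> exact hi _ h
    omega
  have h3 : ∀ v ∈ W, (if Dom r u W v then (-1 : ℚ) ^ ((W ∩ X).erase v).card else 0) =
      (-1) ^ N * (if Dom r u W v then (if v ∈ X then -1 else 1) else 0) := by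
    intro v hv
    split_ifs with h4 h5
    · have h6 := Finset.card_erase_add_one (Finset.mem_inter.mpr ⟨hv, h5⟩)
      rw [hN, ← h6, pow_succ]
      ring
    · rw [Finset.erase_eq_of_notMem (fun h => h5 (Finset.mem_inter.mp h).2), mul_one]
    · rw [mul_zero]
  rw [Finset.sum_congr rfl h3, ← Finset.mul_sum]
  refine mul_ne_zero (pow_ne_zero _ (by norm_num)) ?_
  -- only `s` can be a dominating element of `X`
  have h4 : ∀ v ∈ W, v ≠ s → (if Dom r u W v then (if v ∈ X then (-1 : ℚ) else 1) else 0) ≥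
      0 := by
    intro v hv hvs
    split_ifs with h5 h6
    · exfalso
      rcases h5 s hsS (Ne.symm hvs) with h | h
      · exact (hX s hs v hv h).2 h6
      · exact (hX v hv s hs h).2 (hS hsS)
    · norm_num
    · norm_num
  have hsX := hS hsS
  have hs1 : y₁ ≠ s := fun h => hy₁ (h ▸ hsX)
  have hs2 : y₂ ≠ s := fun h => hy₂ (h ▸ hsX)
  have h5 : ({s, y₁, y₂} : Finset P) ⊆ W := by
    intro x hx
    simp only [Finset.mem_insert, Finset.mem_singleton] at hx
    rcases hx with rfl | rfl | rfl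
    · exact hs
    · exact h₁
    · exact h₂
  have h6 : ∑ v ∈ ({s, y₁, y₂} : Finset P),
      (if Dom r u W v then (if v ∈ X then (-1 : ℚ) else 1) else 0) ≤
      ∑ v ∈ W, (if Dom r u W v then (if v ∈ X then (-1 : ℚ) else 1) else 0) := by
    apply Finset.sum_le_sum_of_subset_of_nonneg h5
    intro v hv hv'
    apply h4 v hv
    intro h
    exact hv' (by rw [h]; exact Finset.mem_insert_self _ _)
  have h7 : ∑ v ∈ ({s, y₁, y₂} : Finset P),
      (if Dom r u W v then (if v ∈ X then (-1 : ℚ) else 1) else 0) ≥ 1 := by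
    rw [Finset.sum_insert, Finset.sum_pair hne, if_pos hd₁, if_pos hd₂, if_neg hy₁, if_neg hy₂]
    · split_ifs <;> norm_num
    · simp only [Finset.mem_insert, Finset.mem_singleton, not_or]
      exact ⟨Ne.symm hs1, Ne.symm hs2⟩
  linarith [h6, h7]

end value

end Pool.Agent.Lib.MP_5bc52d_co.AA
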