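import Mathlib
import Pool.Agent.Lib.MP_5bc52d_co.Key.TopRule
import Pool.Agent.Lib.MP_5bc52d_co.AA.Eta

/-!
# Labelled posets of height at most two with a pair of dominating elements
-/

open Finset Polynomial

set_option linter.unusedSectionVars false

namespace Pool.Agent.Lib.MP_5bc52d_co.AA

open Splitting Cyc Cut Key

section comb
variable {P : Type*} [Fintype P] [DecidableEq P] {r : P → P → Prop} {u : P → ℤ}
  {X U : Finset P}

theorem exists_src (hi : ∀ x, ¬ r x x) (hu : Function.Injective u) {W : Finset P}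
    (hW : W.Nonempty) : (Src r u W).Nonempty := by
  obtain ⟨s, hs, hsmin⟩ := Finset.exists_min_image W u hW
  refine ⟨s, mem_Src.mpr ⟨hs, fun y hy hsy => ?_⟩⟩
  have h3 := hsmin y hy
  have h4 : u s ≠ u y := by
    intro h5
    have := hu h5
    subst this
    rcases hsy with h | h <;> exact hi _ h
  omega

theorem src_unrel {x y : P} (hx : x ∈ Src r u U) (hy : y ∈ Src r u U) : ¬ r x y := by
  intro h
  have h1 := (mem_Src.mp hx).2 y (Src_subset hy) (Or.inl h)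
  have h2 := (mem_Src.mp hy).2 x (Src_subset hx) (Or.inr h)
  omega

theorem src_sdiff {F : Finset P} {x : P} (hx : x ∈ Src r u U) (hxF : x ∉ F) :
    x ∈ Src r u (U \ F) := by
  obtain ⟨h1, h2⟩ := mem_Src.mp hx
  exact mem_Src.mpr ⟨Finset.mem_sdiff.mpr ⟨h1, hxF⟩,
    fun y hy h => h2 y (Finset.mem_sdiff.mp hy).1 h⟩

/-- only one set of the right size can be removed -/
theorem noDom (hi : ∀ x, ¬ r x x) (hu : Function.Injective u) (hX : Flat2 r X U)
    (hiso : ∀ x ∈ U, ∃ y ∈ U, r x y ∨ r y x)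
    (hcard : (Src r u U \ X).card ≤ (Src r u U ∩ X).card) {w : P → ℤ} {F : Finset P}
    (hF : Wk (fun a b => r b a) w U F) (hc : F.card = (Src r u U \ X).card)
    (hne : F ≠ Src r u U \ X) {v : P} (hv : v ∈ U \ F) : ¬ Dom r u (U \ F) v := by
  intro hd
  rw [Finset.mem_sdiff] at hv
  obtain ⟨hvU, hvF⟩ := hv
  set S := Src r u U with hS
  have hSU : S ⊆ U := Src_subset
  have hsplit : S.card = (S ∩ X).card + (S \ X).card := by
    rw [← Finset.card_sdiff_add_card_inter S X, add_comm]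
  -- an additional element
  have key : ∀ x ∈ S, x ∈ X → x ∈ F → ∃ y ∈ F, y ∉ S := by
    intro x hxS hxX hxF
    obtain ⟨y, hy, h⟩ := hiso x (hSU hxS)
    rcases h with h | h
    · refine ⟨y, (hF.2 y hy x hxF h).1, fun hyS => src_unrel hxS hyS h⟩
    · exact absurd hxX (hX y hy x (hSU hxS) h).2
  -- if all sources but `v` are removed
  have all : v ∈ S → (∀ x ∈ S, x ≠ v → x ∈ F) := by
    intro hvS x hxS hxv
    by_contra hxF
    rcases hd x (src_sdiff hxS hxF) hxv with h | h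
    · exact src_unrel hxS hvS h
    · exact src_unrel hvS hxS h
  have hSne : S.Nonempty := exists_src hi hu ⟨v, hvU⟩
  have big : v ∈ S → (∃ y ∈ F, y ∉ S) → False := by
    rintro hvS ⟨y, hyF, hyS⟩
    have h1 : insert y (S.erase v) ⊆ F := by
      intro x hx
      rcases Finset.mem_insert.mp hx with h | h
      · exact h ▸ hyF
      · exact all hvS x (Finset.mem_of_mem_erase h) (Finset.ne_of_mem_erase h)
    have h2 := Finset.card_le_card h1
    rw [Finset.card_insert_of_notMem (fun h => hyS (Finset.mem_of_mem_erase h)),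
      Finset.card_erase_add_one hvS] at h2
    have h3 : 0 < S.card := Finset.card_pos.mpr hSne
    omega
  by_cases hvX : v ∈ X
  · have hin : ∀ x ∈ S, x ∈ X → x ≠ v → x ∈ F := by
      intro x hxS hxX hxv
      by_contra hxF
      rcases hd x (src_sdiff hxS hxF) hxv with h | h
      · exact (hX x (hSU hxS) v hvU h).2 hvX
      · exact (hX v hvU x (hSU hxS) h).2 hxX
    by_cases hvS : v ∈ S
    · by_cases hex : ∃ x ∈ S, x ∈ X ∧ x ≠ v
      · obtain ⟨x, hxS, hxX, hxv⟩ := hex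
        exact big hvS (key x hxS hxX (hin x hxS hxX hxv))
      · push Not at hex
        apply hne
        symm
        apply Finset.eq_of_subset_of_card_le
        · intro x hx
          rw [Finset.mem_sdiff] at hx
          apply all hvS x hx.1
          rintro rfl
          exact hx.2 hvX
        · exact hc.le
    · have h1 : S ∩ X ⊆ F := by
        intro x hx
        rw [Finset.mem_inter] at hx
        exact hin x hx.1 hx.2 (fun h => hvS (h ▸ hx.1))
      have h2 : (S ∩ X).Nonempty := by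
        rw [← Finset.card_pos]
        have := Finset.card_pos.mpr hSne
        omega
      obtain ⟨x, hx⟩ := h2
      obtain ⟨y, hyF, hyS⟩ := key x (Finset.mem_inter.mp hx).1 (Finset.mem_inter.mp hx).2 (h1 hx)
      have h3 : insert y (S ∩ X) ⊆ F := Finset.insert_subset hyF h1
      have h4 := Finset.card_le_card h3
      rw [Finset.card_insert_of_notMem (fun h => hyS (Finset.mem_inter.mp h).1)] at h4
      omega
  · have hin : ∀ x ∈ S, x ∉ X → x ≠ v → x ∈ F := by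
      intro x hxS hxX hxv
      by_contra hxF
      rcases hd x (src_sdiff hxS hxF) hxv with h | h
      · exact hxX (hX x (hSU hxS) v hvU h).1
      · exact hvX (hX v hvU x (hSU hxS) h).1
    by_cases hvS : v ∈ S
    · have h1 : 0 < (S \ X).card := Finset.card_pos.mpr ⟨v, Finset.mem_sdiff.mpr ⟨hvS, hvX⟩⟩
      obtain ⟨x, hx⟩ := Finset.card_pos.mp (show 0 < (S ∩ X).card by omega)
      rw [Finset.mem_inter] at hx
      refine big hvS (key x hx.1 hx.2 (all hvS x hx.1 ?_))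
      rintro rfl
      exact hvX hx.2
    · apply hne
      symm
      apply Finset.eq_of_subset_of_card_le
      · intro x hx
        rw [Finset.mem_sdiff] at hx
        exact hin x hx.1 hx.2 (fun h => hvS (h ▸ hx.1))
      · exact hc.le

theorem src_sub (hi : ∀ x, ¬ r x x) (hu : Function.Injective u) (hX : Flat2 r X U) :
    Src r u (U \ (Src r u U \ X)) ⊆ X := by
  intro x hx
  by_contra hxX
  obtain ⟨h1, h2⟩ := mem_Src.mp hx
  rw [Finset.mem_sdiff] at h1
  apply h1.2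
  rw [Finset.mem_sdiff]
  refine ⟨mem_Src.mpr ⟨h1.1, fun y hy h => ?_⟩, hxX⟩
  have hyX : y ∈ X := by
    rcases h with h | h
    · exact absurd (hX x h1.1 y hy h).1 hxX
    · exact (hX y hy x h1.1 h).1
  exact h2 y (Finset.mem_sdiff.mpr ⟨hy, fun h3 => (Finset.mem_sdiff.mp h3).2 hyX⟩) h

end comb

section alg
variable {Q : Subring R} (hQ : ∀ F : R, F ∈ Q ↔ IsQS F)

theorem detect {χ φ ψ : Q →+* Q[X]} (gχ : Graded Q χ)
    (hinv : ∀ f, (ψ ((φ f).eval 1)).eval 1 = f) (h0 : ∀ f, (ψ f).coeff 0 = f)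
    {G H : Q} {a b i : ℕ} (hG : G ∈ homQ Q a) (hH : H ∈ homQ Q b) (hb : i < b)
    (hne : dd (cc Q) φ ψ ((χ (G * H)).coeff i) ≠ 0) :
    a ≤ i ∧ cc Q ((χ G).coeff a) ≠ 0 := by
  by_contra hcon
  apply hne
  rw [map_mul, coeff_mul, dd_sum]
  apply Finset.sum_eq_zero
  rintro ⟨p, q⟩ hpq
  rw [HasAntidiagonal.mem_antidiagonal] at hpq
  simp only at hpq ⊢
  rw [dd_mul hinv h0]
  have h1 : cc Q ((χ H).coeff q) = 0 :=
    cc_homQ ((gχ b H hH q).1 (by omega)) (by omega)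
  have h2 : cc Q ((χ G).coeff p) = 0 := by
    rcases lt_trichotomy p a with h | h | h
    · exact cc_homQ ((gχ a G hG p).1 h.le) (by omega)
    · by_contra h3
      exact hcon ⟨by omega, by rw [← h]; exact h3⟩
    · rw [(gχ a G hG p).2 h, map_zero]
  rw [h1, h2, zero_mul, zero_mul, add_zero]

variable {P : Type*} [Fintype P] [DecidableEq P] {Γ : Finset P → Q}
  (hcc : ∀ U, cc Q (Γ U) = if U = ∅ then 1 else 0)
  {r : P → P → Prop} (hi : ∀ x, ¬ r x x) {u : P → ℤ} (hu : Function.Injective u)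
  {φ ψ χ : Q →+* Q[X]} {ε ε' : Q} (hε : ε = 1 ∨ ε = -1) (hε' : ε' = 1 ∨ ε' = -1)
  (hφ : PeelE Γ (-ε) r (-u) φ) (hψ : PeelE Γ ε r u ψ) {w : P → ℤ}
  (hχ : PeelE Γ ε' (fun a b => r b a) w χ)

include hcc hi hu hε hε' hφ hψ hχ in
theorem dd_coeff {U X : Finset P} (hX : Flat2 r X U)
    (hiso : ∀ x ∈ U, ∃ y ∈ U, r x y ∨ r y x)
    (hcard : (Src r u U \ X).card ≤ (Src r u U ∩ X).card)
    {y₁ y₂ : P} (h₁ : y₁ ∈ U) (h₂ : y₂ ∈ U) (hne : y₁ ≠ y₂) (hX₁ : y₁ ∉ X) (hX₂ : y₂ ∉ X)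
    (hS₁ : y₁ ∉ Src r u U) (hS₂ : y₂ ∉ Src r u U)
    (hd : ∀ x ∈ Src r u (U \ (Src r u U \ X)), r x y₁ ∧ r x y₂) :
    dd (cc Q) φ ψ ((χ (Γ U)).coeff (Src r u U \ X).card) ≠ 0 := by
  classical
  set F₀ := Src r u U \ X with hF₀
  have hsub : F₀ ⊆ U := fun x hx => Src_subset (Finset.mem_sdiff.mp hx).1
  have hdd : ∀ (k : ℕ) (f : Q), dd (cc Q) φ ψ (ε' ^ k * f) = 0 ↔ dd (cc Q) φ ψ f = 0 := by
    intro k f
    have h1 : ε' ^ k = 1 ∨ ε' ^ k = -1 := by
      rcases hε' with h | h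
      · left; rw [h, one_pow]
      · rw [h]; exact neg_one_pow_eq_or Q k
    rcases h1 with h | h
    · rw [h, one_mul]
    · rw [h, neg_one_mul, dd_neg, neg_eq_zero]
  have h1 : dd (cc Q) φ ψ ((χ (Γ U)).coeff F₀.card) =
      dd (cc Q) φ ψ (ε' ^ F₀.card * Γ (U \ F₀)) := by
    rw [hχ U, finsetSum_coeff, dd_sum, Finset.sum_eq_single F₀]
    · rw [coeff_C_mul_X_pow, if_pos rfl]
    · intro F hF hne
      rw [mem_wks] at hF
      rw [coeff_C_mul_X_pow]
      split_ifs with h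
      · rw [hdd]
        apply dd_zero_of hε hi hu hφ hψ hcc (X := X)
          (fun a ha b hb => hX a (Finset.mem_sdiff.mp ha).1 b (Finset.mem_sdiff.mp hb).1)
        intro v hv
        exact noDom hi hu hX hiso hcard hF h.symm hne hv
      · exact dd_zero
    · intro h
      exfalso
      apply h
      rw [mem_wks]
      refine ⟨hsub, fun a ha b hb hab => ?_⟩
      exact absurd (hX b (hsub hb) a ha hab).1 (Finset.mem_sdiff.mp hb).2
  rw [h1, Ne, hdd]
  have m₁ : y₁ ∈ U \ F₀ := Finset.mem_sdiff.mpr ⟨h₁, fun h => hS₁ (Finset.mem_sdiff.mp h).1⟩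
  have m₂ : y₂ ∈ U \ F₀ := Finset.mem_sdiff.mpr ⟨h₂, fun h => hS₂ (Finset.mem_sdiff.mp h).1⟩
  exact dd_ne_zero hε hi hu hφ hψ hcc (X := X)
    (fun a ha b hb => hX a (Finset.mem_sdiff.mp ha).1 b (Finset.mem_sdiff.mp hb).1)
    (src_sub hi hu hX) m₁ m₂ hne hX₁ hX₂ (fun x hx _ => Or.inl (hd x hx).1)
    (fun x hx _ => Or.inl (hd x hx).2)

end alg

section final
variable {P : Type*} [Fintype P] [DecidableEq P] [PartialOrder P]
variable {Q : Subring R} (hQ : ∀ F : R, F ∈ Q ↔ IsQS F)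
include hQ

theorem lo_inv (c : Bool) (f : Q) : (lo hQ c ((lo hQ (!c) f).eval 1)).eval 1 = f := by
  cases c
  · exact lN_lE (bottom hQ) f
  · exact lE_lN (bottom hQ) f

theorem hi_inv (c : Bool) (f : Q) : (hi hQ c ((hi hQ (!c) f).eval 1)).eval 1 = f := by
  cases c
  · exact lN_lE (top hQ) f
  · exact lE_lN (top hQ) f

/-- a factor of small degree is detected by both letters -/
theorem irr_of_detect {ω : P → ℕ} (hω : Function.Injective ω) {U : Finset P} (x : P)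
    (hx : x ∈ U) {i : ℕ} (hbig : 2 * i < U.card)
    (hdet : ∀ (c : Bool) (G H : Q) (a b : ℕ), GamQ hQ ω U = G * H → G ∈ homQ Q a →
      H ∈ homQ Q b → i < b → a ≤ i ∧ IsUnit ((lo hQ c G).coeff a))
    (hz : ∃ c, (lo hQ c (GamQ hQ ω U)).eval (-(sg Q c * GamQ hQ ω {x})) ≠ 0 ∨
      (hi hQ c (GamQ hQ ω U)).eval (-(sg Q c * GamQ hQ ω {x})) ≠ 0) :
    Irreducible (GamQ hQ ω U) := by
  have hD : IsDomain R := NoZeroDivisors.to_isDomain R
  have hDQ : IsDomain Q := inferInstance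
  refine ⟨nonunit_of_nonempty hQ (GamQ_ne_zero hQ ω) (GamQ_homQ hQ ω) ⟨x, hx⟩,
    fun G H hK => ?_⟩
  by_contra hcon
  rw [not_or] at hcon
  have h0 : G * H ≠ 0 := by
    rw [← hK]
    exact GamQ_ne_zero hQ ω U
  obtain ⟨a, b, hab, hG, hH⟩ := homQ_factor hQ h0 (hK ▸ GamQ_homQ hQ ω U)
  have hG0 : G ≠ 0 := left_ne_zero_of_mul h0
  have hH0 : H ≠ 0 := right_ne_zero_of_mul h0
  have ha : a ≠ 0 := by
    rintro rfl
    exact hcon.1 (isUnit_of_homQ_zero hQ hG hG0)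
  have hb : b ≠ 0 := by
    rintro rfl
    exact hcon.2 (isUnit_of_homQ_zero hQ hH hH0)
  have hK' : GamQ hQ ω U = H * G := hK.trans (mul_comm _ _)
  have hno : ∀ {G H : Q} {b : ℕ}, GamQ hQ ω U = G * H → b ≠ 0 → H ∈ homQ Q b →
      (∀ c, IsUnit ((lo hQ c H).coeff b)) → False := by
    intro G H b hK hb hH hu
    obtain ⟨c, hc⟩ := hz
    have h1 := values_zero hQ hω x hK hb hH hu c
    rcases hc with h | h
    · exact h h1.1
    · exact h h1.2
  by_cases hbi : i < b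
  · exact hno hK' ha hG (fun c => (hdet c G H a b hK hG hH hbi).2)
  · exact hno hK hb hH (fun c => (hdet c H G b a hK' hH hG (by omega)).2)

/-- The criterion: `X` are the lower elements. -/
theorem h2_low {ω : P → ℕ} (hω : Function.Injective ω) (c : Bool) {U X : Finset P}
    (hX : Flat2 (fun a b : P => a < b) X U)
    (hiso : ∀ x ∈ U, ∃ y ∈ U, x < y ∨ y < x)
    (hcard : (Src (fun a b : P => a < b) (Cut.wt ω c) U \ X).card ≤
      (Src (fun a b : P => a < b) (Cut.wt ω c) U ∩ X).card)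
    (hbig : 2 * (Src (fun a b : P => a < b) (Cut.wt ω c) U \ X).card < U.card)
    {y₁ y₂ : P} (h₁ : y₁ ∈ U) (h₂ : y₂ ∈ U) (hne : y₁ ≠ y₂) (hX₁ : y₁ ∉ X) (hX₂ : y₂ ∉ X)
    (hS₁ : y₁ ∉ Src (fun a b : P => a < b) (Cut.wt ω c) U)
    (hS₂ : y₂ ∉ Src (fun a b : P => a < b) (Cut.wt ω c) U)
    (hd : ∀ x ∈ Src (fun a b : P => a < b) (Cut.wt ω c)
      (U \ (Src (fun a b : P => a < b) (Cut.wt ω c) U \ X)), x < y₁ ∧ x < y₂)
    (x : P) (hx : x ∈ U)
    (hz : ∃ c, (lo hQ c (GamQ hQ ω U)).eval (-(sg Q c * GamQ hQ ω {x})) ≠ 0 ∨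
      (hi hQ c (GamQ hQ ω U)).eval (-(sg Q c * GamQ hQ ω {x})) ≠ 0) :
    Irreducible (GamQ hQ ω U) := by
  apply irr_of_detect hQ hω x hx hbig ?_ hz
  intro k G H a b hK hG hH hb
  have h1 := dd_coeff (hcc := cc_GamQ hQ ω x) (r := fun a b : P => a < b)
    (fun x => lt_irrefl x) (wt_inj hω c) (sg_or (Q := Q) c) (sg_or (Q := Q) k)
    (by rw [← sg_not, ← wt_not]; exact peelE_lo hQ hω (!c))
    (peelE_lo hQ hω c) (peelE_hi hQ hω k) hX hiso hcard h₁ h₂ hne hX₁ hX₂ hS₁ hS₂ hd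
  rw [hK] at h1
  have h2 := detect (hi_graded hQ k) (lo_inv hQ c) (lo_zero hQ c) hG hH hb h1
  refine ⟨h2.1, ?_⟩
  rw [lo_hi_pair hQ k a G hG]
  apply isUnit_of_homQ_zero hQ
  · have := ((hi_graded hQ k) a G hG a).1 le_rfl
    rwa [Nat.sub_self] at this
  · intro h3
    apply h2.2
    rw [h3, map_zero]

/-- The criterion: `X` are the upper elements. -/
theorem h2_high {ω : P → ℕ} (hω : Function.Injective ω) (c : Bool) {U X : Finset P}
    (hX : Flat2 (fun a b : P => b < a) X U)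
    (hiso : ∀ x ∈ U, ∃ y ∈ U, y < x ∨ x < y)
    (hcard : (Src (fun a b : P => b < a) (Cut.wt ω c) U \ X).card ≤
      (Src (fun a b : P => b < a) (Cut.wt ω c) U ∩ X).card)
    (hbig : 2 * (Src (fun a b : P => b < a) (Cut.wt ω c) U \ X).card < U.card)
    {y₁ y₂ : P} (h₁ : y₁ ∈ U) (h₂ : y₂ ∈ U) (hne : y₁ ≠ y₂) (hX₁ : y₁ ∉ X) (hX₂ : y₂ ∉ X)
    (hS₁ : y₁ ∉ Src (fun a b : P => b < a) (Cut.wt ω c) U)
    (hS₂ : y₂ ∉ Src (fun a b : P => b < a) (Cut.wt ω c) U)
    (hd : ∀ x ∈ Src (fun a b : P => b < a) (Cut.wt ω c)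
      (U \ (Src (fun a b : P => b < a) (Cut.wt ω c) U \ X)), y₁ < x ∧ y₂ < x)
    (x : P) (hx : x ∈ U)
    (hz : ∃ c, (lo hQ c (GamQ hQ ω U)).eval (-(sg Q c * GamQ hQ ω {x})) ≠ 0 ∨
      (hi hQ c (GamQ hQ ω U)).eval (-(sg Q c * GamQ hQ ω {x})) ≠ 0) :
    Irreducible (GamQ hQ ω U) := by
  apply irr_of_detect hQ hω x hx hbig ?_ hz
  intro k G H a b hK hG hH hb
  have e1 := peelE_hi hQ hω c
  have e2 := peelE_hi hQ hω (!c)
  rw [Bool.not_not, sg_not] at e2
  rw [wt_not] at e1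
  have e1' : PeelE (GamQ hQ ω) (- -sg Q c) (fun a b : P => b < a) (-Cut.wt ω c) (hi hQ c) := by
    rw [neg_neg]
    exact e1
  have hs : -sg Q c = 1 ∨ -sg Q c = -1 := by
    rw [← sg_not]
    exact sg_or (!c)
  have h1 := dd_coeff (hcc := cc_GamQ hQ ω x) (r := fun a b : P => b < a)
    (fun x => lt_irrefl x) (wt_inj hω c) hs (sg_or (Q := Q) k)
    e1' e2 (peelE_lo hQ hω k) hX hiso hcard h₁ h₂ hne hX₁ hX₂ hS₁ hS₂ hd
  rw [hK] at h1
  have hinv : ∀ f : Q, (hi hQ (!c) ((hi hQ c f).eval 1)).eval 1 = f := by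
    intro f
    have := hi_inv hQ (!c) f
    rwa [Bool.not_not] at this
  have h2 := detect (lo_graded hQ k) hinv (hi_zero hQ (!c)) hG hH hb h1
  refine ⟨h2.1, ?_⟩
  apply isUnit_of_homQ_zero hQ
  · have := ((lo_graded hQ k) a G hG a).1 le_rfl
    rwa [Nat.sub_self] at this
  · intro h3
    apply h2.2
    rw [h3, map_zero]

end final

end Pool.Agent.Lib.MP_5bc52d_co.AA
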