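import Mathlib
import Pool.Agent.Lib.MP_5bc52d_co.Height2.Pair
import Pool.Agent.Lib.MP_5bc52d_co.Key.TopRule

/-!
# The function of a point does not divide the function of a set without chains of three elements
-/

open Finset Polynomial

set_option linter.unusedSectionVars false

namespace Pool.Agent.Lib.MP_5bc52d_co.Key

open Splitting Cyc Cut

section comb
variable {P : Type*} [Fintype P] [DecidableEq P]

theorem Src_inter {r : P → P → Prop} {w : P → ℤ} {U W : Finset P} (hWU : W ⊆ U) {x : P}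
    (hx : x ∈ Src r w U) (hxW : x ∈ W) : x ∈ Src r w W := by
  rw [mem_Src] at hx ⊢
  exact ⟨hxW, fun a ha => hx.2 a (hWU ha)⟩

open Classical in
/-- sets of minimal sources whose removal creates no new source -/
noncomputable def famI (r : P → P → Prop) (w : P → ℤ) (U : Finset P) : Finset (Finset P) :=
  ((Src r w U).filter (fun x => ∃ a ∈ U, r x a)).powerset.filter
    (fun I => ∀ y ∈ NT r w U, ∃ x ∈ U, x ∉ I ∧ r x y ∧ ¬ w y < w x)

open Classical in
/-- sets of maximal sources whose removal creates no new source -/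
noncomputable def famF (r : P → P → Prop) (w : P → ℤ) (U : Finset P) : Finset (Finset P) :=
  ((Src r w U).filter (fun x => ∃ a ∈ U, r a x)).powerset.filter
    (fun F => ∀ x ∈ NBt r w U, ∃ y ∈ U, y ∉ F ∧ r x y ∧ ¬ w x < w y)

theorem mem_famI {r : P → P → Prop} {w : P → ℤ} {U I : Finset P} :
    I ∈ famI r w U ↔ (∀ x ∈ I, x ∈ Src r w U ∧ ∃ a ∈ U, r x a) ∧
      ∀ y ∈ NT r w U, ∃ x ∈ U, x ∉ I ∧ r x y ∧ ¬ w y < w x := by
  classical
  rw [famI, Finset.mem_filter, Finset.mem_powerset]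
  apply and_congr_left'
  constructor
  · exact fun h x hx => Finset.mem_filter.mp (h hx)
  · exact fun h x hx => Finset.mem_filter.mpr (h x hx)

theorem mem_famF {r : P → P → Prop} {w : P → ℤ} {U F : Finset P} :
    F ∈ famF r w U ↔ (∀ x ∈ F, x ∈ Src r w U ∧ ∃ a ∈ U, r a x) ∧
      ∀ x ∈ NBt r w U, ∃ y ∈ U, y ∉ F ∧ r x y ∧ ¬ w x < w y := by
  classical
  rw [famF, Finset.mem_filter, Finset.mem_powerset]
  apply and_congr_left'
  constructor
  · exact fun h x hx => Finset.mem_filter.mp (h hx)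
  · exact fun h x hx => Finset.mem_filter.mpr (h x hx)

variable {r : P → P → Prop} {w : P → ℤ} {U : Finset P} (hU : Low r U)
include hU

theorem exists_in_of_NT {y : P} (hy : y ∈ NT r w U) : ∃ x ∈ U, r x y ∧ ¬ w y < w x := by
  obtain ⟨hyU, hs, a, ha, hay⟩ := mem_NT.mp hy
  rw [mem_Src] at hs
  push Not at hs
  obtain ⟨x, hx, hxy, hw⟩ := hs hyU
  rcases hxy with h | h
  · exact absurd h (hU a ha y hyU x hx hay)
  · exact ⟨x, hx, h, not_lt.mpr hw⟩

theorem exists_in_of_NB {x : P} (hx : x ∈ NBt r w U) : ∃ y ∈ U, r x y ∧ ¬ w x < w y := by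
  obtain ⟨hxU, hs, a, ha, hxa⟩ := mem_NBt.mp hx
  rw [mem_Src] at hs
  push Not at hs
  obtain ⟨y, hy, hxy, hw⟩ := hs hxU
  rcases hxy with h | h
  · exact ⟨y, hy, h, not_lt.mpr hw⟩
  · exact absurd hxa (hU y hy x hxU a ha h)

theorem empty_mem_famI : ∅ ∈ famI r w U := by
  rw [mem_famI]
  refine ⟨fun x hx => absurd hx (Finset.notMem_empty x), fun y hy => ?_⟩
  obtain ⟨x, hx, h1, h2⟩ := exists_in_of_NT hU hy
  exact ⟨x, hx, Finset.notMem_empty x, h1, h2⟩

theorem empty_mem_famF : ∅ ∈ famF r w U := by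
  rw [mem_famF]
  refine ⟨fun x hx => absurd hx (Finset.notMem_empty x), fun y hy => ?_⟩
  obtain ⟨x, hx, h1, h2⟩ := exists_in_of_NB hU hy
  exact ⟨x, hx, Finset.notMem_empty x, h1, h2⟩

theorem not_src_iff {W : Finset P} (hWU : W ⊆ U) {x : P} :
    (x ∈ NBt r w W ∨ x ∈ NT r w W) ↔ x ∈ W ∧ x ∉ Src r w W := by
  constructor
  · rintro (h | h)
    · exact ⟨(mem_NBt.mp h).1, (mem_NBt.mp h).2.1⟩
    · exact ⟨(mem_NT.mp h).1, (mem_NT.mp h).2.1⟩
  · rintro ⟨hx, hs⟩
    have h3 := hs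
    rw [mem_Src] at h3
    push Not at h3
    obtain ⟨a, ha, hxa, -⟩ := h3 hx
    rcases hxa with hxa | hxa
    · exact Or.inl (mem_NBt.mpr ⟨hx, hs, a, ha, hxa⟩)
    · exact Or.inr (mem_NT.mpr ⟨hx, hs, a, ha, hxa⟩)

theorem card_nonsrc {W : Finset P} (hWU : W ⊆ U) :
    (NBt r w W).card + (NT r w W).card = (W \ Src r w W).card := by
  have h1 := card_low (w := w) (hU.mono hWU)
  have h2 : Src r w W ⊆ W := fun x hx => (mem_Src.mp hx).1
  have h3 := Finset.card_sdiff_add_card_eq_card h2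
  omega

theorem nonsrc_sub {W : Finset P} (hWU : W ⊆ U) : W \ Src r w W ⊆ U \ Src r w U := by
  intro x hx
  rw [Finset.mem_sdiff] at hx ⊢
  exact ⟨hWU hx.1, fun h => hx.2 (Src_inter hWU h hx.1)⟩

theorem nonsrc_le {W : Finset P} (hWU : W ⊆ U) :
    (NBt r w W).card + (NT r w W).card ≤ (NBt r w U).card + (NT r w U).card := by
  rw [card_nonsrc hU hWU, card_nonsrc hU (Finset.Subset.refl U)]
  exact Finset.card_le_card (nonsrc_sub hU hWU)

/-- the optimal cuts come from the two families -/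
theorem fam_of_card (hiso : ∀ x ∈ U, ∃ y ∈ U, r x y ∨ r y x) {I J : Finset P} (hIU : I ⊆ U)
    (hI : ∀ a ∈ U, ∀ b ∈ I, r a b → a ∈ I) (hJ : J ∈ dn r (U \ I))
    (hc : (NBt r w J).card + (NT r w J).card = (NBt r w U).card + (NT r w U).card) :
    I ∈ famI r w U ∧ (U \ I) \ J ∈ famF r w U := by
  rw [mem_dn] at hJ
  have hJU : J ⊆ U := hJ.1.trans Finset.sdiff_subset
  have heq : J \ Src r w J = U \ Src r w U := by
    apply Finset.eq_of_subset_of_card_le (nonsrc_sub hU hJU)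
    rw [← card_nonsrc hU hJU, ← card_nonsrc hU (Finset.Subset.refl U), hc]
  have hns : ∀ x ∈ U, x ∉ Src r w U → x ∈ J ∧ x ∉ Src r w J := by
    intro x hx hs
    have : x ∈ J \ Src r w J := by
      rw [heq]
      exact Finset.mem_sdiff.mpr ⟨hx, hs⟩
    exact Finset.mem_sdiff.mp this
  have hIs : ∀ x ∈ I, x ∈ Src r w U := by
    intro x hx
    by_contra h
    exact (Finset.mem_sdiff.mp (hJ.1 (hns x (hIU hx) h).1)).2 hx
  have hFs : ∀ x ∈ (U \ I) \ J, x ∈ Src r w U := by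
    intro x hx
    rw [Finset.mem_sdiff, Finset.mem_sdiff] at hx
    by_contra h
    exact hx.2 (hns x hx.1.1 h).1
  constructor
  · rw [mem_famI]
    refine ⟨fun x hx => ⟨hIs x hx, ?_⟩, fun y hy => ?_⟩
    · obtain ⟨a, ha, h | h⟩ := hiso x (hIU hx)
      · exact ⟨a, ha, h⟩
      · exfalso
        have haI := hI a ha x hx h
        have h1 := (mem_Src.mp (hIs x hx)).2 a ha (Or.inr h)
        have h2 := (mem_Src.mp (hIs a haI)).2 x (hIU hx) (Or.inl h)
        omega
    · obtain ⟨hyU, hys, b, hb, hby⟩ := mem_NT.mp hy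
      obtain ⟨hyJ, hysJ⟩ := hns y hyU hys
      rw [mem_Src] at hysJ
      push Not at hysJ
      obtain ⟨a, ha, hya, hw⟩ := hysJ hyJ
      rcases hya with hya | hya
      · exact absurd hya (hU b hb y hyU a (hJU ha) hby)
      · exact ⟨a, hJU ha, (Finset.mem_sdiff.mp (hJ.1 ha)).2, hya, not_lt.mpr hw⟩
  · rw [mem_famF]
    refine ⟨fun x hx => ⟨hFs x hx, ?_⟩, fun y hy => ?_⟩
    · have hx' := hx
      rw [Finset.mem_sdiff, Finset.mem_sdiff] at hx'
      obtain ⟨a, ha, h | h⟩ := hiso x hx'.1.1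
      · exfalso
        have haI : a ∉ I := fun haI => hx'.1.2 (hI x hx'.1.1 a haI h)
        have haJ : a ∉ J := fun haJ => hx'.2 (hJ.2 x (Finset.mem_sdiff.mpr hx'.1) a haJ h)
        have haF : a ∈ (U \ I) \ J :=
          Finset.mem_sdiff.mpr ⟨Finset.mem_sdiff.mpr ⟨ha, haI⟩, haJ⟩
        have h1 := (mem_Src.mp (hFs x hx)).2 a ha (Or.inl h)
        have h2 := (mem_Src.mp (hFs a haF)).2 x hx'.1.1 (Or.inr h)
        omega
      · exact ⟨a, ha, h⟩
    · obtain ⟨hyU, hys, b, hb, hyb⟩ := mem_NBt.mp hy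
      obtain ⟨hyJ, hysJ⟩ := hns y hyU hys
      rw [mem_Src] at hysJ
      push Not at hysJ
      obtain ⟨a, ha, hya, hw⟩ := hysJ hyJ
      rcases hya with hya | hya
      · refine ⟨a, hJU ha, fun h => ?_, hya, not_lt.mpr hw⟩
        exact (Finset.mem_sdiff.mp h).2 ha
      · exact absurd hyb (hU a (hJU ha) y hyU b hb hya)

theorem fam_sets {I F : Finset P} (hI : I ∈ famI r w U) (hF : F ∈ famF r w U) :
    NT r w ((U \ I) \ F) = NT r w U ∧ NBt r w ((U \ I) \ F) = NBt r w U := by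
  rw [mem_famI] at hI
  rw [mem_famF] at hF
  set J := (U \ I) \ F with hJ
  have hJU : J ⊆ U := Finset.sdiff_subset.trans Finset.sdiff_subset
  have hmem : ∀ x, x ∈ J ↔ x ∈ U ∧ x ∉ I ∧ x ∉ F := by
    intro x
    rw [hJ, Finset.mem_sdiff, Finset.mem_sdiff, and_assoc]
  have hns : ∀ x ∈ U, x ∉ Src r w U → x ∈ J := fun x hx hs =>
    (hmem x).mpr ⟨hx, fun h => hs (hI.1 x h).1, fun h => hs (hF.1 x h).1⟩
  constructor
  · ext y
    constructor
    · intro hy
      obtain ⟨hyJ, hys, a, ha, hay⟩ := mem_NT.mp hy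
      exact mem_NT.mpr ⟨hJU hyJ, fun h => hys (Src_inter hJU h hyJ), a, hJU ha, hay⟩
    · intro hy
      obtain ⟨hyU, hys, -⟩ := mem_NT.mp hy
      obtain ⟨x, hx, hxI, hxy, hw⟩ := hI.2 y hy
      have hxF : x ∉ F := by
        intro h
        obtain ⟨-, a, ha, hax⟩ := hF.1 x h
        exact hU a ha x hx y hyU hax hxy
      have hxJ : x ∈ J := (hmem x).mpr ⟨hx, hxI, hxF⟩
      refine mem_NT.mpr ⟨hns y hyU hys, fun h => ?_, x, hxJ, hxy⟩
      exact hw ((mem_Src.mp h).2 x hxJ (Or.inr hxy))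
  · ext x
    constructor
    · intro hx
      obtain ⟨hxJ, hxs, a, ha, hxa⟩ := mem_NBt.mp hx
      exact mem_NBt.mpr ⟨hJU hxJ, fun h => hxs (Src_inter hJU h hxJ), a, hJU ha, hxa⟩
    · intro hx
      obtain ⟨hxU, hxs, -⟩ := mem_NBt.mp hx
      obtain ⟨y, hy, hyF, hxy, hw⟩ := hF.2 x hx
      have hyI : y ∉ I := by
        intro h
        obtain ⟨-, a, ha, hya⟩ := hI.1 y h
        exact hU x hxU y hy a ha hxy hya
      have hyJ : y ∈ J := (hmem y).mpr ⟨hy, hyI, hyF⟩
      refine mem_NBt.mpr ⟨hns x hxU hxs, fun h => ?_, y, hyJ, hxy⟩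
      exact hw ((mem_Src.mp h).2 y hyJ (Or.inl hxy))

theorem fam_wks {I F : Finset P} (hI : I ∈ famI r w U) (hF : F ∈ famF r w U) (v : P → ℤ) :
    I ∈ wks r v U ∧ (U \ I) \ F ∈ dn r (U \ I) ∧ Wk r v F F ∧ F ⊆ U \ I := by
  rw [mem_famI] at hI
  rw [mem_famF] at hF
  have hIU : I ⊆ U := fun x hx => (mem_Src.mp (hI.1 x hx).1).1
  have hFU : F ⊆ U := fun x hx => (mem_Src.mp (hF.1 x hx).1).1
  refine ⟨mem_wks.mpr ⟨hIU, fun a ha b hb hab => ?_⟩, mem_dn.mpr ⟨Finset.sdiff_subset,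
    fun a ha b hb hab => ?_⟩, ⟨Finset.Subset.refl F, fun a ha b hb hab => ?_⟩, fun x hx => ?_⟩
  · obtain ⟨-, c, hc, hbc⟩ := hI.1 b hb
    exact absurd hbc (hU a ha b (hIU hb) c hc hab)
  · refine Finset.mem_sdiff.mpr ⟨ha, fun haF => ?_⟩
    obtain ⟨-, c, hc, hca⟩ := hF.1 a haF
    have haU := (Finset.mem_sdiff.mp ha).1
    have hbU := (Finset.mem_sdiff.mp (Finset.mem_sdiff.mp hb).1).1
    exact hU c hc a haU b hbU hca hab
  · obtain ⟨-, c, hc, hca⟩ := hF.1 a ha
    exact absurd hab (hU c hc a (hFU ha) b (hFU hb) hca)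
  · refine Finset.mem_sdiff.mpr ⟨hFU hx, fun hxI => ?_⟩
    obtain ⟨-, a, ha, hxa⟩ := hI.1 x hxI
    obtain ⟨-, b, hb, hbx⟩ := hF.1 x hx
    exact hU b hb x (hFU hx) a ha hbx hxa

end comb

/-- the top coefficient of `X ^ p (1 - X) ^ q` -/
theorem coeff_two {B : Type*} [CommRing B] (p q : ℕ) {N : ℕ} (h : p + q ≤ N) :
    (X ^ p * (1 - X) ^ q : B[X]).coeff N = if p + q = N then (-1) ^ q else 0 := by
  rw [coeff_X_pow_mul', if_pos (by omega)]
  have h1 : (1 - X : B[X]) = C (-1) * (X - C 1) := by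
    simp only [C_neg, C_1]
    ring
  have h2 : ∀ m : ℕ, ((1 - X : B[X]) ^ q).coeff m = (-1) ^ q * ((X - C (1 : B)) ^ q).coeff m := by
    intro m
    rw [h1, mul_pow, ← C_pow, coeff_C_mul]
  rw [h2]
  nontriviality B
  have h3 : ((X - C (1 : B)) ^ q).natDegree = q := by
    rw [(monic_X_sub_C (1 : B)).natDegree_pow, natDegree_X_sub_C, mul_one]
  split_ifs with h4
  · have h5 : N - p = q := by omega
    have h6 : ((X - C (1 : B)) ^ q).coeff q = 1 := by
      have := ((monic_X_sub_C (1 : B)).pow q).coeff_natDegree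
      rwa [h3] at this
    rw [h5, h6, mul_one]
  · rw [coeff_eq_zero_of_natDegree_lt (by rw [h3]; omega), mul_zero]

section top
variable {P : Type*} [Fintype P] [DecidableEq P] {B : Type*} [CommRing B]
variable {r : P → P → Prop} (ht : ∀ x y z, r x y → r y z → r x z)
  {v : Bool → P → ℤ} (hv : ∀ c p, v (!c) p = - v c p) {U : Finset P} (hU : Low r U)
  (hiso : ∀ x ∈ U, ∃ y ∈ U, r x y ∨ r y x)
include ht hv hU hiso

/-- the top coefficient of the value on `c(a) c'(X) c(1 - X) c(b)` -/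
theorem coeff_top (c : Bool) (a b : B) :
    (NL r v [(c, C a), (!c, X), (c, 1 - X), (c, C b)] U).coeff
        ((NBt r (v c) U).card + (NT r (v c) U).card) =
      (-1) ^ (NT r (v c) U).card *
        ((∑ I ∈ famI r (v c) U, a ^ I.card) * ∑ F ∈ famF r (v c) U, b ^ F.card) := by
  classical
  set N := (NBt r (v c) U).card + (NT r (v c) U).card with hN
  have h1 : NL r v [(c, C a), (!c, X), (c, 1 - X), (c, C b)] U =
      ∑ I ∈ wks r (v c) U, ∑ J ∈ dn r (U \ I), C a ^ I.card *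
        ((X ^ (NBt r (v c) J).card * (1 - X) ^ (NT r (v c) J).card) *
          (if Wk r (v c) ((U \ I) \ J) ((U \ I) \ J) then C b ^ ((U \ I) \ J).card else 0)) := by
    rw [NL]
    apply Finset.sum_congr rfl
    intro I hI
    have h2 : NL r v [(!c, (X : B[X])), (c, 1 - X), (c, C b)] (U \ I) =
        NL r v ([(!c, (X : B[X])), (c, 1 - X)] ++ [(c, C b)]) (U \ I) := rfl
    rw [h2, NL_append, Finset.mul_sum]
    apply Finset.sum_congr rfl
    intro J hJ
    have hJU : J ⊆ U := (mem_dn.mp hJ).1.trans Finset.sdiff_subset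
    rw [NL_single, NL_low (hU.mono hJU) ht hv c rfl]
    have h3 : (X + (1 - X) : B[X]) = 1 := by ring
    rw [h3, one_pow, mul_one]
  rw [h1, finsetSum_coeff]
  simp only [finsetSum_coeff]
  have hle : ∀ J : Finset P, J ⊆ U → (NBt r (v c) J).card + (NT r (v c) J).card ≤ N :=
    fun J hJ => nonsrc_le hU hJ
  have h4 : ∀ I ∈ wks r (v c) U, ∀ J ∈ dn r (U \ I),
      (C a ^ I.card * ((X ^ (NBt r (v c) J).card * (1 - X) ^ (NT r (v c) J).card) *
          (if Wk r (v c) ((U \ I) \ J) ((U \ I) \ J) then C b ^ ((U \ I) \ J).card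
            else 0)) : B[X]).coeff N =
        (if (NBt r (v c) J).card + (NT r (v c) J).card = N then (-1) ^ (NT r (v c) J).card
          else 0) * (a ^ I.card * (if Wk r (v c) ((U \ I) \ J) ((U \ I) \ J) then
            b ^ ((U \ I) \ J).card else 0)) := by
    intro I _ J hJ
    have hJU : J ⊆ U := (mem_dn.mp hJ).1.trans Finset.sdiff_subset
    rw [← coeff_two _ _ (hle J hJU)]
    split_ifs with h5
    · rw [← C_pow, ← C_pow]
      have h6 : (C (a ^ I.card) * ((X ^ (NBt r (v c) J).card * (1 - X) ^ (NT r (v c) J).card) *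
          C (b ^ ((U \ I) \ J).card)) : B[X]) =
          C (a ^ I.card * b ^ ((U \ I) \ J).card) *
            (X ^ (NBt r (v c) J).card * (1 - X) ^ (NT r (v c) J).card) := by
        rw [C_mul]
        ring
      rw [h6, coeff_C_mul]
      ring
    · rw [mul_zero, mul_zero, coeff_zero, mul_zero, mul_zero]
  rw [Finset.sum_congr rfl (fun I hI => Finset.sum_congr rfl (h4 I hI)), Finset.sum_sigma',
    Finset.sum_mul_sum, ← Finset.sum_product', Finset.mul_sum]
  symm
  refine Finset.sum_of_injOn (fun p : Finset P × Finset P =>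
    (⟨p.1, (U \ p.1) \ p.2⟩ : (_ : Finset P) × Finset P)) ?_ ?_ ?_ ?_
  · rintro ⟨I, F⟩ hp ⟨I', F'⟩ hp' heq
    rw [Finset.mem_coe, Finset.mem_product] at hp hp'
    simp only [Sigma.mk.injEq, heq_eq_eq] at heq
    obtain ⟨rfl, h5⟩ := heq
    have h6 := (fam_wks hU hp.1 hp.2 (v c)).2.2.2
    have h7 := (fam_wks hU hp'.1 hp'.2 (v c)).2.2.2
    have h8 : F = F' := by
      simp only at h6 h7
      rw [← Finset.sdiff_sdiff_eq_self h6, h5, Finset.sdiff_sdiff_eq_self h7]
    rw [h8]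
  · rintro ⟨I, F⟩ hp
    rw [Finset.mem_coe, Finset.mem_product] at hp
    rw [Finset.mem_coe, Finset.mem_sigma]
    have h5 := fam_wks hU hp.1 hp.2 (v c)
    exact ⟨h5.1, h5.2.1⟩
  · rintro ⟨I, J⟩ hp hnot
    rw [Finset.mem_sigma] at hp
    simp only at hp
    simp only
    by_contra hne
    have h5 : (NBt r (v c) J).card + (NT r (v c) J).card = N := by
      by_contra h
      rw [if_neg h, zero_mul] at hne
      exact hne rfl
    have hI := mem_wks.mp hp.1
    have h6 := fam_of_card hU hiso hI.1 (fun a ha b hb hab => (hI.2 a ha b hb hab).1) hp.2 h5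
    apply hnot
    refine ⟨(I, (U \ I) \ J), Finset.mem_coe.mpr (Finset.mem_product.mpr h6), ?_⟩
    simp only [Sigma.mk.injEq, heq_eq_eq, true_and]
    exact Finset.sdiff_sdiff_eq_self (mem_dn.mp hp.2).1
  · rintro ⟨I, F⟩ hp
    rw [Finset.mem_product] at hp
    simp only at hp
    simp only
    obtain ⟨h5, h6⟩ := fam_sets hU hp.1 hp.2
    have h7 := (fam_wks hU hp.1 hp.2 (v c))
    rw [h5, h6, if_pos rfl, Finset.sdiff_sdiff_eq_self h7.2.2.2, if_pos h7.2.2.1]

end top

section inst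
variable {P : Type*} [Fintype P] [DecidableEq P] [PartialOrder P]
variable {Q : Subring R} (hQ : ∀ F : R, F ∈ Q ↔ IsQS F)
include hQ

/-- **The function of a point does not divide the function of a nonempty set without chains of
three elements and without isolated elements.** -/
theorem not_dvd_low {ω : P → ℕ} (hω : Function.Injective ω) (x : P) {U : Finset P}
    (hU : Low (fun a b : P => a < b) U) (hiso : ∀ x ∈ U, ∃ y ∈ U, x < y ∨ y < x) :
    ¬ GamQ hQ ω {x} ∣ GamQ hQ ω U := by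
  classical
  intro hd
  have h1 := NL_zero (P := P) (A := Q) (B := ℚ[X][X]) (cc := (C.comp C).comp (cc Q))
    (F := lo hQ) (Γ := GamQ hQ ω) (s := sg Q) (r := fun a b : P => a < b) (v := Cut.wt ω)
    (fun x => lt_irrefl x) rfl rfl (fun V => by
      rw [RingHom.comp_apply, cc_GamQ hQ ω x V]
      split_ifs
      · rw [map_one]
      · rw [map_zero]) (fun c => peelE_lo hQ hω c) hd
    (l := [(true, C X), (!true, X), (true, 1 - X), (true, C (-1 - X))]) (by
      simp only [List.map_cons, List.map_nil, List.sum_cons, List.sum_nil, C_sub, C_neg, C_1]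
      ring)
  have h2 := congrArg (fun p : ℚ[X][X] => p.coeff
    ((NBt (fun a b : P => a < b) (Cut.wt ω true) U).card +
      (NT (fun a b : P => a < b) (Cut.wt ω true) U).card)) h1
  simp only [coeff_zero] at h2
  have h5 := coeff_top (r := fun a b : P => a < b) (fun x y z h1 h2 => lt_trans h1 h2)
    (wt_hv hQ ω) hU hiso true (X : ℚ[X]) (-1 - X)
  replace h2 := h5.symm.trans h2
  have h3 : ∀ (fam : Finset (Finset P)) (p : ℚ[X]) (z : ℚ), ∅ ∈ fam → p.eval z = 0 →
      (∑ I ∈ fam, p ^ I.card) ≠ 0 := by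
    intro fam p z hfam hz h
    have h4 := congrArg (fun q : ℚ[X] => q.eval z) h
    simp only [eval_finsetSum, eval_pow, hz, eval_zero] at h4
    rw [Finset.sum_eq_single ∅] at h4
    · simp at h4
    · intro I _ hne
      exact zero_pow (Finset.card_pos.mpr (Finset.nonempty_iff_ne_empty.mpr hne)).ne'
    · exact fun h => absurd hfam h
  exact mul_ne_zero (pow_ne_zero _ (neg_ne_zero.mpr one_ne_zero))
    (mul_ne_zero (h3 _ _ 0 (empty_mem_famI hU) (by simp))
      (h3 _ _ (-1) (empty_mem_famF hU) (by simp))) h2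

end inst

end Pool.Agent.Lib.MP_5bc52d_co.Key
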