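import Pool.Agent.Lib.MP_5bc52d_co.AA.Corner
import Pool.Agent.Lib.MP_5bc52d_co.AA.H2
import Pool.Agent.Lib.MP_5bc52d_co.AA.Zeta

/-!
# Three layers: the deterministic part

A labelled poset with three layers is irreducible as soon as its corner is empty, the five sets of
exceptional elements are small and the common neighbourhoods are large.
-/

open Finset Polynomial

set_option linter.unusedSectionVars false

namespace Pool.Agent.Lib.MP_5bc52d_co.AA

open Splitting Cyc Cut Key

section alg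
variable {P : Type*} [Fintype P] [DecidableEq P] [PartialOrder P]
variable {Q : Subring R} (hQ : ∀ F : R, F ∈ Q ↔ IsQS F)
include hQ

/-- if the function of a point is no divisor then the values at `-T` do not vanish -/
theorem eval_ne_zero {ω : P → ℕ} (x : P) {U : Finset P}
    (h : ¬ GamQ hQ ω {x} ∣ GamQ hQ ω U) :
    ∃ c, (lo hQ c (GamQ hQ ω U)).eval (-(sg Q c * GamQ hQ ω {x})) ≠ 0 ∨
      (hi hQ c (GamQ hQ ω U)).eval (-(sg Q c * GamQ hQ ω {x})) ≠ 0 := by
  refine ⟨true, Or.inl fun h0 => h ?_⟩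
  have h1 := lo_zero hQ true (GamQ hQ ω U)
  have h2 := Polynomial.eval_dvd (x := -(sg Q true * GamQ hQ ω {x}))
    (Polynomial.X_dvd_sub_C (p := lo hQ true (GamQ hQ ω U)))
  rw [eval_X, eval_sub, eval_C, h0, h1, zero_sub, neg_dvd, dvd_neg] at h2
  exact dvd_of_mul_left_dvd h2

end alg

section comb
variable {V : Type*} [Fintype V] [DecidableEq V] [PartialOrder V]

open Classical in
/-- the elements of `S` with at most `k` smaller elements in `N x` -/
noncomputable def fewL (ω : V → ℕ) (S : Finset V) (N : V → Finset V) (k : ℕ) : Finset V :=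
  S.filter fun x => ((N x).filter fun y => ω y < ω x).card ≤ k

open Classical in
/-- the upper neighbours in `C` -/
noncomputable def upN (C : Finset V) (x : V) : Finset V := C.filter fun y => x < y

open Classical in
/-- the lower neighbours in `B` -/
noncomputable def dnN (B : Finset V) (x : V) : Finset V := B.filter fun y => y < x

open Classical in
/-- the elements of `B` with only smaller elements of `A` below -/
noncomputable def topL (ω : V → ℕ) (A B : Finset V) : Finset V :=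
  B.filter fun x => ∀ y ∈ dnN A x, ω y < ω x

variable {A B C : Finset V} {ω : V → ℕ}

theorem mem_upN {x y : V} : y ∈ upN C x ↔ y ∈ C ∧ x < y := by
  classical
  rw [upN, Finset.mem_filter]

theorem mem_dnN {x y : V} : y ∈ dnN B x ↔ y ∈ B ∧ y < x := by
  classical
  rw [dnN, Finset.mem_filter]

/-- the rest after the weak initial part -/
noncomputable def rest (ω : V → ℕ) : Finset V :=
  Finset.univ \ AL (fun a b : V => a < b) (wt ω true) Finset.univ

theorem C_sub_rest (hL : Lay A B C) (hcor : ¬ ∃ x, CornerAt ω x) : C ⊆ rest ω := by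
  intro c hc
  refine Finset.mem_sdiff.mpr ⟨Finset.mem_univ _, fun h => hcor ⟨c, ?_, ?_⟩⟩
  · intro a b hab hbx
    have h1 := (mem_AL.mp h).2 a (Finset.mem_univ _) b (Finset.mem_univ _) hab hbx.eq_or_lt
    simpa using (wt_lt ω true a b).mp h1
  · intro a b hxa hab
    exfalso
    rcases hL.rel c b (lt_of_le_of_lt hxa hab) with h | h | h
    · exact Finset.disjoint_left.mp hL.dAC h.1 hc
    · exact Finset.disjoint_left.mp hL.dBC h.1 hc
    · exact Finset.disjoint_left.mp hL.dAC h.1 hc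

theorem A_rest (hL : Lay A B C) {a : V} (ha : a ∈ A) : a ∉ rest ω := by
  intro h
  rw [rest, Finset.mem_sdiff] at h
  apply h.2
  have hmin : ∀ y, ¬ y < a := by
    intro y hy
    rcases hL.rel y a hy with h | h | h
    · exact Finset.disjoint_left.mp hL.dAB ha h.2
    · exact Finset.disjoint_left.mp hL.dAC ha h.2
    · exact Finset.disjoint_left.mp hL.dAC ha h.2
  refine mem_AL.mpr ⟨Finset.mem_univ _, fun a' _ b' _ hab hb => ?_⟩
  rcases hb with hb | hb
  · exact absurd (hb ▸ hab) (hmin a')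
  · exact absurd hb (hmin b')

theorem rest_sub (hL : Lay A B C) {x : V} (hx : x ∈ rest ω) : x ∈ B ∨ x ∈ C := by
  rcases hL.cover x with h | h | h
  · exact absurd hx (A_rest hL h)
  · exact Or.inl h
  · exact Or.inr h

theorem sdiff_rest_sub (A : Finset V) : B \ rest ω ⊆ topL ω A B := by
  classical
  intro b hb
  rw [Finset.mem_sdiff, rest, Finset.mem_sdiff, not_and, not_not] at hb
  have h1 := hb.2 (Finset.mem_univ _)
  refine Finset.mem_filter.mpr ⟨hb.1, fun a ha => ?_⟩
  have h2 := (mem_AL.mp h1).2 a (Finset.mem_univ _) b (Finset.mem_univ _) (mem_dnN.mp ha).2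
    (Or.inl rfl)
  simpa using (wt_lt ω true a b).mp h2

theorem flat_B (hL : Lay A B C) {W : Finset V} (hW : W ⊆ rest ω) :
    Flat2 (fun a b : V => a < b) B W := by
  intro a ha b _ hab
  rcases hL.rel a b hab with h | h | h
  · exact absurd (hW ha) (A_rest hL h.1)
  · exact ⟨h.1, fun hb => Finset.disjoint_left.mp hL.dBC hb h.2⟩
  · exact absurd (hW ha) (A_rest hL h.1)

theorem flat_C (hL : Lay A B C) {W : Finset V} (hW : W ⊆ rest ω) :
    Flat2 (fun a b : V => b < a) C W := by
  intro a _ b hb hab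
  rcases hL.rel b a hab with h | h | h
  · exact absurd (hW hb) (A_rest hL h.1)
  · exact ⟨h.2, fun hb' => Finset.disjoint_left.mp hL.dBC h.1 hb'⟩
  · exact absurd (hW hb) (A_rest hL h.1)

theorem src_eq (W : Finset V) : Src (fun a b : V => b < a) (Cut.wt ω true) W =
    Src (fun a b : V => a < b) (Cut.wt ω true) W := by
  ext x
  rw [mem_Src, mem_Src]
  constructor
  · exact fun h => ⟨h.1, fun a ha hax => h.2 a ha hax.symm⟩
  · exact fun h => ⟨h.1, fun a ha hax => h.2 a ha hax.symm⟩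

theorem src_lt {W : Finset V} {x y : V} (hx : x ∈ Src (fun a b : V => a < b) (Cut.wt ω true) W)
    (hy : y ∈ W) (h : x < y ∨ y < x) : ω x < ω y := by
  have h1 := (mem_Src.mp hx).2 y hy h
  simpa using (wt_lt ω true x y).mp h1

end comb

section main
variable {V : Type*} [Fintype V] [DecidableEq V] [PartialOrder V]
variable {Q : Subring R} (hQ : ∀ F : R, F ∈ Q ↔ IsQS F)
include hQ

/-- **The deterministic part.** -/
theorem det_core {ω : V → ℕ} (hω : Function.Injective ω) {A B C : Finset V}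
    (hL : Lay A B C) {d : ℝ} (hD : Deg (fun x y : V => x < y) A B C d) {K₀ K₁ K₂ L : ℕ}
    (hC : Com (fun x y : V => x < y) B C K₂ L) (hcor : ¬ ∃ x, CornerAt ω x)
    (h0 : (topL ω A B).card ≤ K₀) (h1 : (fewL ω C (dnN B) K₀).card ≤ K₁)
    (h2 : (fewL ω B (upN C) 0).card ≤ K₁) (h3 : (fewL ω B (upN C) K₁).card ≤ K₂)
    (h4 : (fewL ω C (dnN B) (K₀ + K₁)).card ≤ K₂) (hd : (K₀ : ℝ) < d)
    (hLK : K₀ + K₁ + 2 ≤ L) (hCc : 2 * K₁ < C.card) :
    Irreducible (GamQ hQ ω Finset.univ) := by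
  classical
  apply rule_low hQ hω Finset.univ true true (disjoint_of_not_corner hcor)
  change Irreducible (GamQ hQ ω (rest ω))
  have hCU := C_sub_rest hL hcor
  have hB0 : (B \ rest ω).card ≤ K₀ := (Finset.card_le_card (sdiff_rest_sub A)).trans h0
  have hd0 : 0 < d := lt_of_le_of_lt (Nat.cast_nonneg _) hd
  -- neighbours
  have hup : ∀ b ∈ B, ∃ c ∈ C, b < c := by
    intro b hb
    have h := lt_of_lt_of_le hd0 (hD.bc b hb)
    have h' : 0 < (C.filter fun c => b < c).card := by
      have : (0 : ℝ) < ((C.filter fun c => b < c).card : ℝ) := by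
        convert h using 2
      exact_mod_cast this
    obtain ⟨c, hc⟩ := Finset.card_pos.mp h'
    exact ⟨c, (Finset.mem_filter.mp hc).1, (Finset.mem_filter.mp hc).2⟩
  have hdn : ∀ c ∈ C, ∃ b ∈ B, b ∈ rest ω ∧ b < c := by
    intro c hc
    have h := lt_of_lt_of_le hd (hD.cb c hc)
    have h' : K₀ < (B.filter fun b => b < c).card := by
      have : (K₀ : ℝ) < ((B.filter fun b => b < c).card : ℝ) := by
        convert h using 2
      exact_mod_cast this
    by_contra hcon
    push Not at hcon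
    have hsub : (B.filter fun b => b < c) ⊆ B \ rest ω := by
      intro b hb
      obtain ⟨hbB, hbc⟩ := Finset.mem_filter.mp hb
      exact Finset.mem_sdiff.mpr ⟨hbB, fun hbr => hcon b hbB hbr hbc⟩
    have := Finset.card_le_card hsub
    omega
  have hiso : ∀ x ∈ rest ω, ∃ y ∈ rest ω, x < y ∨ y < x := by
    intro x hx
    rcases rest_sub hL hx with hxB | hxC
    · obtain ⟨c, hc, hbc⟩ := hup x hxB
      exact ⟨c, hCU hc, Or.inl hbc⟩
    · obtain ⟨b, _, hbr, hbc⟩ := hdn x hxC
      exact ⟨b, hbr, Or.inr hbc⟩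
  have hCne : C.Nonempty := Finset.card_pos.mp (by omega)
  obtain ⟨c₀, hc₀⟩ := hCne
  have hlow : Low (fun a b : V => a < b) (rest ω) := by
    intro a ha b hb c hc hab hbc
    exact (flat_B hL (Finset.Subset.refl _) a ha b hb hab).2
      (flat_B hL (Finset.Subset.refl _) b hb c hc hbc).1
  have hz := eval_ne_zero hQ c₀ (not_dvd_low hQ hω c₀ hlow hiso)
  set S := Src (fun a b : V => a < b) (Cut.wt ω true) (rest ω) with hS
  have hSU : S ⊆ rest ω := fun x hx => (mem_Src.mp hx).1
  have hSC : S \ B ⊆ fewL ω C (dnN B) K₀ := by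
    intro x hx
    obtain ⟨hxS, hxB⟩ := Finset.mem_sdiff.mp hx
    have hxC : x ∈ C := (rest_sub hL (hSU hxS)).resolve_left hxB
    refine Finset.mem_filter.mpr ⟨hxC, le_trans (Finset.card_le_card ?_) hB0⟩
    intro y hy
    obtain ⟨hy1, hy2⟩ := Finset.mem_filter.mp hy
    obtain ⟨hyB, hyx⟩ := mem_dnN.mp hy1
    refine Finset.mem_sdiff.mpr ⟨hyB, fun hyr => ?_⟩
    have := src_lt hxS hyr (Or.inr hyx)
    omega
  have hSB : S \ C ⊆ fewL ω B (upN C) 0 := by
    intro x hx
    obtain ⟨hxS, hxC⟩ := Finset.mem_sdiff.mp hx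
    have hxB : x ∈ B := (rest_sub hL (hSU hxS)).resolve_right hxC
    refine Finset.mem_filter.mpr ⟨hxB, ?_⟩
    rw [Nat.le_zero, Finset.card_eq_zero, Finset.filter_eq_empty_iff]
    intro y hy
    obtain ⟨hyC, hxy⟩ := mem_upN.mp hy
    have := src_lt hxS (hCU hyC) (Or.inl hxy)
    omega
  have hSBc : S \ B = S ∩ C := by
    ext x
    rw [Finset.mem_sdiff, Finset.mem_inter]
    constructor
    · exact fun h => ⟨h.1, (rest_sub hL (hSU h.1)).resolve_left h.2⟩
    · exact fun h => ⟨h.1, fun hB => Finset.disjoint_left.mp hL.dBC hB h.2⟩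
  have hSCc : S \ C = S ∩ B := by
    ext x
    rw [Finset.mem_sdiff, Finset.mem_inter]
    constructor
    · exact fun h => ⟨h.1, (rest_sub hL (hSU h.1)).resolve_right h.2⟩
    · exact fun h => ⟨h.1, fun hC => Finset.disjoint_left.mp hL.dBC h.2 hC⟩
  have hSB1 : (S \ B).card ≤ K₁ := (Finset.card_le_card hSC).trans h1
  have hSC1 : (S \ C).card ≤ K₁ := (Finset.card_le_card hSB).trans h2
  -- two elements outside a small set
  have two : ∀ (T F : Finset V), L ≤ T.card → F.card ≤ K₀ + K₁ →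
      ∃ y₁ ∈ T, ∃ y₂ ∈ T, y₁ ≠ y₂ ∧ y₁ ∉ F ∧ y₂ ∉ F := by
    intro T F hT hF
    have h : 1 < (T \ F).card := by
      have := Finset.le_card_sdiff F T
      omega
    obtain ⟨y₁, hy₁, y₂, hy₂, hne⟩ := Finset.one_lt_card.mp h
    rw [Finset.mem_sdiff] at hy₁ hy₂
    exact ⟨y₁, hy₁.1, y₂, hy₂.1, hne, hy₁.2, hy₂.2⟩
  by_cases hcase : (S \ B).card ≤ (S ∩ B).card
  · -- the sources are mostly in the middle layer
    have hS' : Src (fun a b : V => a < b) (Cut.wt ω true) (rest ω \ (S \ B)) ⊆ B :=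
      src_sub (fun x => lt_irrefl x) (wt_inj hω true) (flat_B hL (Finset.Subset.refl _))
    have hS'' : Src (fun a b : V => a < b) (Cut.wt ω true) (rest ω \ (S \ B)) ⊆
        fewL ω B (upN C) K₁ := by
      intro x hx
      refine Finset.mem_filter.mpr ⟨hS' hx, le_trans (Finset.card_le_card ?_) hSB1⟩
      intro y hy
      obtain ⟨hy1, hy2⟩ := Finset.mem_filter.mp hy
      obtain ⟨hyC, hxy⟩ := mem_upN.mp hy1
      by_contra hyS
      have := src_lt hx (Finset.mem_sdiff.mpr ⟨hCU hyC, hyS⟩) (Or.inl hxy)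
      omega
    have hT : L ≤ (C.filter fun c => ∀ b ∈ Src (fun a b : V => a < b) (Cut.wt ω true)
        (rest ω \ (S \ B)), b < c).card := by
      convert hC.up _ hS' ((Finset.card_le_card hS'').trans h3)
    obtain ⟨y₁, hy₁, y₂, hy₂, hne, hn₁, hn₂⟩ := two _ (S \ B) hT (by omega)
    replace hy₁ := Finset.mem_filter.mp hy₁
    replace hy₂ := Finset.mem_filter.mp hy₂
    have hB₁ : y₁ ∉ B := fun h => Finset.disjoint_left.mp hL.dBC h hy₁.1
    have hB₂ : y₂ ∉ B := fun h => Finset.disjoint_left.mp hL.dBC h hy₂.1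
    refine h2_low hQ hω true (X := B) (flat_B hL (Finset.Subset.refl _)) hiso hcase ?_
      (hCU hy₁.1) (hCU hy₂.1) hne hB₁ hB₂
      (fun h => hn₁ (Finset.mem_sdiff.mpr ⟨h, hB₁⟩)) (fun h => hn₂ (Finset.mem_sdiff.mpr ⟨h, hB₂⟩))
      (fun x hx => ⟨hy₁.2 x hx, hy₂.2 x hx⟩) c₀ (hCU hc₀) hz
    have h5 := Finset.card_le_card hCU
    change 2 * (S \ B).card < _
    omega
  · -- the sources are mostly in the top layer
    have hS' : Src (fun a b : V => b < a) (Cut.wt ω true) (rest ω \
        (Src (fun a b : V => b < a) (Cut.wt ω true) (rest ω) \ C)) ⊆ C :=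
      src_sub (fun x => lt_irrefl x) (wt_inj hω true) (flat_C hL (Finset.Subset.refl _))
    have hS'' : Src (fun a b : V => b < a) (Cut.wt ω true) (rest ω \
        (Src (fun a b : V => b < a) (Cut.wt ω true) (rest ω) \ C)) ⊆
        fewL ω C (dnN B) (K₀ + K₁) := by
      intro x hx
      refine Finset.mem_filter.mpr ⟨hS' hx, ?_⟩
      rw [src_eq, src_eq, ← hS] at hx
      refine le_trans (Finset.card_le_card (t := (B \ rest ω) ∪ (S \ C)) ?_)
        ((Finset.card_union_le _ _).trans (Nat.add_le_add hB0 hSC1))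
      intro y hy
      obtain ⟨hy1, hy2⟩ := Finset.mem_filter.mp hy
      obtain ⟨hyB, hyx⟩ := mem_dnN.mp hy1
      by_contra hyS
      rw [Finset.mem_union, not_or] at hyS
      have hyr : y ∈ rest ω := by
        by_contra h
        exact hyS.1 (Finset.mem_sdiff.mpr ⟨hyB, h⟩)
      have := src_lt hx (Finset.mem_sdiff.mpr ⟨hyr, hyS.2⟩) (Or.inr hyx)
      omega
    have hT : L ≤ (B.filter fun b => ∀ c ∈ Src (fun a b : V => b < a) (Cut.wt ω true) (rest ω \
        (Src (fun a b : V => b < a) (Cut.wt ω true) (rest ω) \ C)), b < c).card := by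
      convert hC.dn _ hS' ((Finset.card_le_card hS'').trans h4)
    obtain ⟨y₁, hy₁, y₂, hy₂, hne, hn₁, hn₂⟩ := two _ ((B \ rest ω) ∪ (S \ C)) hT
      ((Finset.card_union_le _ _).trans (Nat.add_le_add hB0 hSC1))
    replace hy₁ := Finset.mem_filter.mp hy₁
    replace hy₂ := Finset.mem_filter.mp hy₂
    rw [Finset.mem_union, not_or] at hn₁ hn₂
    have hC₁ : y₁ ∉ C := fun h => Finset.disjoint_left.mp hL.dBC hy₁.1 h
    have hC₂ : y₂ ∉ C := fun h => Finset.disjoint_left.mp hL.dBC hy₂.1 h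
    have hr₁ : y₁ ∈ rest ω := by
      by_contra h
      exact hn₁.1 (Finset.mem_sdiff.mpr ⟨hy₁.1, h⟩)
    have hr₂ : y₂ ∈ rest ω := by
      by_contra h
      exact hn₂.1 (Finset.mem_sdiff.mpr ⟨hy₂.1, h⟩)
    have hlt : (S \ C).card < (S ∩ C).card := by
      rw [hSCc, ← hSBc]
      omega
    refine h2_high hQ hω true (X := C) (flat_C hL (Finset.Subset.refl _))
      (fun x hx => ?_) ?_ ?_ hr₁ hr₂ hne hC₁ hC₂ ?_ ?_
      (fun x hx => ⟨hy₁.2 x hx, hy₂.2 x hx⟩) c₀ (hCU hc₀) hz
    · obtain ⟨y, hy, h⟩ := hiso x hx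
      exact ⟨y, hy, h.symm⟩
    · rw [src_eq, ← hS]
      exact hlt.le
    · rw [src_eq, ← hS]
      have h5 := Finset.card_sdiff_add_card_inter S C
      have h6 := Finset.card_le_card hSU
      omega
    · rw [src_eq, ← hS]
      exact fun h => hn₁.2 (Finset.mem_sdiff.mpr ⟨h, hC₁⟩)
    · rw [src_eq, ← hS]
      exact fun h => hn₂.2 (Finset.mem_sdiff.mpr ⟨h, hC₂⟩)

end main

end Pool.Agent.Lib.MP_5bc52d_co.AA
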