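import Pool.Agent.Lib.MP_5bc52d_co.AA.Defs

/-!
# Random labellings: elements with few smaller neighbours
-/

namespace Pool.Agent.Lib.MP_5bc52d_co.AA

/-- at most `k + 1` elements of `M` have at most `k` smaller elements in `M` -/
theorem rank_card_le {n : ℕ} (σ : Equiv.Perm (Fin n)) (M : Finset (Fin n)) (k : ℕ) :
    (M.filter fun z => (M.filter fun y => σ y < σ z).card ≤ k).card ≤ k + 1 := by
  classical
  have h1 : (M.filter fun z => (M.filter fun y => σ y < σ z).card ≤ k).card ≤
      (Finset.range (k + 1)).card := by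
    refine Finset.card_le_card_of_injOn (fun z => (M.filter fun y => σ y < σ z).card) ?_ ?_
    · intro z hz
      have hz' := (Finset.mem_filter.mp hz).2
      exact Finset.mem_coe.mpr (Finset.mem_range.mpr (Nat.lt_succ_of_le hz'))
    · have key : ∀ a ∈ M, ∀ b ∈ M, σ a < σ b →
          (M.filter fun y => σ y < σ a).card < (M.filter fun y => σ y < σ b).card := by
        intro a ha b _ hab
        apply Finset.card_lt_card
        rw [Finset.ssubset_iff_of_subset]
        · exact ⟨a, Finset.mem_filter.mpr ⟨ha, hab⟩,
            fun h => lt_irrefl _ (Finset.mem_filter.mp h).2⟩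
        · intro y hy
          obtain ⟨h1, h2⟩ := Finset.mem_filter.mp hy
          exact Finset.mem_filter.mpr ⟨h1, h2.trans hab⟩
      intro a ha b hb hab
      have ha' := (Finset.mem_filter.mp (Finset.mem_coe.mp ha)).1
      have hb' := (Finset.mem_filter.mp (Finset.mem_coe.mp hb)).1
      simp only at hab
      rcases lt_trichotomy (σ a) (σ b) with h | h | h
      · have := key a ha' b hb' h
        omega
      · exact σ.injective h
      · have := key b hb' a ha' h
        omega
  rwa [Finset.card_range] at h1

/-- exchangeability -/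
theorem rank_card_eq {n : ℕ} (M : Finset (Fin n)) {x z : Fin n} (hx : x ∈ M) (hz : z ∈ M)
    (k : ℕ) :
    ((Finset.univ : Finset (Equiv.Perm (Fin n))).filter
      fun σ => (M.filter fun y => σ y < σ x).card ≤ k).card =
    ((Finset.univ : Finset (Equiv.Perm (Fin n))).filter
      fun σ => (M.filter fun y => σ y < σ z).card ≤ k).card := by
  classical
  have hM : ∀ y, Equiv.swap x z y ∈ M ↔ y ∈ M := by
    intro y
    rcases eq_or_ne y x with rfl | h1
    · rw [Equiv.swap_apply_left]
      exact ⟨fun _ => hx, fun _ => hz⟩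
    · rcases eq_or_ne y z with rfl | h2
      · rw [Equiv.swap_apply_right]
        exact ⟨fun _ => hz, fun _ => hx⟩
      · rw [Equiv.swap_apply_of_ne_of_ne h1 h2]
  have hcard : ∀ (σ : Equiv.Perm (Fin n)) (w : Fin n),
      (M.filter fun y => (σ * Equiv.swap x z) y < (σ * Equiv.swap x z) w).card =
        (M.filter fun y => σ y < σ (Equiv.swap x z w)).card := by
    intro σ w
    refine Finset.card_bij (fun y _ => Equiv.swap x z y) ?_ ?_ ?_
    · intro y hy
      obtain ⟨h1, h2⟩ := Finset.mem_filter.mp hy
      exact Finset.mem_filter.mpr ⟨(hM y).mpr h1, h2⟩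
    · intro a _ b _ hab
      exact (Equiv.swap x z).injective hab
    · intro y hy
      obtain ⟨h1, h2⟩ := Finset.mem_filter.mp hy
      refine ⟨Equiv.swap x z y, Finset.mem_filter.mpr ⟨(hM y).mpr h1, ?_⟩,
        Equiv.swap_apply_self x z y⟩
      simp only [Equiv.Perm.mul_apply, Equiv.swap_apply_self]
      exact h2
  refine Finset.card_bij (fun σ _ => σ * Equiv.swap x z) ?_ ?_ ?_
  · intro σ hσ
    have h := (Finset.mem_filter.mp hσ).2
    refine Finset.mem_filter.mpr ⟨Finset.mem_univ _, ?_⟩
    rw [hcard, Equiv.swap_apply_right]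
    exact h
  · intro a _ b _ hab
    exact mul_right_cancel hab
  · intro σ hσ
    have h := (Finset.mem_filter.mp hσ).2
    refine ⟨σ * Equiv.swap x z, Finset.mem_filter.mpr ⟨Finset.mem_univ _, ?_⟩, ?_⟩
    · rw [hcard, Equiv.swap_apply_left]
      exact h
    · rw [mul_assoc, Equiv.swap_mul_self, mul_one]

/-- one element has few smaller neighbours only rarely -/
theorem few_one_card {n : ℕ} (x : Fin n) (N : Finset (Fin n)) (hx : x ∉ N) (k : ℕ) :
    ((Finset.univ : Finset (Equiv.Perm (Fin n))).filter
      fun σ => (N.filter fun y => σ y < σ x).card ≤ k).card * (N.card + 1) ≤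
      (k + 1) * n.factorial := by
  classical
  have h1 : ∀ z ∈ insert x N, ((Finset.univ : Finset (Equiv.Perm (Fin n))).filter
      fun σ => ((insert x N).filter fun y => σ y < σ z).card ≤ k).card =
      ((Finset.univ : Finset (Equiv.Perm (Fin n))).filter
      fun σ => (N.filter fun y => σ y < σ x).card ≤ k).card := by
    intro z hz
    rw [← rank_card_eq (insert x N) (Finset.mem_insert_self x N) hz k]
    congr 1
    apply Finset.filter_congr
    intro σ _
    rw [Finset.filter_insert, if_neg (lt_irrefl _)]
  have h2 : ∑ z ∈ insert x N, ((Finset.univ : Finset (Equiv.Perm (Fin n))).filter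
      fun σ => ((insert x N).filter fun y => σ y < σ z).card ≤ k).card ≤
      (k + 1) * n.factorial := by
    have h3 : ∑ z ∈ insert x N, ((Finset.univ : Finset (Equiv.Perm (Fin n))).filter
        fun σ => ((insert x N).filter fun y => σ y < σ z).card ≤ k).card =
        ∑ σ : Equiv.Perm (Fin n), ((insert x N).filter fun z =>
          ((insert x N).filter fun y => σ y < σ z).card ≤ k).card :=
      Finset.sum_card_bipartiteAbove_eq_sum_card_bipartiteBelow
        (s := insert x N) (t := (Finset.univ : Finset (Equiv.Perm (Fin n))))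
        (r := fun (z : Fin n) (σ : Equiv.Perm (Fin n)) =>
          ((insert x N).filter fun y => σ y < σ z).card ≤ k)
    rw [h3]
    refine le_trans (Finset.sum_le_sum fun σ _ => rank_card_le σ (insert x N) k) ?_
    rw [Finset.sum_const, Finset.card_univ, Fintype.card_perm, Fintype.card_fin, smul_eq_mul,
      mul_comm]
  rw [Finset.sum_congr rfl h1, Finset.sum_const, smul_eq_mul,
    Finset.card_insert_of_notMem hx, mul_comm] at h2
  exact h2

theorem few_bound_all : FewBound := by
  classical
  intro n S N d k K hN hd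
  have h1 : ((Finset.univ : Finset (Equiv.Perm (Fin n))).filter
      fun σ => K ≤ (few σ S N k).card).card * K ≤ ∑ σ : Equiv.Perm (Fin n),
        (few σ S N k).card := by
    have h2 : ∑ σ ∈ (Finset.univ : Finset (Equiv.Perm (Fin n))).filter
        (fun σ => K ≤ (few σ S N k).card), (few σ S N k).card ≤
        ∑ σ : Equiv.Perm (Fin n), (few σ S N k).card :=
      Finset.sum_le_sum_of_subset (Finset.filter_subset _ _)
    refine le_trans ?_ h2
    rw [← smul_eq_mul, ← Finset.sum_const]
    exact Finset.sum_le_sum fun σ hσ => (Finset.mem_filter.mp hσ).2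
  have h3 : ∑ σ : Equiv.Perm (Fin n), (few σ S N k).card =
      ∑ x ∈ S, ((Finset.univ : Finset (Equiv.Perm (Fin n))).filter
        fun σ => ((N x).filter fun y => σ y < σ x).card ≤ k).card := by
    exact (Finset.sum_card_bipartiteAbove_eq_sum_card_bipartiteBelow
      (s := S) (t := (Finset.univ : Finset (Equiv.Perm (Fin n))))
      (r := fun (x : Fin n) (σ : Equiv.Perm (Fin n)) =>
        ((N x).filter fun y => σ y < σ x).card ≤ k)).symm
  calc ((Finset.univ : Finset (Equiv.Perm (Fin n))).filter
        fun σ => K ≤ (few σ S N k).card).card * (K * (d + 1))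
      = (((Finset.univ : Finset (Equiv.Perm (Fin n))).filter
        fun σ => K ≤ (few σ S N k).card).card * K) * (d + 1) := by ring
    _ ≤ (∑ x ∈ S, ((Finset.univ : Finset (Equiv.Perm (Fin n))).filter
        fun σ => ((N x).filter fun y => σ y < σ x).card ≤ k).card) * (d + 1) := by
      rw [← h3]
      exact Nat.mul_le_mul_right _ h1
    _ = ∑ x ∈ S, ((Finset.univ : Finset (Equiv.Perm (Fin n))).filter
        fun σ => ((N x).filter fun y => σ y < σ x).card ≤ k).card * (d + 1) := by
      rw [Finset.sum_mul]
    _ ≤ ∑ x ∈ S, (k + 1) * n.factorial := by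
      apply Finset.sum_le_sum
      intro x hx
      exact le_trans (Nat.mul_le_mul_left _ (Nat.add_le_add_right (hd x hx) 1))
        (few_one_card x (N x) (hN x hx) k)
    _ = S.card * (k + 1) * n.factorial := by
      rw [Finset.sum_const, smul_eq_mul, mul_assoc]

theorem tops_bound_all : TopsBound := by
  classical
  intro n S N d K hN hd
  have h := few_bound_all n S N d 0 K hN hd
  rw [zero_add, mul_one] at h
  refine le_trans (Nat.mul_le_mul_right _ (le_of_eq ?_)) h
  have key : ∀ σ : Equiv.Perm (Fin n), tops (Fin.revPerm * σ) S N = few σ S N 0 := by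
    intro σ
    rw [tops, few]
    apply Finset.filter_congr
    intro x _
    rw [Nat.le_zero, Finset.card_eq_zero, Finset.filter_eq_empty_iff]
    constructor
    · intro h y hy
      have h1 := h y hy
      simp only [Equiv.Perm.mul_apply, Fin.revPerm_apply, Fin.rev_lt_rev] at h1
      exact not_lt.mpr h1.le
    · intro h y hy
      simp only [Equiv.Perm.mul_apply, Fin.revPerm_apply, Fin.rev_lt_rev]
      refine lt_of_le_of_ne (not_lt.mp (h hy)) fun h2 => ?_
      have := σ.injective h2
      subst this
      exact hN x ‹_› hy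
  refine Finset.card_bij (fun σ _ => Fin.revPerm * σ) ?_ ?_ ?_
  · intro σ hσ
    have h1 := (Finset.mem_filter.mp hσ).2
    refine Finset.mem_filter.mpr ⟨Finset.mem_univ _, ?_⟩
    have h2 := key (Fin.revPerm * σ)
    have h3 : Fin.revPerm * (Fin.revPerm * σ) = σ := by
      ext z
      simp [Equiv.Perm.mul_apply]
    rw [h3] at h2
    rw [← h2]
    exact h1
  · intro σ _ τ _ h
    exact mul_left_cancel h
  · intro τ hτ
    have h1 := (Finset.mem_filter.mp hτ).2
    refine ⟨Fin.revPerm * τ, Finset.mem_filter.mpr ⟨Finset.mem_univ _, ?_⟩, ?_⟩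
    · rw [key τ]
      exact h1
    · ext z
      simp [Equiv.Perm.mul_apply]

end Pool.Agent.Lib.MP_5bc52d_co.AA
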