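import Mathlib
import Pool.Agent.Lib.MP_5bc52d_co.Cut.Base
import Pool.Agent.Lib.MP_5bc52d_co.AA.Bad

/-!
# Almost all labelled posets with three layers have an irreducible generating function
-/

namespace Pool.Agent.Lib.MP_5bc52d_co.AA

open Finset

/-- The generating function of the relation `r` on `Fin n`, with the identity labels. -/
noncomputable def GenR {n : ℕ} (r : Fin n → Fin n → Prop) : R :=
  fun m : ℕ →₀ ℕ =>
    ((Nat.card {f : Fin n → ℕ //
      (∀ a b : Fin n, r a b → f a ≤ f b ∧ (b < a → f a < f b)) ∧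
        ∑ i : Fin n, Finsupp.single (f i) 1 = m} : ℕ) : ℚ)

/-- A copy of `Fin n`, to be ordered by `r`. -/
def Pos {n : ℕ} (_r : Fin n → Fin n → Prop) : Type := Fin n

section
variable {Q : Subring R} (hQ : ∀ F : R, F ∈ Q ↔ IsQS F)

open Classical in
/-- M6: for posets with three layers, large degrees and common neighbours, almost all labels give
an irreducible generating function. -/
def LabelBound : Prop :=
  ∀ (d e : ℝ), 0 < d → 0 < e → ∃ K L N : ℕ, ∀ n ≥ N, ∀ (V : Type) [Fintype V] [DecidableEq V]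
    [PartialOrder V] (f : V ≃ Fin n) (A B C : Finset V), Lay A B C →
    Deg (fun x y : V => x < y) A B C (d * n) → Com (fun x y : V => x < y) B C K L →
    (((Finset.univ : Finset (Equiv.Perm (Fin n))).filter fun s =>
      ¬ Irreducible (GamQ hQ (fun x : V => ((s (f x) : Fin n) : ℕ))
        (Finset.univ : Finset V))).card : ℝ) ≤ e * n.factorial

/-- the relation `r` has an irreducible generating function -/
def IrrR (Q : Subring R) {n : ℕ} (r : Fin n → Fin n → Prop) : Prop :=
  ∃ G : Q, (G : R) = GenR r ∧ Irreducible G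

/-- the relation `r` has a reducible generating function -/
def RedR (Q : Subring R) {n : ℕ} (r : Fin n → Fin n → Prop) : Prop := ¬ IrrR Q r

theorem layR_irrefl {V : Type*} {r : V → V → Prop} {A B C : Finset V} (h : LayR r A B C) (x : V) :
    ¬ r x x := by
  intro hx
  rcases h.rel x x hx with h1 | h1 | h1
  · exact Finset.disjoint_left.mp h.dAB h1.1 h1.2
  · exact Finset.disjoint_left.mp h.dBC h1.1 h1.2
  · exact Finset.disjoint_left.mp h.dAC h1.1 h1.2

theorem layR_trans {V : Type*} {r : V → V → Prop} {A B C : Finset V} (h : LayR r A B C)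
    (x y z : V) (hxy : r x y) (hyz : r y z) : r x z := by
  rcases h.rel x y hxy with h1 | h1 | h1
  · rcases h.rel y z hyz with h2 | h2 | h2
    · exact absurd h1.2 (Finset.disjoint_left.mp h.dAB h2.1)
    · exact h.full x h1.1 z h2.2
    · exact absurd h1.2 (Finset.disjoint_left.mp h.dAB h2.1)
  · rcases h.rel y z hyz with h2 | h2 | h2
    · exact absurd h1.2 (Finset.disjoint_left.mp h.dAC h2.1)
    · exact absurd h1.2 (Finset.disjoint_left.mp h.dBC h2.1)
    · exact absurd h1.2 (Finset.disjoint_left.mp h.dAC h2.1)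
  · rcases h.rel y z hyz with h2 | h2 | h2
    · exact absurd h1.2 (Finset.disjoint_left.mp h.dAC h2.1)
    · exact absurd h1.2 (Finset.disjoint_left.mp h.dBC h2.1)
    · exact absurd h1.2 (Finset.disjoint_left.mp h.dAC h2.1)

instance (n : ℕ) (r : Fin n → Fin n → Prop) : Fintype (Pos r) :=
  inferInstanceAs (Fintype (Fin n))

instance (n : ℕ) (r : Fin n → Fin n → Prop) : DecidableEq (Pos r) :=
  inferInstanceAs (DecidableEq (Fin n))

/-- the order on `Pos r` -/
@[reducible]
def posOrder {n : ℕ} {r : Fin n → Fin n → Prop} (h1 : ∀ x, ¬ r x x)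
    (h2 : ∀ x y z, r x y → r y z → r x z) : PartialOrder (Pos r) where
  le a b := a = b ∨ r a b
  lt a b := r a b
  le_refl a := Or.inl rfl
  le_trans a b c hab hbc := by
    rcases hab with rfl | hab
    · exact hbc
    · rcases hbc with rfl | hbc
      · exact Or.inr hab
      · exact Or.inr (h2 _ _ _ hab hbc)
  lt_iff_le_not_ge a b := by
    constructor
    · intro h
      refine ⟨Or.inr h, ?_⟩
      rintro (h3 | h3)
      · subst h3; exact h1 _ h
      · exact h1 _ (h2 _ _ _ h h3)
    · rintro ⟨h3 | h3, h4⟩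
      · exact absurd (Or.inl h3.symm) h4
      · exact h3
  le_antisymm a b hab hba := by
    rcases hab with h | h
    · exact h
    · rcases hba with h3 | h3
      · exact h3.symm
      · exact absurd (h2 _ _ _ h h3) (h1 _)

theorem gen_rel {n : ℕ} {r : Fin n → Fin n → Prop} (h1 : ∀ x, ¬ r x x)
    (h2 : ∀ x y z, r x y → r y z → r x z) (σ : Equiv.Perm (Fin n)) :
    letI := posOrder h1 h2
    Gam (fun x : Pos r => ((σ.symm x : Fin n) : ℕ)) (Finset.univ : Finset (Pos r)) =
      GenR (rel σ r) := by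
  let _ := posOrder h1 h2
  funext m
  change (Nat.card (Sol _ (Finset.univ : Finset (Pos r)) m) : ℚ) = (Nat.card _ : ℚ)
  congr 1
  refine Nat.card_congr ⟨fun g => ⟨fun x => g.1 (σ x), ?_⟩, fun f => ⟨fun x => f.1 (σ.symm x), ?_⟩,
    ?_, ?_⟩
  · obtain ⟨g, hg⟩ := g
    refine ⟨fun a b hab => ?_, ?_⟩
    · have := hg.2.1 (σ a) (Finset.mem_univ _) (σ b) (Finset.mem_univ _) hab
      refine ⟨this.1, fun hba => this.2 ?_⟩
      change ((σ.symm (σ b) : Fin n) : ℕ) < ((σ.symm (σ a) : Fin n) : ℕ)
      rw [Equiv.symm_apply_apply, Equiv.symm_apply_apply]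
      exact hba
    · exact (Equiv.sum_comp σ (fun x : Fin n => Finsupp.single (g x) 1)).trans hg.2.2
  · obtain ⟨f, hf⟩ := f
    refine ⟨fun p hp => absurd (Finset.mem_univ p) hp, fun a _ b _ hab => ?_, ?_⟩
    · have := hf.1 (σ.symm a) (σ.symm b) (by
        change r (σ (σ.symm a)) (σ (σ.symm b))
        rw [Equiv.apply_symm_apply, Equiv.apply_symm_apply]
        exact hab)
      exact ⟨this.1, fun h => this.2 h⟩
    · exact (Equiv.sum_comp σ.symm (fun x : Fin n => Finsupp.single (f x) 1)).trans hf.2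
  · intro g
    apply Subtype.ext
    funext x
    exact congrArg g.1 (σ.apply_symm_apply x)
  · intro f
    apply Subtype.ext
    funext x
    exact congrArg f.1 (σ.symm_apply_apply x)

theorem irrR_iff {n : ℕ} {r : Fin n → Fin n → Prop} (h1 : ∀ x, ¬ r x x)
    (h2 : ∀ x y z, r x y → r y z → r x z) (σ : Equiv.Perm (Fin n)) :
    letI := posOrder h1 h2
    Irreducible (GamQ hQ (fun x : Pos r => ((σ.symm x : Fin n) : ℕ))
      (Finset.univ : Finset (Pos r))) ↔ IrrR Q (rel σ r) := by
  let _ := posOrder h1 h2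
  constructor
  · intro h
    exact ⟨_, gen_rel h1 h2 σ, h⟩
  · rintro ⟨G, hG, h⟩
    have : G = GamQ hQ (fun x : Pos r => ((σ.symm x : Fin n) : ℕ))
        (Finset.univ : Finset (Pos r)) := Subtype.ext (hG.trans (gen_rel h1 h2 σ).symm)
    rwa [← this]

open Classical in
theorem almost_all (hL : LabelBound hQ) (hG : GraphBound) (δ ε : ℝ) (hδ : 0 < δ) (hε : 0 < ε) :
    ∃ N : ℕ, ∀ n ≥ N,
      ((Finset.univ.filter fun r : Fin n → Fin n → Prop =>
        Layered δ n r ∧ RedR Q r).card : ℝ) ≤
      ε * (Finset.univ.filter fun r : Fin n → Fin n → Prop => Layered δ n r).card := by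
  obtain ⟨K, L, N1, h1⟩ := hL (δ / 4) (ε / 2) (by linarith) (by linarith)
  obtain ⟨N2, h2⟩ := bad_count hG δ (ε / 2) hδ (by linarith) K L
  refine ⟨max N1 N2, fun n hn => ?_⟩
  have hn1 : N1 ≤ n := le_trans (le_max_left _ _) hn
  have hn2 : N2 ≤ n := le_trans (le_max_right _ _) hn
  have h3 := h2 n hn2
  have h4 := avg (n := n) (GoodRel δ (δ / 4) K L n) (RedR Q) (ε / 2)
    (fun r hr σ => hr.rel σ) (fun r hr => ?_)
  · have h5 : (Finset.univ.filter fun r : Fin n → Fin n → Prop =>
        Layered δ n r ∧ RedR Q r) ⊆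
        (Finset.univ.filter fun r : Fin n → Fin n → Prop =>
          Layered δ n r ∧ ¬ GoodRel δ (δ / 4) K L n r) ∪
        (Finset.univ.filter fun r : Fin n → Fin n → Prop =>
          GoodRel δ (δ / 4) K L n r ∧ RedR Q r) := by
      intro r hr
      simp only [Finset.mem_union, Finset.mem_filter, Finset.mem_univ, true_and] at hr ⊢
      by_cases h : GoodRel δ (δ / 4) K L n r
      · exact Or.inr ⟨h, hr.2⟩
      · exact Or.inl ⟨hr.1, h⟩
    have h6 := (Finset.card_le_card h5).trans (Finset.card_union_le _ _)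
    have h7 : (Finset.univ.filter fun r : Fin n → Fin n → Prop =>
        GoodRel δ (δ / 4) K L n r).card ≤
        (Finset.univ.filter fun r : Fin n → Fin n → Prop => Layered δ n r).card := by
      apply Finset.card_le_card
      intro r hr
      simp only [Finset.mem_filter, Finset.mem_univ, true_and] at hr ⊢
      exact hr.layered
    have h8 : ((Finset.univ.filter fun r : Fin n → Fin n → Prop =>
        Layered δ n r ∧ RedR Q r).card : ℝ) ≤
        ((Finset.univ.filter fun r : Fin n → Fin n → Prop =>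
          Layered δ n r ∧ ¬ GoodRel δ (δ / 4) K L n r).card : ℝ) +
        ((Finset.univ.filter fun r : Fin n → Fin n → Prop =>
          GoodRel δ (δ / 4) K L n r ∧ RedR Q r).card : ℝ) := by
      exact_mod_cast h6
    have h9 : ((Finset.univ.filter fun r : Fin n → Fin n → Prop =>
        GoodRel δ (δ / 4) K L n r).card : ℝ) ≤
        ((Finset.univ.filter fun r : Fin n → Fin n → Prop => Layered δ n r).card : ℝ) := by
      exact_mod_cast h7
    have h10 := mul_le_mul_of_nonneg_left h9 (by linarith : (0 : ℝ) ≤ ε / 2)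
    linarith
  · obtain ⟨A, B, C, hT, hr1, hr2, hD, hC⟩ := hr
    have hlay : LayR r A B C := ⟨hT.1, hT.2.1, hT.2.2.1, hT.2.2.2.1, hr1, hr2⟩
    have ha : ∀ x, ¬ r x x := layR_irrefl hlay
    have hb : ∀ x y z, r x y → r y z → r x z := layR_trans hlay
    let _ := posOrder ha hb
    have h6 := h1 n hn1 (Pos r) (Equiv.refl (Fin n)) A B C
      ⟨hT.1, hT.2.1, hT.2.2.1, hT.2.2.2.1, hr1, hr2⟩ ⟨hD.ab, hD.ba, hD.bc, hD.cb⟩
      ⟨hC.up, hC.dn⟩
    refine le_trans (le_of_eq ?_) h6
    congr 1
    refine Finset.card_bij' (fun σ _ => σ.symm) (fun σ _ => σ.symm) ?_ ?_ ?_ ?_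
    · intro σ hσ
      simp only [Finset.mem_filter, Finset.mem_univ, true_and] at hσ ⊢
      exact fun h => hσ ((irrR_iff hQ ha hb σ).mp h)
    · intro σ hσ
      simp only [Finset.mem_filter, Finset.mem_univ, true_and] at hσ ⊢
      exact fun h => hσ ((irrR_iff hQ ha hb σ.symm).mpr h)
    · intro σ _; rfl
    · intro σ _; rfl

end

end Pool.Agent.Lib.MP_5bc52d_co.AA
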