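import Pool.Agent.Lib.MP_5bc52d_co.AA.Defs
import Pool.Agent.Lib.MP_5bc52d_co.AA.Common

/-!
Assembly of the graph bound from the degree bound and the common neighbour bound.
-/

namespace Pool.Agent.Lib.MP_5bc52d_co.AA

open Finset

/-- The degree bound, one side. -/
def DegRare : Prop :=
  ∀ (δ ε : ℝ), 0 < δ → 0 < ε → ∃ N : ℕ, ∀ n : ℕ, N ≤ n →
    ∀ (V : Type) [DecidableEq V] (A B : Finset V), A.card ≤ n → B.card ≤ n → δ * n ≤ B.card →
      (((A ×ˢ B).powerset.filter (fun E => ∃ x ∈ A,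
        ((B.filter (fun y => (x, y) ∈ E)).card : ℝ) < δ / 4 * n)).card : ℝ)
        ≤ ε * 2 ^ (A.card * B.card)

/-- The degree bound, other side. -/
def DegRareSwap : Prop :=
  ∀ (δ ε : ℝ), 0 < δ → 0 < ε → ∃ N : ℕ, ∀ n : ℕ, N ≤ n →
    ∀ (V : Type) [DecidableEq V] (A B : Finset V), A.card ≤ n → B.card ≤ n → δ * n ≤ A.card →
      (((A ×ˢ B).powerset.filter (fun E => ∃ y ∈ B,
        ((A.filter (fun x => (x, y) ∈ E)).card : ℝ) < δ / 4 * n)).card : ℝ)
        ≤ ε * 2 ^ (A.card * B.card)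

theorem ltE_ab {V : Type*} {A B C : Finset V} (hAB : Disjoint A B) (hBC : Disjoint B C)
    (E : Finset (V × V) × Finset (V × V)) {a b : V} (ha : a ∈ A) (hb : b ∈ B) :
    ltE A B C E a b ↔ (a, b) ∈ E.1 := by
  constructor
  · rintro (h | h | h)
    · exact h.2.2
    · exact absurd h.1 (Finset.disjoint_left.1 hAB ha)
    · exact absurd h.2 (Finset.disjoint_left.1 hBC hb)
  · intro h
    exact Or.inl ⟨ha, hb, h⟩

theorem ltE_bc {V : Type*} {A B C : Finset V} (hAB : Disjoint A B)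
    (E : Finset (V × V) × Finset (V × V)) {b c : V} (hb : b ∈ B) (hc : c ∈ C) :
    ltE A B C E b c ↔ (b, c) ∈ E.2 := by
  constructor
  · rintro (h | h | h)
    · exact absurd h.1 (Finset.disjoint_right.1 hAB hb)
    · exact h.2.2
    · exact absurd h.1 (Finset.disjoint_right.1 hAB hb)
  · intro h
    exact Or.inr (Or.inl ⟨hb, hc, h⟩)

theorem graph_bound_of (h1 : DegRare) (h2 : DegRareSwap) : GraphBound := by
  classical
  intro δ ε K L hδ hε
  have hε6 : 0 < ε / 6 := by positivity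
  obtain ⟨N1, hN1⟩ := h1 δ (ε / 6) hδ hε6
  obtain ⟨N2, hN2⟩ := h2 δ (ε / 6) hδ hε6
  obtain ⟨N3, hN3⟩ := Pool.MP5bc52d.AA.few_common_rare δ (ε / 6) hδ hε6 K L
  obtain ⟨N4, hN4⟩ := Pool.MP5bc52d.AA.few_common_rare_swap δ (ε / 6) hδ hε6 K L
  refine ⟨max (max N1 N2) (max N3 N4), ?_⟩
  intro n hn A B C hAB hBC hAC hA hB hC
  have hn1 : N1 ≤ n := le_trans (le_trans (le_max_left _ _) (le_max_left _ _)) hn
  have hn2 : N2 ≤ n := le_trans (le_trans (le_max_right _ _) (le_max_left _ _)) hn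
  have hn3 : N3 ≤ n := le_trans (le_trans (le_max_left _ _) (le_max_right _ _)) hn
  have hn4 : N4 ≤ n := le_trans (le_trans (le_max_right _ _) (le_max_right _ _)) hn
  have cA : A.card ≤ n := by simpa using card_le_univ A
  have cB : B.card ≤ n := by simpa using card_le_univ B
  have cC : C.card ≤ n := by simpa using card_le_univ C
  -- the six bad sets
  let P1 := (A ×ˢ B).powerset.filter (fun E => ∃ x ∈ A,
        ((B.filter (fun y => (x, y) ∈ E)).card : ℝ) < δ / 4 * n)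
  let P2 := (A ×ˢ B).powerset.filter (fun E => ∃ y ∈ B,
        ((A.filter (fun x => (x, y) ∈ E)).card : ℝ) < δ / 4 * n)
  let Q1 := (B ×ˢ C).powerset.filter (fun E => ∃ x ∈ B,
        ((C.filter (fun y => (x, y) ∈ E)).card : ℝ) < δ / 4 * n)
  let Q2 := (B ×ˢ C).powerset.filter (fun E => ∃ y ∈ C,
        ((B.filter (fun x => (x, y) ∈ E)).card : ℝ) < δ / 4 * n)
  let Q3 := (B ×ˢ C).powerset.filter (fun E => ∃ S ⊆ B, S.card ≤ K ∧
        (C.filter (fun y => ∀ x ∈ S, (x, y) ∈ E)).card < L)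
  let Q4 := (B ×ˢ C).powerset.filter (fun E => ∃ S ⊆ C, S.card ≤ K ∧
        (B.filter (fun x => ∀ y ∈ S, (x, y) ∈ E)).card < L)
  have bP1 : (P1.card : ℝ) ≤ ε / 6 * 2 ^ (A.card * B.card) := by
    convert hN1 n hn1 _ A B cA cB hB
  have bP2 : (P2.card : ℝ) ≤ ε / 6 * 2 ^ (A.card * B.card) := by
    convert hN2 n hn2 _ A B cA cB hA
  have bQ1 : (Q1.card : ℝ) ≤ ε / 6 * 2 ^ (B.card * C.card) := by
    convert hN1 n hn1 _ B C cB cC hC
  have bQ2 : (Q2.card : ℝ) ≤ ε / 6 * 2 ^ (B.card * C.card) := by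
    convert hN2 n hn2 _ B C cB cC hB
  have bQ3 : (Q3.card : ℝ) ≤ ε / 6 * 2 ^ (B.card * C.card) := by
    convert hN3 n hn3 _ B C cB cC hC
  have bQ4 : (Q4.card : ℝ) ≤ ε / 6 * 2 ^ (B.card * C.card) := by
    convert hN4 n hn4 _ B C cB cC hB
  have hsub : ((A ×ˢ B).powerset ×ˢ (B ×ˢ C).powerset).filter
        (fun E => ¬ (Deg (ltE A B C E) A B C (δ / 4 * n) ∧ Com (ltE A B C E) B C K L))
      ⊆ (P1 ×ˢ (B ×ˢ C).powerset) ∪ ((P2 ×ˢ (B ×ˢ C).powerset)
        ∪ (((A ×ˢ B).powerset ×ˢ Q1) ∪ (((A ×ˢ B).powerset ×ˢ Q2)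
        ∪ (((A ×ˢ B).powerset ×ˢ Q3) ∪ ((A ×ˢ B).powerset ×ˢ Q4))))) := by
    intro E hE
    rw [mem_filter, mem_product] at hE
    obtain ⟨⟨hE1, hE2⟩, hbad⟩ := hE
    by_contra hcon
    simp only [mem_union, mem_product, not_or] at hcon
    obtain ⟨c1, c2, c3, c4, c5, c6⟩ := hcon
    have d1 : ¬ ∃ x ∈ A, ((B.filter (fun y => (x, y) ∈ E.1)).card : ℝ) < δ / 4 * n :=
      fun h => c1 ⟨mem_filter.2 ⟨hE1, h⟩, hE2⟩
    have d2 : ¬ ∃ y ∈ B, ((A.filter (fun x => (x, y) ∈ E.1)).card : ℝ) < δ / 4 * n :=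
      fun h => c2 ⟨mem_filter.2 ⟨hE1, h⟩, hE2⟩
    have d3 : ¬ ∃ x ∈ B, ((C.filter (fun y => (x, y) ∈ E.2)).card : ℝ) < δ / 4 * n :=
      fun h => c3 ⟨hE1, mem_filter.2 ⟨hE2, h⟩⟩
    have d4 : ¬ ∃ y ∈ C, ((B.filter (fun x => (x, y) ∈ E.2)).card : ℝ) < δ / 4 * n :=
      fun h => c4 ⟨hE1, mem_filter.2 ⟨hE2, h⟩⟩
    have d5 : ¬ ∃ S ⊆ B, S.card ≤ K ∧
        (C.filter (fun y => ∀ x ∈ S, (x, y) ∈ E.2)).card < L :=
      fun h => c5 ⟨hE1, mem_filter.2 ⟨hE2, h⟩⟩
    have d6 : ¬ ∃ S ⊆ C, S.card ≤ K ∧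
        (B.filter (fun x => ∀ y ∈ S, (x, y) ∈ E.2)).card < L :=
      fun h => c6 ⟨hE1, mem_filter.2 ⟨hE2, h⟩⟩
    push Not at d1 d2 d3 d4 d5 d6
    refine hbad ⟨⟨?_, ?_, ?_, ?_⟩, ⟨?_, ?_⟩⟩
    · intro a ha
      refine (d1 a ha).trans (le_of_eq ?_)
      congr 2
      exact filter_congr fun b hb => (ltE_ab hAB hBC E ha hb).symm
    · intro b hb
      refine (d2 b hb).trans (le_of_eq ?_)
      congr 2
      exact filter_congr fun a ha => (ltE_ab hAB hBC E ha hb).symm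
    · intro b hb
      refine (d3 b hb).trans (le_of_eq ?_)
      congr 2
      exact filter_congr fun c hc => (ltE_bc hAB E hb hc).symm
    · intro c hc
      refine (d4 c hc).trans (le_of_eq ?_)
      congr 2
      exact filter_congr fun b hb => (ltE_bc hAB E hb hc).symm
    · intro S hS hK
      refine (d5 S hS hK).trans (le_of_eq ?_)
      congr 1
      ext c
      refine (@Finset.mem_filter _ _ (_) _ _).trans
        (Iff.trans ?_ (@Finset.mem_filter _ _ (_) _ _).symm)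
      exact and_congr_right fun hc =>
        ⟨fun h b hb => (ltE_bc hAB E (hS hb) hc).2 (h b hb),
          fun h b hb => (ltE_bc hAB E (hS hb) hc).1 (h b hb)⟩
    · intro S hS hK
      refine (d6 S hS hK).trans (le_of_eq ?_)
      congr 1
      ext b
      refine (@Finset.mem_filter _ _ (_) _ _).trans
        (Iff.trans ?_ (@Finset.mem_filter _ _ (_) _ _).symm)
      exact and_congr_right fun hb =>
        ⟨fun h c hc => (ltE_bc hAB E hb (hS hc)).2 (h c hc),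
          fun h c hc => (ltE_bc hAB E hb (hS hc)).1 (h c hc)⟩
  have hc1 : ((A ×ˢ B).powerset.card : ℝ) = 2 ^ (A.card * B.card) := by
    rw [card_powerset, card_product]
    push_cast
    rfl
  have hc2 : ((B ×ˢ C).powerset.card : ℝ) = 2 ^ (B.card * C.card) := by
    rw [card_powerset, card_product]
    push_cast
    rfl
  have hX : (0 : ℝ) ≤ 2 ^ (A.card * B.card) := by positivity
  have hY : (0 : ℝ) ≤ 2 ^ (B.card * C.card) := by positivity
  have key : ((((A ×ˢ B).powerset ×ˢ (B ×ˢ C).powerset).filter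
        (fun E => ¬ (Deg (ltE A B C E) A B C (δ / 4 * n) ∧ Com (ltE A B C E) B C K L))).card : ℝ)
      ≤ (P1.card : ℝ) * 2 ^ (B.card * C.card) + ((P2.card : ℝ) * 2 ^ (B.card * C.card)
        + (2 ^ (A.card * B.card) * (Q1.card : ℝ) + (2 ^ (A.card * B.card) * (Q2.card : ℝ)
        + (2 ^ (A.card * B.card) * (Q3.card : ℝ) + 2 ^ (A.card * B.card) * (Q4.card : ℝ))))) := by
    rw [← hc1, ← hc2]
    have := card_le_card hsub
    have h3 := this.trans ((card_union_le _ _).trans (Nat.add_le_add_left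
      ((card_union_le _ _).trans (Nat.add_le_add_left
      ((card_union_le _ _).trans (Nat.add_le_add_left
      ((card_union_le _ _).trans (Nat.add_le_add_left
      (card_union_le _ _) _)) _)) _)) _))
    simp only [card_product] at h3
    exact_mod_cast h3
  refine key.trans ?_
  have e1 := mul_le_mul_of_nonneg_right bP1 hY
  have e2 := mul_le_mul_of_nonneg_right bP2 hY
  have e3 := mul_le_mul_of_nonneg_left bQ1 hX
  have e4 := mul_le_mul_of_nonneg_left bQ2 hX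
  have e5 := mul_le_mul_of_nonneg_left bQ3 hX
  have e6 := mul_le_mul_of_nonneg_left bQ4 hX
  set X : ℝ := 2 ^ (A.card * B.card) with hXdef
  set Y : ℝ := 2 ^ (B.card * C.card) with hYdef
  calc _ ≤ ε / 6 * X * Y + (ε / 6 * X * Y + (X * (ε / 6 * Y) + (X * (ε / 6 * Y)
        + (X * (ε / 6 * Y) + X * (ε / 6 * Y))))) := by linarith
    _ = ε * (X * Y) := by ring

end Pool.Agent.Lib.MP_5bc52d_co.AA
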