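import Pool.Agent.Lib.MP_5bc52d_co.AA.Det

/-!
# Random labellings of a fixed poset with three layers

The Markov bounds for the five exceptional sets, the choice of the constants and the bound for the
number of labellings with a reducible generating function.
-/

open Finset Polynomial

set_option linter.unusedSectionVars false

namespace Pool.Agent.Lib.MP_5bc52d_co.AA

open Splitting Cyc Cut Key

section transport
variable {n : ℕ} {V : Type*} [Fintype V] [DecidableEq V] (f : V ≃ Fin n)

/-- the labels of a permutation -/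
def lab (s : Equiv.Perm (Fin n)) (x : V) : ℕ := ((s (f x) : Fin n) : ℕ)

theorem lab_inj (s : Equiv.Perm (Fin n)) : Function.Injective (lab f s) := fun _ _ h =>
  f.injective (s.injective (Fin.ext h))

theorem lab_lt (s : Equiv.Perm (Fin n)) (x y : V) : lab f s x < lab f s y ↔ s (f x) < s (f y) :=
  Iff.rfl

/-- the neighbourhoods, moved to `Fin n` -/
def mov (N : V → Finset V) (i : Fin n) : Finset (Fin n) := (N (f.symm i)).map f.toEmbedding

theorem filter_mov (s : Equiv.Perm (Fin n)) (N : V → Finset V) (x : V) :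
    ((mov f N (f x)).filter fun y => s y < s (f x)) =
      ((N x).filter fun y => lab f s y < lab f s x).map f.toEmbedding := by
  rw [mov, f.symm_apply_apply, Finset.filter_map]
  rfl

theorem few_map [PartialOrder V] (s : Equiv.Perm (Fin n)) (S : Finset V) (N : V → Finset V)
    (k : ℕ) :
    (few s (S.map f.toEmbedding) (mov f N) k).card = (fewL (lab f s) S N k).card := by
  classical
  rw [few, fewL, Finset.filter_map, Finset.card_map]
  congr 1
  apply Finset.filter_congr
  intro x _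
  change (Finset.card (Finset.filter _ (mov f N (f x)))) ≤ k ↔ _
  have h := congrArg Finset.card (filter_mov f s N x)
  rw [Finset.card_map] at h
  rw [← h]
  exact Iff.rfl

theorem tops_map [PartialOrder V] (s : Equiv.Perm (Fin n)) (A B : Finset V) :
    (tops s (B.map f.toEmbedding) (mov f (dnN A))).card = (topL (lab f s) A B).card := by
  classical
  rw [tops, topL, Finset.filter_map, Finset.card_map]
  congr 1
  apply Finset.filter_congr
  intro x _
  change (∀ y ∈ mov f (dnN A) (f x), s y < s (f x)) ↔ _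
  rw [mov, f.symm_apply_apply]
  constructor
  · intro h y hy
    exact h (f y) (Finset.mem_map_of_mem f.toEmbedding hy)
  · intro h y hy
    obtain ⟨z, hz, rfl⟩ := Finset.mem_map.mp hy
    exact h z hz

end transport

/-- the arithmetic of the Markov bound -/
theorem markov_arith {δ ε x K k D s n F : ℝ} (hδ : 0 < δ) (hε : 0 < ε) (hn : 0 < n)
    (hx : 0 ≤ x) (hk : 0 ≤ k) (hF : 0 ≤ F) (hD : δ * n ≤ D) (hs : s ≤ n)
    (hK : 6 * (k + 1) ≤ K * (δ * ε)) (h : x * (K * (D + 1)) ≤ s * (k + 1) * F) :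
    x ≤ ε / 6 * F := by
  have hKδ : 0 < K := by
    by_contra hc
    push Not at hc
    have h1 : K * (δ * ε) ≤ 0 := mul_nonpos_of_nonpos_of_nonneg hc (by positivity)
    linarith
  have h1 : x * (K * (δ * n)) ≤ x * (K * (D + 1)) := by
    apply mul_le_mul_of_nonneg_left _ hx
    apply mul_le_mul_of_nonneg_left _ hKδ.le
    linarith
  have h2 : s * (k + 1) * F ≤ n * (k + 1) * F := by
    apply mul_le_mul_of_nonneg_right _ hF
    exact mul_le_mul_of_nonneg_right hs (by linarith)
  have h3 : n * (x * (K * δ)) ≤ n * ((k + 1) * F) := by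
    calc n * (x * (K * δ)) = x * (K * (δ * n)) := by ring
      _ ≤ n * (k + 1) * F := h1.trans (h.trans h2)
      _ = n * ((k + 1) * F) := by ring
  have h4 : x * (K * δ) ≤ (k + 1) * F := le_of_mul_le_mul_left h3 hn
  have h5 : (k + 1) * F ≤ K * (δ * ε) / 6 * F := by
    apply mul_le_mul_of_nonneg_right _ hF
    linarith
  have h6 : (K * δ) * x ≤ (K * δ) * (ε / 6 * F) := by
    calc (K * δ) * x = x * (K * δ) := by ring
      _ ≤ K * (δ * ε) / 6 * F := h4.trans h5
      _ = (K * δ) * (ε / 6 * F) := by ring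
  exact le_of_mul_le_mul_left h6 (by positivity)

section bounds
variable {n : ℕ} {V : Type*} [Fintype V] [DecidableEq V] [PartialOrder V] (f : V ≃ Fin n)

open Classical in
theorem few_small (fb : FewBound) {δ ε : ℝ} (hδ : 0 < δ) (hε : 0 < ε) (hn : 0 < n)
    (S : Finset V) (N : V → Finset V) (hN : ∀ x ∈ S, x ∉ N x)
    (hd : ∀ x ∈ S, δ * n ≤ ((N x).card : ℝ)) (k K : ℕ) (hK : 6 * ((k : ℝ) + 1) ≤ K * (δ * ε)) :
    (((Finset.univ : Finset (Equiv.Perm (Fin n))).filter
      fun s => K ≤ (fewL (lab f s) S N k).card).card : ℝ) ≤ ε / 6 * n.factorial := by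
  have h := fb n (S.map f.toEmbedding) (mov f N) ⌈δ * n⌉₊ k K
    (by
      intro x hx
      obtain ⟨y, hy, rfl⟩ := Finset.mem_map.mp hx
      intro h'
      have h1 : f y ∈ (N y).map f.toEmbedding := by
        have : mov f N (f y) = (N y).map f.toEmbedding := by
          rw [mov, f.symm_apply_apply]
        rw [← this]
        exact h'
      exact not_mem_map f (hN y hy) h1)
    (by
      intro x hx
      obtain ⟨y, hy, rfl⟩ := Finset.mem_map.mp hx
      change _ ≤ (mov f N (f y)).card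
      rw [mov, f.symm_apply_apply, Finset.card_map]
      exact Nat.ceil_le.mpr (hd y hy))
  have h' : (((Finset.univ : Finset (Equiv.Perm (Fin n))).filter
      fun s => K ≤ (fewL (lab f s) S N k).card).card : ℝ) * (K * ((⌈δ * n⌉₊ : ℝ) + 1)) ≤
      (S.card : ℝ) * ((k : ℝ) + 1) * n.factorial := by
    have h1 : ((Finset.univ : Finset (Equiv.Perm (Fin n))).filter
        fun s => K ≤ (fewL (lab f s) S N k).card).card * (K * (⌈δ * n⌉₊ + 1)) ≤
        S.card * (k + 1) * n.factorial := by
      rw [Finset.card_map] at h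
      refine le_trans (Nat.mul_le_mul_right _ (le_of_eq ?_)) h
      congr 1
      apply Finset.filter_congr
      intro s _
      rw [few_map]
    exact_mod_cast h1
  refine markov_arith hδ hε (by exact_mod_cast hn) (Nat.cast_nonneg _) (Nat.cast_nonneg _)
    (Nat.cast_nonneg _) (Nat.le_ceil _) ?_ hK h'
  have h2 := Finset.card_le_univ S
  rw [Fintype.card_congr f, Fintype.card_fin] at h2
  exact_mod_cast h2

open Classical in
theorem tops_small (tb : TopsBound) {δ ε : ℝ} (hδ : 0 < δ) (hε : 0 < ε) (hn : 0 < n)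
    (A B : Finset V) (hd : ∀ x ∈ B, δ * n ≤ ((dnN A x).card : ℝ)) (K : ℕ)
    (hK : 6 ≤ K * (δ * ε)) :
    (((Finset.univ : Finset (Equiv.Perm (Fin n))).filter
      fun s => K ≤ (topL (lab f s) A B).card).card : ℝ) ≤ ε / 6 * n.factorial := by
  have h := tb n (B.map f.toEmbedding) (mov f (dnN A)) ⌈δ * n⌉₊ K
    (by
      intro x hx
      obtain ⟨y, hy, rfl⟩ := Finset.mem_map.mp hx
      intro h'
      have h1 : f y ∈ (dnN A y).map f.toEmbedding := by
        have : mov f (dnN A) (f y) = (dnN A y).map f.toEmbedding := by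
          rw [mov, f.symm_apply_apply]
        rw [← this]
        exact h'
      refine not_mem_map f (fun h2 => ?_) h1
      exact lt_irrefl _ (mem_dnN.mp h2).2)
    (by
      intro x hx
      obtain ⟨y, hy, rfl⟩ := Finset.mem_map.mp hx
      change _ ≤ (mov f (dnN A) (f y)).card
      rw [mov, f.symm_apply_apply, Finset.card_map]
      exact Nat.ceil_le.mpr (hd y hy))
  have h' : (((Finset.univ : Finset (Equiv.Perm (Fin n))).filter
      fun s => K ≤ (topL (lab f s) A B).card).card : ℝ) * (K * ((⌈δ * n⌉₊ : ℝ) + 1)) ≤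
      (B.card : ℝ) * ((0 : ℝ) + 1) * n.factorial := by
    have h1 : ((Finset.univ : Finset (Equiv.Perm (Fin n))).filter
        fun s => K ≤ (topL (lab f s) A B).card).card * (K * (⌈δ * n⌉₊ + 1)) ≤
        B.card * n.factorial := by
      rw [Finset.card_map] at h
      refine le_trans (Nat.mul_le_mul_right _ (le_of_eq ?_)) h
      congr 1
      apply Finset.filter_congr
      intro s _
      rw [tops_map]
    rw [zero_add, mul_one]
    exact_mod_cast h1
  refine markov_arith hδ hε (by exact_mod_cast hn) (Nat.cast_nonneg _) le_rfl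
    (Nat.cast_nonneg _) (Nat.le_ceil _) ?_ (by linarith) h'
  have h2 := Finset.card_le_univ B
  rw [Fintype.card_congr f, Fintype.card_fin] at h2
  exact_mod_cast h2

open Classical in
theorem corner_small {δ ε : ℝ} (hδ : 0 < δ) (hε : 0 < ε) {A B C : Finset V}
    (hL : Lay A B C) (hD : Deg (fun x y : V => x < y) A B C (δ * n)) (hn : 0 < n)
    (hbig : 1 + 6 / (ε * δ) ≤ δ * n) :
    (((Finset.univ : Finset (Equiv.Perm (Fin n))).filter
      fun s => ∃ x, CornerAt (lab f s) x).card : ℝ) ≤ ε / 6 * n.factorial := by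
  have h6 : 0 < 6 / (ε * δ) := by positivity
  have h := corner_bound f A B C hL (δ * n) (by linarith) hD
  have hn' : (0 : ℝ) < n := by exact_mod_cast hn
  have h' : (((Finset.univ : Finset (Equiv.Perm (Fin n))).filter
      fun s => ∃ x, CornerAt (lab f s) x).card : ℝ) * ((δ * n - 1) * (δ * n)) ≤
      n * n.factorial := by
    refine le_trans (le_of_eq ?_) h
    congr 2
  set x : ℝ := (((Finset.univ : Finset (Equiv.Perm (Fin n))).filter
      fun s => ∃ x, CornerAt (lab f s) x).card : ℝ) with hx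
  have hx0 : 0 ≤ x := Nat.cast_nonneg _
  have h1 : x * (6 / (ε * δ) * (δ * n)) ≤ n * n.factorial := by
    refine le_trans (mul_le_mul_of_nonneg_left ?_ hx0) h'
    apply mul_le_mul_of_nonneg_right _ (by positivity)
    linarith
  have h2 : 6 / (ε * δ) * (δ * n) = 6 / ε * n := by
    field_simp
  rw [h2] at h1
  have h3 : n * (x * (6 / ε)) ≤ n * (n.factorial : ℝ) := by
    calc n * (x * (6 / ε)) = x * (6 / ε * n) := by ring
      _ ≤ n * (n.factorial : ℝ) := h1
  have h4 : x * (6 / ε) ≤ (n.factorial : ℝ) := le_of_mul_le_mul_left h3 hn'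
  calc x = (x * (6 / ε)) * (ε / 6) := by field_simp
    _ ≤ (n.factorial : ℝ) * (ε / 6) := mul_le_mul_of_nonneg_right h4 (by positivity)
    _ = ε / 6 * n.factorial := by ring

end bounds

variable {Q : Subring R} (hQ : ∀ F : R, F ∈ Q ↔ IsQS F)
include hQ

open Classical in
/-- **Few labellings of a good poset with three layers have a reducible function.** -/
theorem label_bound (fb : FewBound) (tb : TopsBound) :
    ∀ δ ε : ℝ, 0 < δ → 0 < ε → ∃ K L N : ℕ, ∀ n ≥ N, ∀ (V : Type) [Fintype V] [DecidableEq V]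
      [PartialOrder V] (f : V ≃ Fin n) (A B C : Finset V), Lay A B C →
      Deg (fun x y : V => x < y) A B C (δ * n) → Com (fun x y : V => x < y) B C K L →
      ((Finset.univ.filter fun s : Equiv.Perm (Fin n) =>
        ¬ Irreducible (GamQ hQ (fun x => ((s (f x) : Fin n) : ℕ)) Finset.univ)).card : ℝ) ≤
        ε * n.factorial := by
  intro δ ε hδ hε
  have hδε : 0 < δ * ε := mul_pos hδ hε
  have hceil : ∀ y : ℝ, y ≤ ((⌈y / (δ * ε)⌉₊ + 1 : ℕ) : ℝ) * (δ * ε) := by
    intro y
    have h1 := Nat.le_ceil (y / (δ * ε))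
    rw [div_le_iff₀ hδε] at h1
    push_cast
    nlinarith
  set K₀ := ⌈6 / (δ * ε)⌉₊ with hK₀
  set K₁ := ⌈6 * ((K₀ : ℝ) + 1) / (δ * ε)⌉₊ with hK₁
  set K₂ := ⌈6 * (((K₀ + K₁ : ℕ) : ℝ) + 1) / (δ * ε)⌉₊ with hK₂
  have hk0 := hceil 6
  rw [← hK₀] at hk0
  have hk1 := hceil (6 * ((K₀ : ℝ) + 1))
  rw [← hK₁] at hk1
  have hk2 := hceil (6 * (((K₀ + K₁ : ℕ) : ℝ) + 1))
  rw [← hK₂] at hk2
  refine ⟨K₂, K₀ + K₁ + 2,
    ⌈((K₀ : ℝ) + 2 * K₁ + 2 + 6 / (ε * δ)) / δ⌉₊ + 1, ?_⟩
  intro n hn V _ _ _ f A B C hL hD hC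
  have hn0 : 0 < n := by omega
  have hbig : (K₀ : ℝ) + 2 * K₁ + 2 + 6 / (ε * δ) ≤ δ * n := by
    have h1 := Nat.le_ceil (((K₀ : ℝ) + 2 * K₁ + 2 + 6 / (ε * δ)) / δ)
    rw [div_le_iff₀ hδ] at h1
    have h2 : (⌈((K₀ : ℝ) + 2 * K₁ + 2 + 6 / (ε * δ)) / δ⌉₊ : ℝ) ≤ n := by
      exact_mod_cast (by omega : ⌈((K₀ : ℝ) + 2 * K₁ + 2 + 6 / (ε * δ)) / δ⌉₊ ≤ n)
    nlinarith
  have h6 : 0 < 6 / (ε * δ) := by positivity
  have hK0' : (0 : ℝ) ≤ K₀ := Nat.cast_nonneg _
  have hK1' : (0 : ℝ) ≤ K₁ := Nat.cast_nonneg _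
  have hpos : 0 < δ * n := by linarith
  -- the top layer is large
  have hne : ∃ b, b ∈ B := by
    have hx : Nonempty V := ⟨f.symm ⟨0, hn0⟩⟩
    obtain ⟨x⟩ := hx
    have hex : ∀ T : Finset V, δ * n ≤ (T.card : ℝ) → T ⊆ B → ∃ b, b ∈ B := by
      intro T hT hTB
      have h1 : 0 < T.card := by
        have : (0 : ℝ) < T.card := by linarith
        exact_mod_cast this
      obtain ⟨b, hb⟩ := Finset.card_pos.mp h1
      exact ⟨b, hTB hb⟩
    rcases hL.cover x with h | h | h
    · exact hex _ (hD.ab x h) (Finset.filter_subset _ _)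
    · exact ⟨x, h⟩
    · exact hex _ (hD.cb x h) (Finset.filter_subset _ _)
  obtain ⟨b₀, hb₀⟩ := hne
  have hCc : 2 * K₁ < C.card := by
    have h1 := hD.bc b₀ hb₀
    have h2 := Finset.card_le_card (Finset.filter_subset (fun c => b₀ < c) C)
    have h3 : ((C.filter fun c => b₀ < c).card : ℝ) ≤ C.card := by exact_mod_cast h2
    have h4 : δ * n ≤ C.card := le_trans (by convert h1 using 2) h3
    have h5 : ((2 * K₁ : ℕ) : ℝ) < C.card := by
      push_cast
      linarith
    exact_mod_cast h5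
  -- degrees
  have hup : ∀ b ∈ B, δ * n ≤ ((upN C b).card : ℝ) := by
    intro b hb
    have h := hD.bc b hb
    unfold upN
    convert h using 2
  have hdnB : ∀ c ∈ C, δ * n ≤ ((dnN B c).card : ℝ) := by
    intro c hc
    have h := hD.cb c hc
    unfold dnN
    convert h using 2
  have hdnA : ∀ b ∈ B, δ * n ≤ ((dnN A b).card : ℝ) := by
    intro b hb
    have h := hD.ba b hb
    unfold dnN
    convert h using 2
  have nup : ∀ b ∈ B, b ∉ upN C b := fun b _ h => lt_irrefl _ (mem_upN.mp h).2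
  have ndn : ∀ c ∈ C, c ∉ dnN B c := fun c _ h => lt_irrefl _ (mem_dnN.mp h).2
  -- the six bad events
  have e0 := corner_small f hδ hε hL hD hn0 (by linarith)
  have e1 := tops_small f tb hδ hε hn0 A B hdnA (K₀ + 1) hk0
  have e2 := few_small f fb hδ hε hn0 C (dnN B) ndn hdnB K₀ (K₁ + 1) hk1
  have e3 := few_small f fb hδ hε hn0 B (upN C) nup hup 0 (K₁ + 1) (by
    push_cast at hk1 ⊢
    linarith)
  have e4 := few_small f fb hδ hε hn0 B (upN C) nup hup K₁ (K₂ + 1) (by
    push_cast at hk2 ⊢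
    linarith)
  have e5 := few_small f fb hδ hε hn0 C (dnN B) ndn hdnB (K₀ + K₁) (K₂ + 1) hk2
  set F := Finset.univ.filter fun s : Equiv.Perm (Fin n) =>
    ¬ Irreducible (GamQ hQ (fun x => ((s (f x) : Fin n) : ℕ)) Finset.univ) with hF
  set S0 := (Finset.univ : Finset (Equiv.Perm (Fin n))).filter
    fun s => ∃ x, CornerAt (lab f s) x with hS0
  set S1 := (Finset.univ : Finset (Equiv.Perm (Fin n))).filter
    fun s => K₀ + 1 ≤ (topL (lab f s) A B).card with hS1
  set S2 := (Finset.univ : Finset (Equiv.Perm (Fin n))).filter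
    fun s => K₁ + 1 ≤ (fewL (lab f s) C (dnN B) K₀).card with hS2
  set S3 := (Finset.univ : Finset (Equiv.Perm (Fin n))).filter
    fun s => K₁ + 1 ≤ (fewL (lab f s) B (upN C) 0).card with hS3
  set S4 := (Finset.univ : Finset (Equiv.Perm (Fin n))).filter
    fun s => K₂ + 1 ≤ (fewL (lab f s) B (upN C) K₁).card with hS4
  set S5 := (Finset.univ : Finset (Equiv.Perm (Fin n))).filter
    fun s => K₂ + 1 ≤ (fewL (lab f s) C (dnN B) (K₀ + K₁)).card with hS5
  have hsub : F ⊆ S0 ∪ (S1 ∪ (S2 ∪ (S3 ∪ (S4 ∪ S5)))) := by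
    intro s hs
    by_contra hcon
    simp only [Finset.mem_union, hS0, hS1, hS2, hS3, hS4, hS5, Finset.mem_filter,
      Finset.mem_univ, true_and, not_or, not_le] at hcon
    obtain ⟨c0, c1, c2, c3, c4, c5⟩ := hcon
    apply (Finset.mem_filter.mp hs).2
    exact det_core hQ (lab_inj f s) hL hD hC c0 (Nat.lt_succ_iff.mp c1) (Nat.lt_succ_iff.mp c2)
      (Nat.lt_succ_iff.mp c3) (Nat.lt_succ_iff.mp c4) (Nat.lt_succ_iff.mp c5) (by linarith)
      le_rfl hCc
  have hcard : F.card ≤ S0.card + (S1.card + (S2.card + (S3.card + (S4.card + S5.card)))) := by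
    refine (Finset.card_le_card hsub).trans ?_
    refine (Finset.card_union_le _ _).trans (Nat.add_le_add_left ?_ _)
    refine (Finset.card_union_le _ _).trans (Nat.add_le_add_left ?_ _)
    refine (Finset.card_union_le _ _).trans (Nat.add_le_add_left ?_ _)
    refine (Finset.card_union_le _ _).trans (Nat.add_le_add_left ?_ _)
    exact Finset.card_union_le _ _
  have hcard' : (F.card : ℝ) ≤
      S0.card + (S1.card + (S2.card + (S3.card + (S4.card + S5.card)))) := by
    exact_mod_cast hcard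
  linarith

end Pool.Agent.Lib.MP_5bc52d_co.AA
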