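import Pool.Agent.Lib.MP_5bc52d_co.AA.Defs

/-!
# Random labellings: the corners

The bounds `MidBound`, `LowBound` and `HighBound`: for each good permutation one exchanges one or
two pairs of values in `|M| * |N|` different ways, and the exchanges can be read off from the
result.
-/

namespace Pool.Agent.Lib.MP_5bc52d_co.AA

/-- Counting by an injection into the permutations. -/
theorem card_mul_le_factorial {n : ℕ} {α β : Type*} (S : Finset (Equiv.Perm (Fin n)))
    (T : Finset α) (U : Finset β) (f : Equiv.Perm (Fin n) → α → β → Equiv.Perm (Fin n))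
    (h : ∀ σ ∈ S, ∀ a ∈ T, ∀ b ∈ U, ∀ σ' ∈ S, ∀ a' ∈ T, ∀ b' ∈ U,
      f σ a b = f σ' a' b' → σ = σ' ∧ a = a' ∧ b = b') :
    S.card * (T.card * U.card) ≤ n.factorial := by
  classical
  have h1 : (S ×ˢ (T ×ˢ U)).card ≤ (Finset.univ : Finset (Equiv.Perm (Fin n))).card := by
    refine Finset.card_le_card_of_injOn (fun p => f p.1 p.2.1 p.2.2) (fun _ _ => Finset.mem_univ _)
      ?_
    rintro ⟨σ, a, b⟩ hp ⟨σ', a', b'⟩ hp' heq
    simp only [Finset.coe_product, Set.mem_prod, Finset.mem_coe] at hp hp'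
    obtain ⟨e1, e2, e3⟩ := h σ hp.1 a hp.2.1 b hp.2.2 σ' hp'.1 a' hp'.2.1 b' hp'.2.2 heq
    simp [e1, e2, e3]
  rw [Finset.card_univ, Fintype.card_perm, Fintype.card_fin, Finset.card_product,
    Finset.card_product] at h1
  exact h1

theorem mid_bound : MidBound := by
  classical
  intro n x M N hxM hxN hMN
  refine card_mul_le_factorial _ M N (fun σ a c => σ * Equiv.swap a c) ?_
  intro σ hσ a ha c hc σ' hσ' a' ha' c' hc' heq
  simp only [Finset.mem_filter, Finset.mem_univ, true_and] at hσ hσ'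
  have key : ∀ (σ : Equiv.Perm (Fin n)) (a c : Fin n), (∀ y ∈ M, σ y < σ x) →
      (∀ y ∈ N, σ x < σ y) → a ∈ M → c ∈ N →
      (∀ z ∈ M, ((σ * Equiv.swap a c) x < (σ * Equiv.swap a c) z ↔ z = a)) ∧
      (∀ z ∈ N, ((σ * Equiv.swap a c) z < (σ * Equiv.swap a c) x ↔ z = c)) := by
    intro σ a c h1 h2 ha hc
    have hxa : x ≠ a := fun h => hxM (h ▸ ha)
    have hxc : x ≠ c := fun h => hxN (h ▸ hc)
    have hac : a ≠ c := fun h => Finset.disjoint_left.mp hMN ha (h ▸ hc)
    constructor
    · intro z hz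
      have hzc : z ≠ c := fun h => Finset.disjoint_left.mp hMN hz (h ▸ hc)
      simp only [Equiv.Perm.mul_apply, Equiv.swap_apply_of_ne_of_ne hxa hxc]
      by_cases hza : z = a
      · subst hza
        simp only [Equiv.swap_apply_left, iff_true]
        exact h2 c hc
      · rw [Equiv.swap_apply_of_ne_of_ne hza hzc]
        simp only [hza, iff_false, not_lt]
        exact (h1 z hz).le
    · intro z hz
      have hza : z ≠ a := fun h => Finset.disjoint_left.mp hMN ha (h ▸ hz)
      simp only [Equiv.Perm.mul_apply, Equiv.swap_apply_of_ne_of_ne hxa hxc]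
      by_cases hzc : z = c
      · subst hzc
        simp only [Equiv.swap_apply_right, iff_true]
        exact h1 a ha
      · rw [Equiv.swap_apply_of_ne_of_ne hza hzc]
        simp only [hzc, iff_false, not_lt]
        exact (h2 z hz).le
  have k1 := key σ a c hσ.1 hσ.2 ha hc
  have k2 := key σ' a' c' hσ'.1 hσ'.2 ha' hc'
  rw [← heq] at k2
  have ea : a = a' := (k2.1 a ha).mp ((k1.1 a ha).mpr rfl)
  have ec : c = c' := (k2.2 c hc).mp ((k1.2 c hc).mpr rfl)
  subst ea ec
  exact ⟨mul_right_cancel heq, rfl, rfl⟩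

theorem low_bound : LowBound := by
  classical
  intro n x y M N hxM hyM hxN hyN hMN
  rw [← Finset.card_erase_of_mem hyM]
  refine card_mul_le_factorial _ (M.erase y) N
    (fun σ b c => σ * (Equiv.swap x b * Equiv.swap y c)) ?_
  intro σ hσ b hb c hc σ' hσ' b' hb' c' hc' heq
  simp only [Finset.mem_filter, Finset.mem_univ, true_and] at hσ hσ'
  have hxy : x ≠ y := fun h => hxM (h ▸ hyM)
  have key : ∀ (σ : Equiv.Perm (Fin n)) (b c : Fin n), (∀ z ∈ M, σ x < σ z) →
      (∀ z ∈ N, σ y < σ z) → b ∈ M.erase y → c ∈ N →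
      (∀ z ∈ M.erase y, z ≠ b → (σ * (Equiv.swap x b * Equiv.swap y c)) b <
        (σ * (Equiv.swap x b * Equiv.swap y c)) z) ∧
      (∀ z ∈ N, z ≠ c → (σ * (Equiv.swap x b * Equiv.swap y c)) c <
        (σ * (Equiv.swap x b * Equiv.swap y c)) z) := by
    intro σ b c h1 h2 hb hc
    obtain ⟨hby, hbM⟩ := Finset.mem_erase.mp hb
    have hxb : x ≠ b := fun h => hxM (h ▸ hbM)
    have hxc : x ≠ c := fun h => hxN (h ▸ hc)
    have hyc : y ≠ c := fun h => hyN (h ▸ hc)
    have hbc : b ≠ c := fun h => Finset.disjoint_left.mp hMN hbM (h ▸ hc)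
    have eb : (σ * (Equiv.swap x b * Equiv.swap y c)) b = σ x := by
      simp only [Equiv.Perm.mul_apply]
      rw [Equiv.swap_apply_of_ne_of_ne hby hbc, Equiv.swap_apply_right]
    have ec : (σ * (Equiv.swap x b * Equiv.swap y c)) c = σ y := by
      simp only [Equiv.Perm.mul_apply]
      rw [Equiv.swap_apply_right, Equiv.swap_apply_of_ne_of_ne hxy.symm hby.symm]
    constructor
    · intro z hz hzb
      obtain ⟨hzy, hzM⟩ := Finset.mem_erase.mp hz
      have hzx : z ≠ x := fun h => hxM (h ▸ hzM)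
      have hzc : z ≠ c := fun h => Finset.disjoint_left.mp hMN hzM (h ▸ hc)
      rw [eb]
      simp only [Equiv.Perm.mul_apply]
      rw [Equiv.swap_apply_of_ne_of_ne hzy hzc, Equiv.swap_apply_of_ne_of_ne hzx hzb]
      exact h1 z hzM
    · intro z hz hzc
      have hzb : z ≠ b := fun h => Finset.disjoint_left.mp hMN hbM (h ▸ hz)
      have hzx : z ≠ x := fun h => hxN (h ▸ hz)
      have hzy : z ≠ y := fun h => hyN (h ▸ hz)
      rw [ec]
      simp only [Equiv.Perm.mul_apply]
      rw [Equiv.swap_apply_of_ne_of_ne hzy hzc, Equiv.swap_apply_of_ne_of_ne hzx hzb]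
      exact h2 z hz
  have k1 := key σ b c hσ.1 hσ.2 hb hc
  have k2 := key σ' b' c' hσ'.1 hσ'.2 hb' hc'
  rw [← heq] at k2
  have eb : b = b' := by
    by_contra hne
    have u1 := k1.1 b' hb' (fun h => hne h.symm)
    have u2 := k2.1 b hb hne
    exact absurd u1 (not_lt.mpr u2.le)
  have ec : c = c' := by
    by_contra hne
    have u1 := k1.2 c' hc' (fun h => hne h.symm)
    have u2 := k2.2 c hc hne
    exact absurd u1 (not_lt.mpr u2.le)
  subst eb ec
  exact ⟨mul_right_cancel heq, rfl, rfl⟩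

theorem high_bound : HighBound := by
  classical
  intro n x y M N hxM hyM hxN hyN hMN
  have h := low_bound n x y M N hxM hyM hxN hyN hMN
  refine le_trans (Nat.mul_le_mul_right _ (le_of_eq ?_)) h
  refine Finset.card_bij (fun σ _ => Fin.revPerm * σ) ?_ ?_ ?_
  · intro σ hσ
    simp only [Finset.mem_filter, Finset.mem_univ, true_and] at hσ ⊢
    simp only [Equiv.Perm.mul_apply, Fin.revPerm_apply, Fin.rev_lt_rev]
    exact hσ
  · intro σ _ τ _ h
    exact mul_left_cancel h
  · intro τ hτ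
    simp only [Finset.mem_filter, Finset.mem_univ, true_and] at hτ
    refine ⟨Fin.revPerm * τ, ?_, ?_⟩
    · simp only [Finset.mem_filter, Finset.mem_univ, true_and]
      simp only [Equiv.Perm.mul_apply, Fin.revPerm_apply, Fin.rev_lt_rev]
      exact hτ
    · ext z
      simp [Equiv.Perm.mul_apply]

end Pool.Agent.Lib.MP_5bc52d_co.AA
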