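import Mathlib
import Pool.Agent.Lib.MP_5bc52d_co.AA.Zeta
import Pool.Agent.Lib.MP_5bc52d_co.AA.H2

/-!
# The value at `-T` for labelled posets of height at most two, and the final form of the criterion
-/

open Finset Polynomial

set_option linter.unusedSectionVars false

namespace Pool.Agent.Lib.MP_5bc52d_co.AA

open Splitting Cyc Cut Key

variable {P : Type*} [Fintype P] [DecidableEq P] [PartialOrder P]
variable {Q : Subring R} (hQ : ∀ F : R, F ∈ Q ↔ IsQS F)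
include hQ

/-- the values at `-T` are different from zero -/
theorem zeta_val {ω : P → ℕ} (hω : Function.Injective ω) (x : P) {U : Finset P}
    (hU : Key.Low (fun a b : P => a < b) U) (hiso : ∀ x ∈ U, ∃ y ∈ U, x < y ∨ y < x) (c : Bool) :
    (lo hQ c (GamQ hQ ω U)).eval (-(sg Q c * GamQ hQ ω {x})) ≠ 0 := by
  intro h
  apply not_dvd_low hQ hω x hU hiso
  have h1 : -(sg Q c * GamQ hQ ω {x}) - 0 ∣
      (lo hQ c (GamQ hQ ω U)).eval (-(sg Q c * GamQ hQ ω {x})) -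
        (lo hQ c (GamQ hQ ω U)).eval 0 := sub_dvd_eval_sub _ _ _
  rw [h, sub_zero, zero_sub, ← coeff_zero_eq_eval_zero, lo_zero hQ, neg_dvd, dvd_neg] at h1
  exact (dvd_mul_left _ _).trans h1

theorem low_of_flat2 {X U : Finset P} (hX : Flat2 (fun a b : P => a < b) X U) :
    Key.Low (fun a b : P => a < b) U :=
  fun a ha b hb c hc hab hbc => (hX a ha b hb hab).2 (hX b hb c hc hbc).1

theorem low_of_flat2' {X U : Finset P} (hX : Flat2 (fun a b : P => b < a) X U) :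
    Key.Low (fun a b : P => a < b) U :=
  fun a ha b hb c hc hab hbc => (hX c hc b hb hbc).2 (hX b hb a ha hab).1

/-- **The criterion for height at most two**: `X` are the lower elements. -/
theorem irr_low {ω : P → ℕ} (hω : Function.Injective ω) (c : Bool) {U X : Finset P}
    (hX : Flat2 (fun a b : P => a < b) X U)
    (hiso : ∀ x ∈ U, ∃ y ∈ U, x < y ∨ y < x)
    (hcard : (AA.Src (fun a b : P => a < b) (Cut.wt ω c) U \ X).card ≤
      (AA.Src (fun a b : P => a < b) (Cut.wt ω c) U ∩ X).card)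
    (hbig : 2 * (AA.Src (fun a b : P => a < b) (Cut.wt ω c) U \ X).card < U.card)
    {y₁ y₂ : P} (h₁ : y₁ ∈ U) (h₂ : y₂ ∈ U) (hne : y₁ ≠ y₂) (hX₁ : y₁ ∉ X) (hX₂ : y₂ ∉ X)
    (hS₁ : y₁ ∉ AA.Src (fun a b : P => a < b) (Cut.wt ω c) U)
    (hS₂ : y₂ ∉ AA.Src (fun a b : P => a < b) (Cut.wt ω c) U)
    (hd : ∀ x ∈ AA.Src (fun a b : P => a < b) (Cut.wt ω c)
      (U \ (AA.Src (fun a b : P => a < b) (Cut.wt ω c) U \ X)), x < y₁ ∧ x < y₂) :
    Irreducible (GamQ hQ ω U) :=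
  h2_low hQ hω c hX hiso hcard hbig h₁ h₂ hne hX₁ hX₂ hS₁ hS₂ hd y₁ h₁
    ⟨true, Or.inl (zeta_val hQ hω y₁ (low_of_flat2 hQ hX) hiso true)⟩

/-- **The criterion for height at most two**: `X` are the upper elements. -/
theorem irr_high {ω : P → ℕ} (hω : Function.Injective ω) (c : Bool) {U X : Finset P}
    (hX : Flat2 (fun a b : P => b < a) X U)
    (hiso : ∀ x ∈ U, ∃ y ∈ U, x < y ∨ y < x)
    (hcard : (AA.Src (fun a b : P => b < a) (Cut.wt ω c) U \ X).card ≤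
      (AA.Src (fun a b : P => b < a) (Cut.wt ω c) U ∩ X).card)
    (hbig : 2 * (AA.Src (fun a b : P => b < a) (Cut.wt ω c) U \ X).card < U.card)
    {y₁ y₂ : P} (h₁ : y₁ ∈ U) (h₂ : y₂ ∈ U) (hne : y₁ ≠ y₂) (hX₁ : y₁ ∉ X) (hX₂ : y₂ ∉ X)
    (hS₁ : y₁ ∉ AA.Src (fun a b : P => b < a) (Cut.wt ω c) U)
    (hS₂ : y₂ ∉ AA.Src (fun a b : P => b < a) (Cut.wt ω c) U)
    (hd : ∀ x ∈ AA.Src (fun a b : P => b < a) (Cut.wt ω c)
      (U \ (AA.Src (fun a b : P => b < a) (Cut.wt ω c) U \ X)), y₁ < x ∧ y₂ < x) :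
    Irreducible (GamQ hQ ω U) :=
  h2_high hQ hω c hX (fun x hx => (hiso x hx).imp fun _ h => ⟨h.1, h.2.symm⟩) hcard hbig h₁ h₂
    hne hX₁ hX₂ hS₁ hS₂ hd y₁ h₁ ⟨true, Or.inl (zeta_val hQ hω y₁ (low_of_flat2' hQ hX) hiso true)⟩

end Pool.Agent.Lib.MP_5bc52d_co.AA
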